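import Pool.Agent.Y6.Stm3
import Pool.Agent.Y6.Bfb
import Pool.Agent.Y6.Bd

/-!
# Evolution of weighted energies of Fourier families
-/

open MeasureTheory Set Filter Topology
open scoped ContDiff ENNReal

set_option autoImplicit false

namespace Pool.Agent.Y807.NSDer

open Pool.Agent.H356R3.NS hiding K sq
open Pool.Agent.Y6

/-- the derivative of one term -/
noncomputable def dg (c : ℝ) (ρ ρ' : K → ℝ) (y : K → C3) (k : K) : ℝ :=
  ρ' k * en2 (y k) + ρ k * (2 * (ipc (y k) (RH c y k)).re)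

lemma qk_le_pw (k : K) : qk k ≤ pw k ^ 2 := by
  have h1 := nk_le_pw k
  have h2 : nk k ^ 2 = qk k := by
    unfold nk
    exact Real.sq_sqrt (sq_nonneg' k)
  rw [← h2]
  exact pow_le_pow_left₀ (nk_nonneg k) h1 2

lemma en_le (v : C3) : en v ≤ 2 * ‖v‖ := by
  unfold en
  rw [Real.sqrt_le_left (by positivity)]
  have := en2_le v
  have h := norm_nonneg v
  nlinarith

/-- a bound of the bilinear term -/
lemma norm_Bf_le' {y : K → C3} {D : ℝ} (h : ∀ k, pw k ^ 4 * ‖y k‖ ≤ D) (k : K) :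
    ‖Bf y y k‖ ≤ C0 * pw k * (∑' l : K, D * (1 / pw l) ^ 4) ^ 2 := by
  have h' : ∀ k, pw k ^ (0 + 4) * ‖y k‖ ≤ D := by simpa using h
  obtain ⟨hs, hb⟩ := summ_of_bound 0 h'
  simp only [pow_zero, one_mul] at hb
  have h0 : ∀ k, 0 ≤ D * (1 / pw k) ^ 4 := fun k => (norm_nonneg _).trans (hb k)
  refine (norm_Bf_conv hs hs hb hb k).trans ?_
  have h1 := tsum_bb_le hs hs h0 h0 k
  have h2 := nk_le_pw k
  have h3 := C0_pos
  have h4 := nk_nonneg k
  have h5 : 0 ≤ ∑' l : K, D * (1 / pw l) ^ 4 * (D * (1 / pw (k - l)) ^ 4) :=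
    tsum_nonneg fun l => mul_nonneg (h0 _) (h0 _)
  have h6 := pw_pos k
  calc C0 * nk k * ∑' l : K, D * (1 / pw l) ^ 4 * (D * (1 / pw (k - l)) ^ 4)
      ≤ C0 * pw k * ((∑' l : K, D * (1 / pw l) ^ 4) * ∑' l : K, D * (1 / pw l) ^ 4) := by
        gcongr
    _ = _ := by ring

variable {c T : ℝ} {S : Set K} {u : ℝ → K → C3}

lemma hasDeriv_term (h : TSol c T S u) {ρ ρ' : ℝ → K → ℝ}
    (hρ' : ∀ t ∈ Ioo 0 T, ∀ k, HasDerivAt (fun t => ρ t k) (ρ' t k) t) {t : ℝ} (ht : t ∈ Ioo 0 T) (k : K) :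
    HasDerivAt (fun t => ρ t k * en2 (u t k)) (dg c (ρ t) (ρ' t) (u t) k) t := by
  unfold dg
  by_cases hk : k ∈ S
  · have h1 := hasDerivWithinAt_univ.2 (h.ode t ht k hk)
    have h2 := hasDerivWithinAt_univ.1 (en2_deriv h1)
    exact (hρ' t ht k).mul h2
  · have h0 : u t k = 0 := h.supp t (Ioo_subset_Ico_self ht) k hk
    have h1 : (fun t => ρ t k * en2 (u t k)) =ᶠ[𝓝 t] fun _ => 0 := by
      filter_upwards [Ioo_mem_nhds ht.1 ht.2] with s hs
      rw [h.supp s (Ioo_subset_Ico_self hs) k hk, en2_zero, mul_zero]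
    have h2 : ρ' t k * en2 (u t k) + ρ t k * (2 * (ipc (u t k) (RH c (u t) k)).re) = 0 := by
      rw [h0, en2_zero]
      simp [ipc]
    rw [h2]
    exact (hasDerivAt_const t (0 : ℝ)).congr_of_eventuallyEq h1

/-- the basic estimates at one time -/
lemma est {y : K → C3} {C D D' : ℝ} {m : ℕ} (hD : ∀ k, pw k ^ 4 * ‖y k‖ ≤ D)
    (hD' : ∀ k, pw k ^ (m + 2 + 4) * ‖y k‖ ≤ D') {ρ : K → ℝ} (hρ : ∀ k, |ρ k| ≤ C * pw k ^ m) (k : K) :
    |ρ k| * en2 (y k) ≤ 3 * |C| * D * (D' * (1 / pw k) ^ 4) ∧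
    |ρ k| * (qk k * en2 (y k)) ≤ 3 * |C| * D * (D' * (1 / pw k) ^ 4) ∧
    |ρ k| * |(ipc (y k) (Bf y y k)).re| ≤
      4 * |C| * (C0 * (∑' l : K, D * (1 / pw l) ^ 4) ^ 2) * (D' * (1 / pw k) ^ 4) := by
  have hp := pw_pos k
  have hp1 := one_le_pw k
  have h0 := norm_nonneg (y k)
  have h1 : |ρ k| ≤ |C| * pw k ^ m := (hρ k).trans (mul_le_mul_of_nonneg_right (le_abs_self C) (by positivity))
  have h2 := (summ_of_bound (m + 2) hD').2 k
  have h3 : ‖y k‖ ≤ D := by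
    have := hD k
    have h4 : 1 ≤ pw k ^ 4 := one_le_pow₀ hp1
    nlinarith
  have h5 := en2_le (y k)
  have h6 := en2_nonneg (y k)
  have h7 : 0 ≤ D := h0.trans h3
  have h8 : 0 ≤ |C| := abs_nonneg C
  have hq := qk_le_pw k
  have hq0 := qk_nonneg k
  have h9 : en2 (y k) ≤ 3 * (D * ‖y k‖) := by nlinarith
  have h10 : pw k ^ m * ‖y k‖ ≤ pw k ^ (m + 2) * ‖y k‖ := by
    gcongr
    omega
  have h12 : pw k ^ (m + 1) * ‖y k‖ ≤ pw k ^ (m + 2) * ‖y k‖ := by
    gcongr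
    omega
  refine ⟨?_, ?_, ?_⟩
  · calc |ρ k| * en2 (y k) ≤ (|C| * pw k ^ m) * (3 * (D * ‖y k‖)) := by gcongr
      _ = 3 * |C| * D * (pw k ^ m * ‖y k‖) := by ring
      _ ≤ _ := mul_le_mul_of_nonneg_left (h10.trans h2) (by positivity)
  · calc |ρ k| * (qk k * en2 (y k)) ≤ (|C| * pw k ^ m) * (pw k ^ 2 * (3 * (D * ‖y k‖))) := by gcongr
      _ = 3 * |C| * D * (pw k ^ (m + 2) * ‖y k‖) := by ring
      _ ≤ _ := by gcongr
  · have h11 := norm_Bf_le' hD k
    have e1 := en_le (y k)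
    have e2 := en_le (Bf y y k)
    have e3 : |(ipc (y k) (Bf y y k)).re| ≤ en (y k) * en (Bf y y k) :=
      (Complex.abs_re_le_norm _).trans (norm_ipc_le _ _)
    have e4 := en_nonneg (y k)
    have e5 := en_nonneg (Bf y y k)
    have hC0 := C0_pos
    set B := ∑' l : K, D * (1 / pw l) ^ 4 with hB
    calc |ρ k| * |(ipc (y k) (Bf y y k)).re|
        ≤ (|C| * pw k ^ m) * ((2 * ‖y k‖) * (2 * (C0 * pw k * B ^ 2))) := by
          gcongr
          refine e3.trans ?_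
          gcongr
          exact e2.trans (by gcongr)
      _ = 4 * |C| * (C0 * B ^ 2) * (pw k ^ (m + 1) * ‖y k‖) := by ring
      _ ≤ _ := mul_le_mul_of_nonneg_left (h12.trans h2) (by positivity)

lemma dg_eq (c : ℝ) (ρ ρ' : K → ℝ) (y : K → C3) (k : K) : dg c ρ ρ' y k =
    ρ' k * en2 (y k) - (2 * c) * (ρ k * qk k * en2 (y k)) + 2 * (ρ k * (ipc (y k) (Bf y y k)).re) := by
  unfold dg
  rw [re_ipc_RH]
  ring

theorem t_der : Pool.Agent.Y6.St_der := by
  intro c T S u h ρ ρ' C m hρ hρ' hd hc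
  -- bounds on compact intervals
  have key : ∀ T' < T, ∃ D D' : ℝ, ∀ t ∈ Icc 0 T', (∀ k, pw k ^ 4 * ‖u t k‖ ≤ D) ∧
      ∀ k, pw k ^ (m + 2 + 4) * ‖u t k‖ ≤ D' := by
    intro T' hT'
    obtain ⟨D, hD⟩ := h.rap T' hT' 4
    obtain ⟨D', hD'⟩ := h.rap T' hT' (m + 2 + 4)
    exact ⟨D, D', fun t ht => ⟨hD t ht, hD' t ht⟩⟩
  have hsum : ∀ a : ℝ, Summable fun k : K => a * (1 / pw k) ^ 4 := fun a => summ_pw4.mul_left a
  constructor
  · intro t ht
    obtain ⟨T', h1, h2⟩ := exists_between ht.2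
    obtain ⟨D, D', hDD⟩ := key T' h2
    set B := C0 * (∑' l : K, D * (1 / pw l) ^ 4) ^ 2 with hB
    have hsub : ∀ s ∈ Ioo 0 T', s ∈ Icc 0 T' ∧ s ∈ Ioo 0 T := fun s hs =>
      ⟨Ioo_subset_Icc_self hs, hs.1, hs.2.trans h2⟩
    have ht' : t ∈ Ioo 0 T' := ⟨ht.1, h1⟩
    have bd : ∀ (k : K) (s : ℝ), s ∈ Ioo 0 T' → ‖dg c (ρ s) (ρ' s) (u s) k‖ ≤
        (3 * |C| * D + 2 * |c| * (3 * |C| * D) + 2 * (4 * |C| * B)) * D' * (1 / pw k) ^ 4 := by
      intro k s hs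
      obtain ⟨a1, a2⟩ := hsub s hs
      obtain ⟨b1, b2⟩ := hDD s a1
      obtain ⟨-, e2, e3⟩ := est b1 b2 (hρ s (Ioo_subset_Ico_self a2)) k
      obtain ⟨e1, -, -⟩ := est b1 b2 (hρ' s a2) k
      have e4 := en2_nonneg (u s k)
      have e5 := qk_nonneg k
      rw [dg_eq, Real.norm_eq_abs]
      calc _ ≤ |ρ' s k * en2 (u s k)| + |2 * c * (ρ s k * qk k * en2 (u s k))| +
            |2 * (ρ s k * (ipc (u s k) (Bf (u s) (u s) k)).re)| :=
            (abs_add_le _ _).trans (add_le_add (abs_sub _ _) le_rfl)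
        _ = |ρ' s k| * en2 (u s k) + 2 * |c| * (|ρ s k| * (qk k * en2 (u s k))) +
            2 * (|ρ s k| * |(ipc (u s k) (Bf (u s) (u s) k)).re|) := by
            rw [abs_mul, abs_of_nonneg e4, abs_mul (2 * c), abs_mul 2 c, abs_mul (ρ s k * qk k), abs_mul (ρ s k),
              abs_of_nonneg e4, abs_of_nonneg e5, abs_mul 2, abs_mul (ρ s k)]
            rw [abs_of_pos (show (0 : ℝ) < 2 by norm_num)]
            ring
        _ ≤ 3 * |C| * D * (D' * (1 / pw k) ^ 4) + 2 * |c| * (3 * |C| * D * (D' * (1 / pw k) ^ 4)) +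
            2 * (4 * |C| * B * (D' * (1 / pw k) ^ 4)) := by gcongr
        _ = _ := by ring
    have sm0 : Summable fun k => ρ t k * en2 (u t k) := by
      obtain ⟨b1, b2⟩ := hDD t (hsub t ht').1
      refine Summable.of_norm_bounded (hsum (3 * |C| * D * D')) fun k => ?_
      obtain ⟨e1, -, -⟩ := est b1 b2 (hρ t (Ioo_subset_Ico_self ht)) k
      rw [Real.norm_eq_abs, abs_mul, abs_of_nonneg (en2_nonneg _)]
      calc _ ≤ _ := e1
        _ = _ := by ring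
    have main := hasDerivAt_tsum_of_isPreconnected (hsum _) isOpen_Ioo isPreconnected_Ioo
      (fun k s hs => hasDeriv_term h hd (hsub s hs).2 k) bd ht' sm0 ht'
    refine main.congr_deriv ?_
    obtain ⟨b1, b2⟩ := hDD t (hsub t ht').1
    have sm1 : Summable fun k => ρ' t k * en2 (u t k) := by
      refine Summable.of_norm_bounded (hsum (3 * |C| * D * D')) fun k => ?_
      obtain ⟨e1, -, -⟩ := est b1 b2 (hρ' t ht) k
      rw [Real.norm_eq_abs, abs_mul, abs_of_nonneg (en2_nonneg _)]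
      calc _ ≤ _ := e1
        _ = _ := by ring
    have sm2 : Summable fun k => ρ t k * qk k * en2 (u t k) := by
      refine Summable.of_norm_bounded (hsum (3 * |C| * D * D')) fun k => ?_
      obtain ⟨-, e1, -⟩ := est b1 b2 (hρ t (Ioo_subset_Ico_self ht)) k
      rw [Real.norm_eq_abs, abs_mul, abs_mul, abs_of_nonneg (en2_nonneg _), abs_of_nonneg (qk_nonneg k), mul_assoc]
      calc _ ≤ _ := e1
        _ = _ := by ring
    have sm3 : Summable fun k => ρ t k * (ipc (u t k) (Bf (u t) (u t) k)).re := by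
      refine Summable.of_norm_bounded (hsum (4 * |C| * B * D')) fun k => ?_
      obtain ⟨-, -, e1⟩ := est b1 b2 (hρ t (Ioo_subset_Ico_self ht)) k
      rw [Real.norm_eq_abs, abs_mul]
      calc _ ≤ _ := e1
        _ = _ := by ring
    unfold wn prdi
    rw [← tsum_mul_left, ← tsum_mul_left, ← sm1.tsum_sub (sm2.mul_left _),
      ← (sm1.sub (sm2.mul_left _)).tsum_add (sm3.mul_left _)]
    exact tsum_congr fun k => dg_eq _ _ _ _ _
  · intro t ht
    obtain ⟨T', h1, h2⟩ := exists_between ht.2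
    obtain ⟨D, D', hDD⟩ := key T' h2
    have hsub : Icc 0 T' ⊆ Ico 0 T := fun s hs => ⟨hs.1, hs.2.trans_lt h2⟩
    have hco : ContinuousOn (fun t => wn (ρ t) (u t)) (Icc 0 T') := by
      unfold wn
      refine continuousOn_tsum (u := fun k => 3 * |C| * D * D' * (1 / pw k) ^ 4) (fun k => ?_) (hsum _)
        (fun k s hs => ?_)
      · have c1 := (hc k).mono hsub
        have c2 := (h.cont k).mono hsub
        refine c1.mul ?_
        unfold en2
        refine continuousOn_finsetSum _ fun i _ => ?_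
        exact ((continuous_apply i).comp_continuousOn c2).norm.pow 2
      · obtain ⟨b1, b2⟩ := hDD s hs
        obtain ⟨e1, -, -⟩ := est b1 b2 (hρ s (hsub hs)) k
        rw [Real.norm_eq_abs, abs_mul, abs_of_nonneg (en2_nonneg _)]
        calc _ ≤ _ := e1
          _ = _ := by ring
    refine (hco t ⟨ht.1, h1.le⟩).mono_of_mem_nhdsWithin ?_
    rw [mem_nhdsWithin]
    exact ⟨Iio T', isOpen_Iio, h1, fun s hs => ⟨hs.2.1, hs.1.le⟩⟩

end Pool.Agent.Y807.NSDer
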