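import Pool.Agent.Y6.Stm4

/-!
# Seminorms give heights
-/

open MeasureTheory Set
open scoped ContDiff ENNReal

set_option autoImplicit false

namespace Pool.Agent.Y807.NSHeight

open Pool.Agent.H356R3.NS hiding K sq
open Pool.Agent.Y6 H459R3.NS

/-- the frequency as a real vector -/
def rv (k : K) : Fin 3 → ℝ := fun i => (k i : ℝ)

variable (N : Seminorm ℝ (Fin 3 → ℝ))

lemma seminorm_le (x : Fin 3 → ℝ) : N x ≤ ∑ i, |x i| * N (Pi.single i 1) := by
  have h1 : x = ∑ i, x i • (Pi.single i (1 : ℝ) : Fin 3 → ℝ) := by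
    ext j
    simp [Finset.sum_apply, Pi.single_apply]
  conv_lhs => rw [h1]
  refine (Finset.le_sum_of_subadditive N (map_zero N).le (fun a b => map_add_le_add N a b) _ _).trans ?_
  refine Finset.sum_le_sum fun i _ => ?_
  rw [map_smul_eq_mul, Real.norm_eq_abs]

lemma exists_pos (hN : N ≠ 0) : ∃ i, 0 < N (Pi.single i 1) := by
  by_contra hcon
  push Not at hcon
  apply hN
  ext x
  refine le_antisymm ((seminorm_le N x).trans ?_) (apply_nonneg N x)
  refine Finset.sum_nonpos fun i _ => ?_
  exact mul_nonpos_of_nonneg_of_nonpos (abs_nonneg _) (hcon i)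

lemma thin {i : Fin 3} (hi : 0 < N (Pi.single i 1)) {m : ℕ} (hm : 1 ≤ m) :
    H459R3.NS.DimTwo (9 * (4 / N (Pi.single i 1) + 1) * m) {k | hgt N k ≤ m} := by
  classical
  intro x r hr
  set a := N (Pi.single i 1) with ha
  set L : ℕ := ⌊2 * m / a⌋₊ with hL
  set B : Set K3 := {q ∈ {k | hgt N k ≤ m} | ∀ j, |q j - x j| ≤ r} with hB
  have hfin : B.Finite := (finite_box x r).subset fun q hq => (N_le_iff (q - x) r).2 hq.2
  set s : Finset K3 := hfin.toFinset with hs
  have hcard : B.ncard = s.card := Set.ncard_eq_toFinset_card B hfin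
  set pr : K3 → (({j : Fin 3 // j ≠ i}) → ℤ) := fun q j => q j with hpr
  have hfib : ∀ b ∈ s.image pr, (s.filter fun q => pr q = b).card ≤ 2 * L + 1 := by
    intro b hb
    obtain ⟨q0, hq0, hb0⟩ := Finset.mem_image.1 hb
    have h1 : (s.filter fun q => pr q = b).card ≤ (Finset.Icc (q0 i - (L : ℤ)) (q0 i + L)).card := by
      refine Finset.card_le_card_of_injOn (fun q => q i) ?_ ?_
      · intro q hq
        rw [Finset.mem_coe, Finset.mem_filter] at hq
        obtain ⟨hq1, hq2⟩ := hq
        have e1 : N (rv q) ≤ m := Nat.ceil_le.1 ((hfin.mem_toFinset.1 hq1).1)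
        have e2 : N (rv q0) ≤ m := Nat.ceil_le.1 ((hfin.mem_toFinset.1 hq0).1)
        have e3 : rv q - rv q0 = ((q i : ℝ) - q0 i) • (Pi.single i (1 : ℝ) : Fin 3 → ℝ) := by
          ext j
          by_cases hj : j = i
          · subst hj
            simp [rv]
          · have : q j = q0 j := congrFun (hq2.trans hb0.symm) ⟨j, hj⟩
            simp [rv, this, hj]
        have e4 : |(q i : ℝ) - q0 i| * a ≤ 2 * m := by
          have := map_sub_le_add N (rv q) (rv q0)
          rw [e3, map_smul_eq_mul, Real.norm_eq_abs] at this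
          linarith
        have e5 : |(q i : ℝ) - q0 i| ≤ 2 * m / a := by
          rw [le_div_iff₀ hi]
          exact e4
        have e6 : (|q i - q0 i|.natAbs : ℝ) = |(q i : ℝ) - q0 i| := by
          rw [Int.natAbs_abs, Nat.cast_natAbs]
          push_cast
          rfl
        have e7 : |q i - q0 i|.natAbs ≤ L := by
          rw [hL]
          apply Nat.le_floor
          rw [e6]
          exact e5
        rw [Int.natAbs_abs] at e7
        simp only [Finset.coe_Icc, Set.mem_Icc]
        omega
      · intro q hq q' hq' h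
        rw [Finset.mem_coe, Finset.mem_filter] at hq hq'
        ext j
        by_cases hj : j = i
        · subst hj
          exact h
        · exact congrFun (hq.2.trans hq'.2.symm) ⟨j, hj⟩
    rw [Int.card_Icc] at h1
    omega
  have h2 : s.card ≤ (2 * L + 1) * (s.image pr).card := Finset.card_le_mul_card_image s _ hfib
  have h3 : (s.image pr).card ≤ (2 * r + 1) ^ 2 := by
    have h4 : s.image pr ⊆ Finset.Icc (fun j : {j : Fin 3 // j ≠ i} => x j - (r : ℤ)) (fun j => x j + r) := by
      intro b hb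
      obtain ⟨q, hq, rfl⟩ := Finset.mem_image.1 hb
      have hq' := (hfin.mem_toFinset.1 hq).2
      rw [Finset.mem_Icc]
      constructor
      · intro j
        have := (abs_le.1 (hq' j)).1
        simp only [hpr]
        linarith
      · intro j
        have := (abs_le.1 (hq' j)).2
        simp only [hpr]
        linarith
    refine (Finset.card_le_card h4).trans ?_
    rw [Pi.card_Icc]
    have : ∀ j : {j : Fin 3 // j ≠ i}, (Finset.Icc (x j - (r : ℤ)) (x j + r)).card = 2 * r + 1 := by
      intro j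
      rw [Int.card_Icc]
      omega
    simp_rw [this]
    rw [Finset.prod_const, Finset.card_univ]
    refine le_of_eq ?_
    congr 1
    fin_cases i <;> rfl
  have h4 : (L : ℝ) ≤ 2 * m / a := Nat.floor_le (by positivity)
  have hm' : (1 : ℝ) ≤ m := by exact_mod_cast hm
  have hr' : (1 : ℝ) ≤ r := by exact_mod_cast hr
  have h5 : ((2 * L + 1 : ℕ) : ℝ) ≤ (4 / a + 1) * m := by
    push_cast
    have : (4 / a + 1) * m = 2 * (2 * m / a) + m := by ring
    rw [this]
    linarith
  have h6 : ((2 * r + 1 : ℕ) : ℝ) ^ 2 ≤ 9 * (r : ℝ) ^ 2 := by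
    push_cast
    nlinarith
  have h7 : 0 ≤ 4 / a + 1 := by positivity
  calc (B.ncard : ℝ) = s.card := by rw [hcard]
    _ ≤ (((2 * L + 1) * (2 * r + 1) ^ 2 : ℕ) : ℝ) := by
      exact_mod_cast h2.trans (Nat.mul_le_mul_left _ h3)
    _ = ((2 * L + 1 : ℕ) : ℝ) * ((2 * r + 1 : ℕ) : ℝ) ^ 2 := by push_cast; ring
    _ ≤ ((4 / a + 1) * m) * (9 * (r : ℝ) ^ 2) := by gcongr
    _ = _ := by ring

theorem t_height : Pool.Agent.Y6.St_height := by
  intro N hN
  obtain ⟨i, hi⟩ := exists_pos N hN
  have hH : 0 ≤ ∑ j, N (Pi.single j 1) := Finset.sum_nonneg fun j _ => apply_nonneg N _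
  refine ⟨∑ j, N (Pi.single j 1) + 1, 9 * (4 / N (Pi.single i 1) + 1), by linarith, by positivity, ?_⟩
  refine ⟨fun k => ?_, fun k l => ?_, fun k => ?_, fun m hm => thin N hi hm⟩
  · unfold hgt
    congr 1
    have : (fun j => (((-k) j : ℤ) : ℝ)) = -fun j => (k j : ℝ) := by
      ext j
      simp
    rw [this, map_neg_eq_map]
  · unfold hgt
    have : (fun j => (((k + l) j : ℤ) : ℝ)) = (fun j => (k j : ℝ)) + fun j => (l j : ℝ) := by
      ext j
      simp
    rw [this]
    exact (Nat.ceil_mono (map_add_le_add N _ _)).trans (Nat.ceil_add_le _ _)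
  · have h1 : N (rv k) ≤ (∑ j, N (Pi.single j 1)) * nk k := by
      refine (seminorm_le N _).trans ?_
      rw [Finset.sum_mul]
      refine Finset.sum_le_sum fun j _ => ?_
      rw [mul_comm]
      exact mul_le_mul_of_nonneg_left (abs_le_nk k j) (apply_nonneg N _)
    by_cases hk : k = 0
    · subst hk
      have : hgt N 0 = 0 := by
        unfold hgt
        have : (fun j => (((0 : K) j : ℤ) : ℝ)) = 0 := by
          ext j
          simp
        rw [this, map_zero]
        simp
      rw [this, nk_zero]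
      simp
    · have h2 := one_le_nk hk
      have h3 : (hgt N k : ℝ) ≤ N (rv k) + 1 := (Nat.ceil_lt_add_one (apply_nonneg N _)).le
      rw [add_mul, one_mul]
      linarith

end Pool.Agent.Y807.NSHeight
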