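import Pool.Agent.Y807.DMA

/-!
# Smoothness and Laplace equation of the Fourier series of an even Maass form (job DM-A)
-/

set_option autoImplicit false

open Real MeasureTheory UpperHalfPlane Filter Topology Set
open scoped ContDiff Laplacian

namespace Pool.Agent.Y807.DMA

open Pool.Agent.Y672.DM

/-- one term -/
noncomputable def T (t : ℝ) (k : ℕ) (φ : ℝ) (n : ℕ) (z : ℂ) : ℝ :=
  G k t (2 * π * n * z.im) * cos (2 * π * n * z.re + φ)

/-- the series `∑ c_n G_k(2 π n y) cos(2 π n x + φ)` -/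
noncomputable def W (t : ℝ) (c : ℕ → ℂ) (k : ℕ) (φ : ℝ) (z : ℂ) : ℂ :=
  ∑' n : ℕ, c n * (T t k φ n z : ℂ)

/-- polynomial growth -/
def Gr (c : ℕ → ℂ) : Prop := c 0 = 0 ∧ ∃ (C : ℝ) (M : ℕ), 0 ≤ C ∧ ∀ n, ‖c n‖ ≤ C * (n : ℝ) ^ M

/-- the coefficients of the derivatives -/
noncomputable def dc (c : ℕ → ℂ) (n : ℕ) : ℂ := c n * ((2 * π * n : ℝ) : ℂ)

theorem Gr.dc {c : ℕ → ℂ} (h : Gr c) : Gr (dc c) := by
  obtain ⟨h0, C, M, hC, hM⟩ := h
  refine ⟨by simp [DMA.dc, h0], C * (2 * π), M + 1, by positivity, fun n => ?_⟩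
  unfold DMA.dc
  rw [norm_mul, Complex.norm_real, Real.norm_of_nonneg (by positivity)]
  calc ‖c n‖ * (2 * π * n) ≤ (C * (n : ℝ) ^ M) * (2 * π * n) := by
        gcongr
        exact hM n
    _ = _ := by ring

theorem T_bound (t : ℝ) (k : ℕ) {δ : ℝ} (hδ : 0 < δ) :
    ∃ C : ℝ, 0 ≤ C ∧ ∀ (φ : ℝ) (n : ℕ) (z : ℂ), 1 ≤ n → δ ≤ z.im →
      |T t k φ n z| ≤ C * exp (-(π * δ) * n) := by
  obtain ⟨C, hC0, hC⟩ := G_bound k t (δ := 2 * π * δ) (by positivity)
  refine ⟨C, hC0, fun φ n z hn hz => ?_⟩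
  have hn' : (1 : ℝ) ≤ n := by exact_mod_cast hn
  unfold T
  rw [abs_mul]
  have h1 : 2 * π * δ ≤ 2 * π * n * z.im := by
    have h2 : 0 < π := Real.pi_pos
    have h3 : δ * 1 ≤ z.im * n := mul_le_mul hz hn' zero_le_one (hδ.le.trans hz)
    nlinarith
  have h2 : exp (-(2 * π * n * z.im / 2)) ≤ exp (-(π * δ) * n) := by
    apply Real.exp_le_exp.2
    have h3 : 0 < π := Real.pi_pos
    have h4 : δ * (n : ℝ) ≤ z.im * n := by gcongr
    nlinarith
  calc _ ≤ (C * exp (-(2 * π * n * z.im / 2))) * 1 := by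
        gcongr
        · exact hC _ h1
        · exact abs_cos_le_one _
    _ ≤ _ := by
        rw [mul_one]
        gcongr

/-- uniform summable bound -/
theorem term_bound (t : ℝ) {c : ℕ → ℂ} (h : Gr c) (k : ℕ) {δ : ℝ} (hδ : 0 < δ) :
    ∃ u : ℕ → ℝ, Summable u ∧ ∀ (φ : ℝ) (n : ℕ) (z : ℂ), δ ≤ z.im → ‖c n * (T t k φ n z : ℂ)‖ ≤ u n := by
  obtain ⟨h0, C, M, hC, hM⟩ := h
  obtain ⟨C', hC'0, hC'⟩ := T_bound t k hδ
  refine ⟨fun n => C * C' * ((n : ℝ) ^ M * exp (-(π * δ) * n)), ?_, fun φ n z hz => ?_⟩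
  · exact (Real.summable_pow_mul_exp_neg_nat_mul M (by positivity)).mul_left _
  · rcases Nat.eq_zero_or_pos n with rfl | hn
    · rw [h0, zero_mul, norm_zero]
      positivity
    · rw [norm_mul, Complex.norm_real, Real.norm_eq_abs]
      calc _ ≤ (C * (n : ℝ) ^ M) * (C' * exp (-(π * δ) * n)) := by
            gcongr
            · exact hM n
            · exact hC' φ n z hn hz
        _ = _ := by ring

theorem term_summable (t : ℝ) {c : ℕ → ℂ} (h : Gr c) (k : ℕ) (φ : ℝ) {z : ℂ} (hz : 0 < z.im) :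
    Summable fun n => c n * (T t k φ n z : ℂ) := by
  obtain ⟨u, hu, hb⟩ := term_bound t h k hz
  exact Summable.of_norm_bounded hu fun n => hb φ n z le_rfl

/-- derivative of one term -/
theorem T_hasFDerivAt (t : ℝ) (k : ℕ) (φ : ℝ) {n : ℕ} (hn : 1 ≤ n) {z : ℂ} (hz : 0 < z.im) :
    HasFDerivAt (T t k φ n) ((2 * π * n * T t (k + 1) φ n z) • Complex.imCLM +
      (2 * π * n * T t k (φ + π / 2) n z) • Complex.reCLM) z := by
  have hn' : (1 : ℝ) ≤ n := by exact_mod_cast hn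
  have hpos : 0 < 2 * π * n * z.im := by positivity
  have h1 : HasFDerivAt (fun z : ℂ => 2 * π * n * z.im) ((2 * π * n : ℝ) • Complex.imCLM) z :=
    (Complex.imCLM.hasFDerivAt).const_mul (2 * π * n : ℝ)
  have h2 : HasFDerivAt (fun z : ℂ => 2 * π * n * z.re + φ) ((2 * π * n : ℝ) • Complex.reCLM) z :=
    ((Complex.reCLM.hasFDerivAt).const_mul (2 * π * n : ℝ)).add_const φ
  have h3 := (G_hasDerivAt k t hpos).comp_hasFDerivAt z h1
  have h4 := (Real.hasDerivAt_cos (2 * π * n * z.re + φ)).comp_hasFDerivAt z h2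
  have h5 := h3.mul h4
  refine h5.congr_fderiv ?_
  ext w
  simp only [Function.comp_apply, T, add_apply, smul_apply,
    Complex.imCLM_apply, Complex.reCLM_apply, smul_eq_mul]
  have h6 : cos (2 * π * n * z.re + (φ + π / 2)) = -sin (2 * π * n * z.re + φ) := by
    rw [← add_assoc, Real.cos_add_pi_div_two]
  rw [h6]
  ring

theorem W_hasFDerivAt (t : ℝ) {c : ℕ → ℂ} (h : Gr c) (k : ℕ) (φ : ℝ) {z : ℂ} (hz : 0 < z.im) :
    HasFDerivAt (W t c k φ) (Complex.imCLM.smulRight (W t (dc c) (k + 1) φ z) +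
      Complex.reCLM.smulRight (W t (dc c) k (φ + π / 2) z)) z := by
  have hδ : 0 < z.im / 2 := by positivity
  obtain ⟨u, hu, hb⟩ := term_bound t h.dc (k + 1) hδ
  obtain ⟨u', hu', hb'⟩ := term_bound t h.dc k hδ
  obtain ⟨f', hf'⟩ : ∃ f' : ℕ → ℂ → (ℂ →L[ℝ] ℂ), f' = fun n z =>
    Complex.imCLM.smulRight (dc c n * (T t (k + 1) φ n z : ℂ)) +
      Complex.reCLM.smulRight (dc c n * (T t k (φ + π / 2) n z : ℂ)) := ⟨_, rfl⟩
  have hopen : IsOpen {w : ℂ | z.im / 2 < w.im} := isOpen_lt continuous_const Complex.continuous_im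
  have hconv : Convex ℝ {w : ℂ | z.im / 2 < w.im} := convex_halfSpace_im_gt _
  have key := hasFDerivAt_tsum_of_isPreconnected (𝕜 := ℝ) (u := fun n => u n + u' n)
    (f := fun n w => c n * (T t k φ n w : ℂ)) (f' := f') (s := {w : ℂ | z.im / 2 < w.im})
    (x₀ := z) (x := z) (hu.add hu') hopen hconv.isPreconnected (fun n w hw => ?_) (fun n w hw => ?_)
    (by simpa using half_lt_self hz) (term_summable t h k φ hz) (by simpa using half_lt_self hz)
  · refine key.congr_fderiv ?_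
    have s1 := term_summable t h.dc (k + 1) φ hz
    have s2 := term_summable t h.dc k (φ + π / 2) hz
    have t1 : HasSum (fun n => f' n z) (Complex.imCLM.smulRight (W t (dc c) (k + 1) φ z) +
      Complex.reCLM.smulRight (W t (dc c) k (φ + π / 2) z)) := by
      rw [hf']
      exact ((ContinuousLinearMap.smulRightL ℝ ℂ ℂ Complex.imCLM).hasSum s1.hasSum).add
        ((ContinuousLinearMap.smulRightL ℝ ℂ ℂ Complex.reCLM).hasSum s2.hasSum)
    exact t1.tsum_eq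
  · have hw' : 0 < w.im := hδ.trans hw
    rcases Nat.eq_zero_or_pos n with rfl | hn
    · rw [hf']
      simp only [h.1, dc, zero_mul]
      refine (hasFDerivAt_const (0 : ℂ) w).congr_fderiv ?_
      ext v
      simp
    · have h1 := (Complex.ofRealCLM.hasFDerivAt (x := T t k φ n w)).comp w (T_hasFDerivAt t k φ hn hw')
      have h2 := h1.const_mul (c n)
      refine h2.congr_fderiv ?_
      rw [hf']
      ext v
      simp [dc]
      ring
  · have hw' : z.im / 2 ≤ w.im := le_of_lt hw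
    rw [hf']
    refine (norm_add_le _ _).trans (add_le_add ?_ ?_)
    · rw [ContinuousLinearMap.norm_smulRight_apply]
      calc _ ≤ 1 * u n := by
            gcongr
            · exact Complex.imCLM_norm.le
            · exact hb φ n w hw'
        _ = _ := one_mul _
    · rw [ContinuousLinearMap.norm_smulRight_apply]
      calc _ ≤ 1 * u' n := by
            gcongr
            · exact Complex.reCLM_norm.le
            · exact hb' _ n w hw'
        _ = _ := one_mul _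

theorem W_contDiffOn_nat (t : ℝ) (m : ℕ) : ∀ (c : ℕ → ℂ) (_ : Gr c) (k : ℕ) (φ : ℝ),
    ContDiffOn ℝ m (W t c k φ) {z : ℂ | 0 < z.im} := by
  have hopen : IsOpen {w : ℂ | 0 < w.im} := isOpen_lt continuous_const Complex.continuous_im
  induction m with
  | zero =>
    intro c h k φ
    rw [Nat.cast_zero, contDiffOn_zero]
    exact fun z hz => (W_hasFDerivAt t h k φ hz).continuousAt.continuousWithinAt
  | succ m ih =>
    intro c h k φ
    rw [Nat.cast_succ, contDiffOn_succ_iff_fderiv_of_isOpen hopen]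
    refine ⟨fun z hz => (W_hasFDerivAt t h k φ hz).differentiableAt.differentiableWithinAt,
      fun h => absurd h (by simp), ?_⟩
    have h1 : ContDiffOn ℝ m (fun z => (ContinuousLinearMap.smulRightL ℝ ℂ ℂ Complex.imCLM)
        (W t (dc c) (k + 1) φ z) + (ContinuousLinearMap.smulRightL ℝ ℂ ℂ Complex.reCLM)
        (W t (dc c) k (φ + π / 2) z)) {z : ℂ | 0 < z.im} :=
      ((ContinuousLinearMap.contDiff _).comp_contDiffOn (ih _ h.dc (k + 1) φ)).add
        ((ContinuousLinearMap.contDiff _).comp_contDiffOn (ih _ h.dc k (φ + π / 2)))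
    refine h1.congr fun z hz => ?_
    exact (W_hasFDerivAt t h k φ hz).fderiv

theorem W_contDiffOn (t : ℝ) {c : ℕ → ℂ} (h : Gr c) (k : ℕ) (φ : ℝ) :
    ContDiffOn ℝ ∞ (W t c k φ) {z : ℂ | 0 < z.im} :=
  contDiffOn_infty.2 fun m => W_contDiffOn_nat t m c h k φ

theorem U_eq (t : ℝ) (a : ℕ → ℂ) (z : ℂ) : U t a z = (√z.im : ℂ) * W t a 0 0 z := by
  unfold U W T
  rw [← tsum_mul_left]
  refine tsum_congr fun n => ?_
  rw [G_zero, add_zero]
  push_cast
  ring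

theorem gr_of {a : ℕ → ℂ} {C : ℝ} (h0 : a 0 = 0) (ha : ∀ n, ‖a n‖ ≤ C * n ^ 2) : Gr a := by
  refine ⟨h0, |C|, 2, abs_nonneg _, fun n => (ha n).trans ?_⟩
  gcongr
  exact le_abs_self C

theorem sqrt_contDiffOn : ContDiffOn ℝ ∞ (fun z : ℂ => (√z.im : ℂ)) {z : ℂ | 0 < z.im} := by
  have h1 : ContDiffOn ℝ ∞ (fun z : ℂ => √z.im) {z : ℂ | 0 < z.im} := by
    intro z hz
    have h2 : ContDiffAt ℝ ∞ (fun z : ℂ => z.im) z := Complex.imCLM.contDiff.contDiffAt
    exact (h2.sqrt (ne_of_gt hz)).contDiffWithinAt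
  exact Complex.ofRealCLM.contDiff.comp_contDiffOn h1

theorem U_contDiffOn' (t : ℝ) (a : ℕ → ℂ) (C : ℝ) (h0 : a 0 = 0) (ha : ∀ n, ‖a n‖ ≤ C * n ^ 2) :
    ContDiffOn ℝ ∞ (U t a) {z : ℂ | 0 < z.im} :=
  (sqrt_contDiffOn.mul (W_contDiffOn t (gr_of h0 ha) 0 0)).congr fun z _ => U_eq t a z

theorem U_contDiffOn (t : ℝ) (a : ℕ → ℂ) (C : ℝ) (h0 : a 0 = 0) (ha : ∀ n, ‖a n‖ ≤ C * n ^ 2) :
    ContDiffOn ℝ 2 (U t a) {z : ℂ | 0 < z.im} :=
  contDiffOn_infty.1 (U_contDiffOn' t a C h0 ha) 2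

/-- the derivative of `W` in a direction -/
theorem W_fderiv (t : ℝ) {c : ℕ → ℂ} (h : Gr c) (k : ℕ) (φ : ℝ) {z : ℂ} (hz : 0 < z.im) (v : ℂ) :
    fderiv ℝ (W t c k φ) z v = v.im * W t (dc c) (k + 1) φ z + v.re * W t (dc c) k (φ + π / 2) z := by
  rw [(W_hasFDerivAt t h k φ hz).fderiv]
  simp

/-- the derivative of `U` -/
theorem U_fderiv (t : ℝ) {a : ℕ → ℂ} (h : Gr a) {z : ℂ} (hz : 0 < z.im) (v : ℂ) :
    fderiv ℝ (U t a) z v = v.im * ((1 / (2 * √z.im) : ℝ) * W t a 0 0 z +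
      (√z.im : ℂ) * W t (dc a) 1 0 z) + v.re * ((√z.im : ℂ) * W t (dc a) 0 (π / 2) z) := by
  have h1 : HasFDerivAt (fun z : ℂ => (√z.im : ℂ))
      (Complex.ofRealCLM.comp ((1 / (2 * √z.im) : ℝ) • Complex.imCLM)) z :=
    (Complex.ofRealCLM.hasFDerivAt).comp z
      ((Real.hasDerivAt_sqrt hz.ne').comp_hasFDerivAt z Complex.imCLM.hasFDerivAt)
  have h2 := h1.mul (W_hasFDerivAt t h 0 0 hz)
  have h3 : U t a = (fun z : ℂ => (√z.im : ℂ)) * W t a 0 0 := funext fun w => U_eq t a w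
  rw [h3, h2.fderiv]
  simp
  ring

theorem rW (t : ℝ) {c : ℕ → ℂ} (h : Gr c) (k : ℕ) (φ : ℝ) {z : ℂ} (hz : 0 < z.im) {r : ℝ → ℝ} {r' : ℝ}
    (hr : HasDerivAt r r' z.im) :
    ∃ L : ℂ →L[ℝ] ℂ, HasFDerivAt (fun w : ℂ => (r w.im : ℂ) * W t c k φ w) L z ∧
      ∀ v : ℂ, L v = v.im * (r' : ℂ) * W t c k φ z + (r z.im : ℂ) * (v.im * W t (dc c) (k + 1) φ z +
        v.re * W t (dc c) k (φ + π / 2) z) := by
  have h1 : HasFDerivAt (fun z : ℂ => (r z.im : ℂ)) (Complex.ofRealCLM.comp (r' • Complex.imCLM)) z :=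
    (Complex.ofRealCLM.hasFDerivAt).comp z (hr.comp_hasFDerivAt z Complex.imCLM.hasFDerivAt)
  refine ⟨_, h1.mul (W_hasFDerivAt t h k φ hz), fun v => ?_⟩
  simp
  ring

theorem fderiv_swap {f : ℂ → ℂ} {z : ℂ} (hd : DifferentiableAt ℝ (fderiv ℝ f) z) (v w : ℂ) :
    fderiv ℝ (fderiv ℝ f) z v w = fderiv ℝ (fun u => fderiv ℝ f u w) z v := by
  have h1 := (hd.hasFDerivAt.clm_apply (hasFDerivAt_const w z)).fderiv
  rw [h1]
  simp

theorem second (t : ℝ) {a : ℕ → ℂ} (h : Gr a) {z : ℂ} (hz : 0 < z.im) :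
    (Δ (U t a)) z = -((1 / (4 * z.im * √z.im) : ℝ) : ℂ) * W t a 0 0 z +
      ((1 / √z.im : ℝ) : ℂ) * W t (dc a) 1 0 z + (√z.im : ℂ) * W t (dc (dc a)) 2 0 z +
      (√z.im : ℂ) * W t (dc (dc a)) 0 (π / 2 + π / 2) z := by
  have hopen : IsOpen {w : ℂ | 0 < w.im} := isOpen_lt continuous_const Complex.continuous_im
  have hsq : 0 < √z.im := Real.sqrt_pos.2 hz
  have hU : ContDiffOn ℝ ∞ (U t a) {z : ℂ | 0 < z.im} :=
    (sqrt_contDiffOn.mul (W_contDiffOn t h 0 0)).congr fun z _ => U_eq t a z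
  have hd : DifferentiableAt ℝ (fderiv ℝ (U t a)) z := by
    have h1 : ContDiffAt ℝ 2 (U t a) z := (contDiffOn_infty.1 hU 2).contDiffAt (hopen.mem_nhds hz)
    exact (h1.fderiv_right (m := 1) (by norm_num)).differentiableAt (by norm_num)
  rw [InnerProductSpace.laplacian_eq_iteratedFDeriv_complexPlane]
  simp only [iteratedFDeriv_two_apply, Matrix.cons_val_zero, Matrix.cons_val_one]
  rw [fderiv_swap hd, fderiv_swap hd]
  have hs : HasDerivAt (fun y : ℝ => √y) (1 / (2 * √z.im)) z.im := Real.hasDerivAt_sqrt hz.ne'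
  have hs2 : HasDerivAt (fun y : ℝ => 1 / (2 * √y)) (-(1 / (4 * z.im * √z.im))) z.im := by
    have h1 := (hs.const_mul 2).inv (by positivity)
    refine (h1.congr_of_eventuallyEq (Eventually.of_forall fun y => by simp)).congr_deriv ?_
    have h2 : z.im = √z.im * √z.im := (Real.mul_self_sqrt hz.le).symm
    rw [mul_pow, Real.sq_sqrt hz.le]
    field_simp
    norm_num
  have e1 : (fun u => fderiv ℝ (U t a) u 1) =ᶠ[𝓝 z]
      fun w => ((√w.im : ℝ) : ℂ) * W t (dc a) 0 (π / 2) w := by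
    filter_upwards [hopen.mem_nhds hz] with w hw
    rw [U_fderiv t h hw]
    simp
  have e2 : (fun u => fderiv ℝ (U t a) u Complex.I) =ᶠ[𝓝 z]
      fun w => ((1 / (2 * √w.im) : ℝ) : ℂ) * W t a 0 0 w + ((√w.im : ℝ) : ℂ) * W t (dc a) 1 0 w := by
    filter_upwards [hopen.mem_nhds hz] with w hw
    rw [U_fderiv t h hw]
    simp
  rw [e1.fderiv_eq, e2.fderiv_eq]
  obtain ⟨L1, hL1, hL1'⟩ := rW t h.dc 0 (π / 2) hz hs
  obtain ⟨L2, hL2, hL2'⟩ := rW t h 0 0 hz hs2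
  obtain ⟨L3, hL3, hL3'⟩ := rW t h.dc 1 0 hz hs
  rw [hL1.fderiv, (hL2.fun_add hL3).fderiv, add_apply, hL1', hL2', hL3']
  simp
  ring

theorem U_laplace (t : ℝ) (a : ℕ → ℂ) (C : ℝ) (h0 : a 0 = 0) (ha : ∀ n, ‖a n‖ ≤ C * n ^ 2) (z : ℂ)
    (hz : 0 < z.im) :
    (z.im : ℂ) ^ 2 * (Δ (U t a)) z = -(1 / 4 + (t : ℂ) ^ 2) * U t a z := by
  have h := gr_of h0 ha
  rw [second t h hz, U_eq]
  have hsq : 0 < √z.im := Real.sqrt_pos.2 hz
  have hsq2 : √z.im * √z.im = z.im := Real.mul_self_sqrt hz.le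
  have s0 := term_summable t h 0 0 hz
  have s1 := term_summable t h.dc 1 0 hz
  have s2 := term_summable t h.dc.dc 2 0 hz
  have s3 := term_summable t h.dc.dc 0 (π / 2 + π / 2) hz
  have key : (z.im : ℂ) * W t (dc a) 1 0 z + (z.im : ℂ) ^ 2 * W t (dc (dc a)) 2 0 z +
      (z.im : ℂ) ^ 2 * W t (dc (dc a)) 0 (π / 2 + π / 2) z = -(t : ℂ) ^ 2 * W t a 0 0 z := by
    unfold W
    rw [← tsum_mul_left, ← tsum_mul_left, ← tsum_mul_left, ← tsum_mul_left,
      ← (s1.mul_left _).tsum_add (s2.mul_left _), ← ((s1.mul_left _).add (s2.mul_left _)).tsum_add (s3.mul_left _)]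
    refine tsum_congr fun n => ?_
    rcases Nat.eq_zero_or_pos n with rfl | hn
    · simp [dc, h0]
    · have hn' : (1 : ℝ) ≤ n := by exact_mod_cast hn
      have hX : 0 < 2 * π * n * z.im := by positivity
      have hode := G_ode t hX
      have hcos : cos (2 * π * n * z.re + (π / 2 + π / 2)) = -cos (2 * π * n * z.re) := by
        rw [add_halves, Real.cos_add_pi]
      have hode' : ((2 * π * n * z.im : ℝ) : ℂ) ^ 2 * (G 2 t (2 * π * n * z.im) : ℂ) +
          ((2 * π * n * z.im : ℝ) : ℂ) * (G 1 t (2 * π * n * z.im) : ℂ) -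
          ((2 * π * n * z.im : ℝ) : ℂ) ^ 2 * (G 0 t (2 * π * n * z.im) : ℂ) =
          -((t : ℂ) ^ 2 * (G 0 t (2 * π * n * z.im) : ℂ)) := by
        exact_mod_cast hode
      unfold T dc
      rw [hcos, add_zero]
      push_cast at hode' ⊢
      linear_combination (a n * Complex.cos (2 * π * n * z.re)) * hode'
  have hc : (z.im : ℂ) = (√z.im : ℂ) * (√z.im : ℂ) := by
    exact_mod_cast hsq2.symm
  have hne : (√z.im : ℂ) ≠ 0 := by exact_mod_cast hsq.ne'
  have e1 : (z.im : ℂ) ^ 2 * ((1 / (4 * z.im * √z.im) : ℝ) : ℂ) = (√z.im : ℂ) / 4 := by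
    push_cast
    rw [hc]
    field_simp
  have e2 : (z.im : ℂ) ^ 2 * ((1 / √z.im : ℝ) : ℂ) = (√z.im : ℂ) * (z.im : ℂ) := by
    push_cast
    rw [hc]
    field_simp
  linear_combination (√z.im : ℂ) * key - W t a 0 0 z * e1 + W t (dc a) 1 0 z * e2

end Pool.Agent.Y807.DMA
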