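import Pool.Agent.Y807.DMA

/-!
# The Mellin transform of the K-Bessel function `K_it` (job DM-B)
-/

set_option autoImplicit false

open Real MeasureTheory UpperHalfPlane Filter Topology Set

namespace Pool.Agent.Y807.DMB

open Pool.Agent.Y672.DM Pool.Agent.Y807.DMA

theorem KB_bound (t : ℝ) {x : ℝ} (hx : 0 < x) : |KB t x| ≤ √(2 * π / x) * exp (-x) := by
  have h1 : |KB t x| ≤ ∫ v : ℝ, exp (-x) * exp (-(x / 2) * v ^ 2) := by
    rw [KB, ← Real.norm_eq_abs]
    refine norm_integral_le_of_norm_le ((integrable_exp_neg_mul_sq (by positivity)).const_mul _)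
      (Eventually.of_forall fun v => ?_)
    have h2 := one_add_sq_le_cosh v
    have h3 : ‖cos (t * v)‖ ≤ 1 := abs_cos_le_one _
    rw [norm_mul, Real.norm_of_nonneg (Real.exp_pos _).le, ← Real.exp_add]
    calc exp (-(x * cosh v)) * ‖cos (t * v)‖ ≤ exp (-(x * cosh v)) * 1 := by gcongr
      _ = exp (-(x * cosh v)) := mul_one _
      _ ≤ _ := by
        apply Real.exp_le_exp.2
        nlinarith
  rw [integral_const_mul, integral_gaussian] at h1
  have h2 : π / (x / 2) = 2 * π / x := by field_simp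
  rw [h2] at h1
  linarith

theorem cosh_ge_exp_abs (v : ℝ) : exp |v| / 2 ≤ cosh v := by
  rw [← Real.cosh_abs, Real.cosh_eq]
  have := Real.exp_pos (-|v|)
  linarith

theorem integrable_exp_neg_abs {σ : ℝ} (hσ : 0 < σ) : Integrable fun v : ℝ => exp (-σ * |v|) := by
  have h1 : IntegrableOn (fun v : ℝ => exp (-σ * |v|)) (Ioi 0) := by
    refine (exp_neg_integrableOn_Ioi 0 hσ).congr_fun (fun v hv => ?_) measurableSet_Ioi
    simp only
    rw [abs_of_pos hv]
  have h2 : IntegrableOn (fun v : ℝ => exp (-σ * |v|)) (Iic 0) := by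
    refine (integrableOn_exp_mul_Iic hσ 0).congr_fun (fun v hv => ?_) measurableSet_Iic
    simp only
    rw [abs_of_nonpos hv]
    congr 1
    ring
  rw [← integrableOn_univ, ← Iic_union_Ioi (a := (0 : ℝ))]
  exact h2.union h1

theorem sech_integrable {σ : ℝ} (hσ : 0 < σ) : Integrable fun v : ℝ => (1 / cosh v) ^ σ := by
  refine Integrable.mono' ((integrable_exp_neg_abs hσ).const_mul (2 ^ σ)) ?_
    (Eventually.of_forall fun v => ?_)
  · refine Continuous.aestronglyMeasurable ?_
    refine Continuous.rpow_const (by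
      refine continuous_const.div Real.continuous_cosh fun v => (cosh_pos v).ne') fun v => Or.inl ?_
    have := cosh_pos v
    positivity
  · have h1 := cosh_pos v
    have h2 := cosh_ge_exp_abs v
    rw [Real.norm_of_nonneg (by positivity)]
    have h3 : 1 / cosh v ≤ 2 * exp (-|v|) := by
      rw [div_le_iff₀ h1]
      have h4 : exp (-|v|) * exp |v| = 1 := by rw [← Real.exp_add]; simp
      have h5 := Real.exp_pos (-|v|)
      nlinarith
    calc (1 / cosh v) ^ σ ≤ (2 * exp (-|v|)) ^ σ := by gcongr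
      _ = 2 ^ σ * exp (-σ * |v|) := by
        rw [Real.mul_rpow (by norm_num) (Real.exp_pos _).le, ← Real.exp_mul]
        congr 2
        ring

/-- the substitution function -/
noncomputable def sg (v : ℝ) : ℝ := exp v / (2 * cosh v)

theorem one_sub_sg (v : ℝ) : 1 - sg v = exp (-v) / (2 * cosh v) := by
  have h1 := cosh_pos v
  unfold sg
  rw [eq_div_iff (by positivity), sub_mul, div_mul_cancel₀ _ (by positivity), Real.cosh_eq]
  ring

theorem sg_pos (v : ℝ) : 0 < sg v := by
  have h1 := cosh_pos v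
  unfold sg
  positivity

theorem one_sub_sg_pos (v : ℝ) : 0 < 1 - sg v := by
  have h1 := cosh_pos v
  rw [one_sub_sg]
  positivity

theorem sg_hasDerivAt (v : ℝ) : HasDerivAt sg (2 * (sg v * (1 - sg v))) v := by
  have h1 := cosh_pos v
  have h2 : HasDerivAt (fun v => exp v / (2 * cosh v))
      ((exp v * (2 * cosh v) - exp v * (2 * sinh v)) / (2 * cosh v) ^ 2) v :=
    (Real.hasDerivAt_exp v).div ((Real.hasDerivAt_cosh v).const_mul 2) (by positivity)
  refine h2.congr_deriv ?_
  rw [one_sub_sg]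
  unfold sg
  have h3 : exp (-v) = cosh v - sinh v := (Real.cosh_sub_sinh v).symm
  rw [h3]
  field_simp

theorem sg_injective : Function.Injective sg := by
  have h : StrictMono sg := by
    refine strictMono_of_hasDerivAt_pos (fun v => sg_hasDerivAt v) fun v => ?_
    have h1 := sg_pos v
    have h2 := one_sub_sg_pos v
    positivity
  exact h.injective

theorem sg_image : sg '' univ = Ioo 0 1 := by
  ext x
  constructor
  · rintro ⟨v, -, rfl⟩
    exact ⟨sg_pos v, by linarith [one_sub_sg_pos v]⟩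
  · rintro ⟨h0, h1⟩
    refine ⟨Real.log (x / (1 - x)) / 2, mem_univ _, ?_⟩
    have h2 : 0 < 1 - x := by linarith
    set w := Real.log (x / (1 - x)) / 2 with hw
    have h3 : exp w * exp w = x / (1 - x) := by
      rw [← Real.exp_add, hw, add_halves, Real.exp_log (by positivity)]
    have h4 : exp w * exp (-w) = 1 := by rw [← Real.exp_add]; simp
    unfold sg
    rw [Real.cosh_eq]
    have h5 := Real.exp_pos w
    have h6 := Real.exp_pos (-w)
    rw [eq_div_iff h2.ne'] at h3
    rw [div_eq_iff (by positivity)]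
    have h7 : exp w * (exp w - x * (exp w + exp (-w))) = 0 := by
      linear_combination h3 - x * h4
    have h8 := (mul_eq_zero.1 h7).resolve_left h5.ne'
    linarith

/-- complex powers of positive reals -/
theorem cpow_exp (v : ℝ) (a b : ℂ) :
    (sg v : ℂ) ^ a * (1 - (sg v : ℂ)) ^ b =
      Complex.exp ((a - b) * v - (a + b) * (Real.log (2 * cosh v) : ℝ)) := by
  have h1 := cosh_pos v
  have h2 : (1 - (sg v : ℂ)) = ((1 - sg v : ℝ) : ℂ) := by push_cast; rfl
  rw [h2, Complex.cpow_def_of_ne_zero (by exact_mod_cast (sg_pos v).ne'),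
    Complex.cpow_def_of_ne_zero (by exact_mod_cast (one_sub_sg_pos v).ne'),
    ← Complex.ofReal_log (sg_pos v).le, ← Complex.ofReal_log (one_sub_sg_pos v).le, ← Complex.exp_add]
  congr 1
  rw [one_sub_sg]
  unfold sg
  rw [Real.log_div (Real.exp_pos _).ne' (by positivity), Real.log_div (Real.exp_pos _).ne' (by positivity),
    Real.log_exp, Real.log_exp]
  push_cast
  ring

theorem sech_cpow (v : ℝ) (s : ℂ) :
    (1 / (cosh v : ℂ)) ^ s = 2 ^ s * Complex.exp (-(s * (Real.log (2 * cosh v) : ℝ))) := by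
  have h1 := cosh_pos v
  have h2 : (1 / (cosh v : ℂ)) = ((1 / cosh v : ℝ) : ℂ) := by push_cast; rfl
  have h3 : (2 : ℂ) = ((2 : ℝ) : ℂ) := by norm_num
  rw [h2, Complex.cpow_def_of_ne_zero (by exact_mod_cast (by positivity : (1 / cosh v : ℝ) ≠ 0)),
    Complex.cpow_def_of_ne_zero (by norm_num : (2 : ℂ) ≠ 0), ← Complex.exp_add]
  congr 1
  rw [h3, ← Complex.ofReal_log (by positivity), ← Complex.ofReal_log (by norm_num),
    Real.log_div one_ne_zero h1.ne', Real.log_mul two_ne_zero h1.ne', Real.log_one]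
  push_cast
  ring

theorem beta_eq (t : ℝ) (s : ℂ) :
    Complex.betaIntegral ((s + t * Complex.I) / 2) ((s - t * Complex.I) / 2) =
      ∫ v : ℝ, 2 * 2 ^ (-s) * ((1 / (cosh v : ℂ)) ^ s * Complex.exp (t * v * Complex.I)) := by
  unfold Complex.betaIntegral
  rw [intervalIntegral.integral_of_le zero_le_one, integral_Ioc_eq_integral_Ioo, ← sg_image,
    integral_image_eq_integral_abs_deriv_smul MeasurableSet.univ
      (fun v _ => (sg_hasDerivAt v).hasDerivWithinAt) sg_injective.injOn, Measure.restrict_univ]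
  congr 1
  ext v
  have h1 := sg_pos v
  have h2 := one_sub_sg_pos v
  have h1' : (sg v : ℂ) ≠ 0 := by exact_mod_cast h1.ne'
  have h2' : (1 - (sg v : ℂ)) ≠ 0 := by exact_mod_cast h2.ne'
  rw [abs_of_pos (by positivity), Complex.real_smul, Complex.cpow_sub _ _ h1', Complex.cpow_sub _ _ h2',
    Complex.cpow_one, Complex.cpow_one, sech_cpow]
  have h3 := cpow_exp v ((s + t * Complex.I) / 2) ((s - t * Complex.I) / 2)
  have e1 : ((s + t * Complex.I) / 2 - (s - t * Complex.I) / 2) * (v : ℂ) -
      ((s + t * Complex.I) / 2 + (s - t * Complex.I) / 2) * (Real.log (2 * cosh v) : ℝ) =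
      t * v * Complex.I + -(s * (Real.log (2 * cosh v) : ℝ)) := by ring
  rw [e1, Complex.exp_add] at h3
  have h4 : (2 : ℂ) ^ (-s) * 2 ^ s = 1 := by
    rw [← Complex.cpow_add _ _ (by norm_num), neg_add_cancel, Complex.cpow_zero]
  have h5 : ((2 * (sg v * (1 - sg v)) : ℝ) : ℂ) * ((sg v : ℂ) ^ ((s + t * Complex.I) / 2) / (sg v : ℂ) *
      ((1 - (sg v : ℂ)) ^ ((s - t * Complex.I) / 2) / (1 - (sg v : ℂ)))) =
      2 * ((sg v : ℂ) ^ ((s + t * Complex.I) / 2) * (1 - (sg v : ℂ)) ^ ((s - t * Complex.I) / 2)) := by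
    push_cast
    field_simp
  rw [h5, h3]
  linear_combination (-2 * Complex.exp (t * v * Complex.I) *
    Complex.exp (-(s * (Real.log (2 * cosh v) : ℝ)))) * h4

theorem norm_sech (s : ℂ) (v : ℝ) : ‖(1 / (cosh v : ℂ)) ^ s‖ = (1 / cosh v) ^ s.re := by
  have h1 := cosh_pos v
  have h2 : (1 / (cosh v : ℂ)) = ((1 / cosh v : ℝ) : ℂ) := by push_cast; rfl
  rw [h2, Complex.norm_cpow_eq_rpow_re_of_pos (by positivity)]

theorem sech_continuous (s : ℂ) : Continuous fun v : ℝ => (1 / (cosh v : ℂ)) ^ s := by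
  have h : (fun v : ℝ => (1 / (cosh v : ℂ)) ^ s) =
      fun v : ℝ => 2 ^ s * Complex.exp (-(s * (Real.log (2 * cosh v) : ℝ))) := funext fun v => sech_cpow v s
  rw [h]
  have h2 : Continuous fun v : ℝ => Real.log (2 * cosh v) := by
    refine Continuous.log (continuous_const.mul Real.continuous_cosh) fun v => ?_
    have := cosh_pos v
    positivity
  fun_prop

theorem sech_c_integrable {s : ℂ} (hs : 0 < s.re) (f : ℝ → ℂ) (hf : Continuous f) (hb : ∀ v, ‖f v‖ ≤ 1) :
    Integrable fun v : ℝ => (1 / (cosh v : ℂ)) ^ s * f v := by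
  refine Integrable.mono' (sech_integrable hs) ((sech_continuous s).mul hf).aestronglyMeasurable
    (Eventually.of_forall fun v => ?_)
  rw [norm_mul, norm_sech]
  have h1 := cosh_pos v
  calc (1 / cosh v) ^ s.re * ‖f v‖ ≤ (1 / cosh v) ^ s.re * 1 := by
        gcongr
        exact hb v
    _ = _ := mul_one _

theorem cos_integral (t : ℝ) {s : ℂ} (hs : 0 < s.re) :
    ∫ v : ℝ, (1 / (cosh v : ℂ)) ^ s * (cos (t * v) : ℂ) =
      2 ^ (s - 1) * Complex.betaIntegral ((s + t * Complex.I) / 2) ((s - t * Complex.I) / 2) := by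
  have hc : Continuous fun v : ℝ => ((cos (t * v) : ℝ) : ℂ) := by fun_prop
  have hsn : Continuous fun v : ℝ => ((sin (t * v) : ℝ) : ℂ) := by fun_prop
  have i1 := sech_c_integrable hs _ hc fun v => by
    rw [Complex.norm_real]
    exact abs_cos_le_one _
  have i2 := sech_c_integrable hs _ hsn fun v => by
    rw [Complex.norm_real]
    exact abs_sin_le_one _
  have h0 : ∫ v : ℝ, (1 / (cosh v : ℂ)) ^ s * ((sin (t * v) : ℝ) : ℂ) = 0 := by
    have h1 : ∫ v : ℝ, (1 / (cosh (-v) : ℂ)) ^ s * ((sin (t * (-v)) : ℝ) : ℂ) =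
        ∫ v : ℝ, (1 / (cosh v : ℂ)) ^ s * ((sin (t * v) : ℝ) : ℂ) :=
      integral_neg_eq_self (fun v : ℝ => (1 / (cosh v : ℂ)) ^ s * ((sin (t * v) : ℝ) : ℂ)) volume
    have h2 : ∀ v : ℝ, (1 / (cosh (-v) : ℂ)) ^ s * ((sin (t * (-v)) : ℝ) : ℂ) =
        -((1 / (cosh v : ℂ)) ^ s * ((sin (t * v) : ℝ) : ℂ)) := by
      intro v
      rw [Real.cosh_neg, mul_neg, Real.sin_neg]
      push_cast
      ring
    simp_rw [h2] at h1
    rw [integral_neg] at h1
    exact self_eq_neg.1 h1.symm
  rw [beta_eq, integral_const_mul]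
  have h1 : ∫ v : ℝ, (1 / (cosh v : ℂ)) ^ s * Complex.exp (t * v * Complex.I) =
      ∫ v : ℝ, (1 / (cosh v : ℂ)) ^ s * (cos (t * v) : ℂ) := by
    have h2 : ∀ v : ℝ, (1 / (cosh v : ℂ)) ^ s * Complex.exp (t * v * Complex.I) =
        (1 / (cosh v : ℂ)) ^ s * ((cos (t * v) : ℝ) : ℂ) +
          ((1 / (cosh v : ℂ)) ^ s * ((sin (t * v) : ℝ) : ℂ)) * Complex.I := by
      intro v
      rw [Complex.exp_mul_I]
      push_cast
      ring
    simp_rw [h2]
    rw [integral_add i1 (i2.mul_const _), integral_mul_const, h0, zero_mul, add_zero]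
  rw [h1]
  have h4 : (2 : ℂ) ^ (s - 1) * (2 * 2 ^ (-s)) = 1 := by
    have : (2 : ℂ) * 2 ^ (-s) = 2 ^ (1 - s) := by
      rw [sub_eq_add_neg, Complex.cpow_add _ _ (by norm_num), Complex.cpow_one]
    rw [this, ← Complex.cpow_add _ _ (by norm_num)]
    norm_num
  rw [← mul_assoc, h4, one_mul]

theorem KB_mellin (t : ℝ) {s : ℂ} (hs : 0 < s.re) :
    IntegrableOn (fun x : ℝ => (x : ℂ) ^ (s - 1) * (KB t x : ℂ)) (Set.Ioi 0) ∧
    ∫ x in Set.Ioi (0 : ℝ), (x : ℂ) ^ (s - 1) * (KB t x : ℂ) =
      2 ^ (s - 1) * Complex.Gamma ((s + t * Complex.I) / 2) * Complex.Gamma ((s - t * Complex.I) / 2) := by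
  obtain ⟨f, hf⟩ : ∃ f : ℝ → ℝ → ℂ, f = fun (x v : ℝ) =>
    (x : ℂ) ^ (s - 1) * ((exp (-(x * cosh v)) * cos (t * v) : ℝ) : ℂ) := ⟨_, rfl⟩
  have hmeas : Measurable (Function.uncurry f) := by
    rw [hf]
    unfold Function.uncurry
    refine Measurable.mul ?_ ?_
    · exact (Complex.measurable_ofReal.comp measurable_fst).pow_const _
    · refine Complex.measurable_ofReal.comp ?_
      refine Measurable.mul ?_ ?_
      · exact Real.measurable_exp.comp ((measurable_fst.mul
          (Real.continuous_cosh.measurable.comp measurable_snd)).neg)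
      · exact Real.measurable_cos.comp (measurable_snd.const_mul t)
  have hnorm : ∀ v : ℝ, ∀ x ∈ Ioi (0 : ℝ), ‖f x v‖ =
      |cos (t * v)| * (x ^ (s.re - 1) * exp (-(cosh v * x))) := by
    intro v x hx
    rw [hf]
    simp only
    rw [norm_mul, Complex.norm_cpow_eq_rpow_re_of_pos hx, Complex.norm_real, norm_mul,
      Real.norm_of_nonneg (Real.exp_pos _).le, Real.norm_eq_abs, Complex.sub_re, Complex.one_re,
      mul_comm (cosh v)]
    ring
  have hg : ∀ v : ℝ, IntegrableOn (fun x : ℝ => x ^ (s.re - 1) * exp (-(cosh v * x))) (Ioi 0) := by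
    intro v
    refine .of_integral_ne_zero ?_
    rw [Real.integral_rpow_mul_exp_neg_mul_Ioi hs (cosh_pos v)]
    have := cosh_pos v
    have := Real.Gamma_pos_of_pos hs
    positivity
  have hint : Integrable (Function.uncurry f) ((volume.restrict (Ioi 0)).prod volume) := by
    rw [integrable_prod_iff' hmeas.aestronglyMeasurable]
    constructor
    · refine Eventually.of_forall fun v => ?_
      have h1 : Measurable fun x => Function.uncurry f (x, v) := hmeas.comp measurable_prodMk_right
      refine Integrable.mono' ((hg v).const_mul (|cos (t * v)|)) h1.aestronglyMeasurable ?_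
      refine (ae_restrict_iff' measurableSet_Ioi).2 (Eventually.of_forall fun x hx => ?_)
      exact (hnorm v x hx).le
    · have h1 : (fun v => ∫ x in Ioi (0 : ℝ), ‖Function.uncurry f (x, v)‖) =
          fun v => |cos (t * v)| * ((1 / cosh v) ^ s.re * Real.Gamma s.re) := by
        ext v
        rw [← Real.integral_rpow_mul_exp_neg_mul_Ioi hs (cosh_pos v), ← integral_const_mul]
        refine setIntegral_congr_fun measurableSet_Ioi fun x hx => ?_
        exact hnorm v x hx
      rw [h1]
      refine Integrable.mono' ((sech_integrable hs).mul_const (Real.Gamma s.re)) ?_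
        (Eventually.of_forall fun v => ?_)
      · refine Continuous.aestronglyMeasurable ?_
        have h2 : Continuous fun v : ℝ => (1 / cosh v) ^ s.re := by
          refine Continuous.rpow_const (by
            refine continuous_const.div Real.continuous_cosh fun v => (cosh_pos v).ne') fun v => Or.inl ?_
          have := cosh_pos v
          positivity
        fun_prop
      · have h2 := cosh_pos v
        have h3 := Real.Gamma_pos_of_pos hs
        rw [Real.norm_of_nonneg (by positivity)]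
        have h4 : |cos (t * v)| ≤ 1 := abs_cos_le_one _
        have h5 : 0 ≤ (1 / cosh v) ^ s.re * Real.Gamma s.re := by positivity
        calc _ ≤ 1 * ((1 / cosh v) ^ s.re * Real.Gamma s.re) := by gcongr
          _ = _ := one_mul _
  have hin : ∀ x ∈ Ioi (0 : ℝ), ∫ v, f x v = (x : ℂ) ^ (s - 1) * (KB t x : ℂ) := by
    intro x hx
    rw [hf]
    simp only
    rw [integral_const_mul, integral_complex_ofReal]
    rfl
  constructor
  · have h1 := hint.integral_prod_left
    refine (integrable_congr ?_).1 h1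
    refine (ae_restrict_iff' measurableSet_Ioi).2 (Eventually.of_forall fun x hx => ?_)
    exact hin x hx
  · rw [← setIntegral_congr_fun measurableSet_Ioi hin, integral_integral_swap hint]
    have h1 : ∀ v : ℝ, ∫ x in Ioi (0 : ℝ), f x v =
        ((1 / (cosh v : ℂ)) ^ s * (cos (t * v) : ℂ)) * Complex.Gamma s := by
      intro v
      have h2 := Complex.integral_cpow_mul_exp_neg_mul_Ioi hs (cosh_pos v)
      rw [mul_right_comm, ← h2, ← integral_mul_const]
      refine setIntegral_congr_fun measurableSet_Ioi fun x hx => ?_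
      rw [hf]
      push_cast
      ring_nf
    simp_rw [h1]
    rw [integral_mul_const, cos_integral t hs]
    have h2 := Complex.Gamma_mul_Gamma_eq_betaIntegral (s := (s + t * Complex.I) / 2)
      (t := (s - t * Complex.I) / 2) (by simpa using hs) (by simpa using hs)
    have h3 : (s + t * Complex.I) / 2 + (s - t * Complex.I) / 2 = s := by ring
    rw [h3] at h2
    rw [mul_assoc (2 ^ (s - 1)) (Complex.Gamma _) (Complex.Gamma _), h2]
    ring

end Pool.Agent.Y807.DMB
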