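import Pool.Agent.Y672.DM.Arith

/-!
# The coefficients `bb` of the dihedral Maass form of `ℚ(√5)`: elementary facts (job DM-E1)
-/

set_option autoImplicit false

open Complex Pool.Agent.Y672 Pool.Agent.Y672.DM

namespace Pool.Agent.Y807.DME1

theorem gr_pos : 0 < Real.goldenRatio := Real.goldenRatio_pos

theorem log_gr_pos : 0 < Real.log Real.goldenRatio := Real.log_pos Real.one_lt_goldenRatio

theorem PP_pos : 0 < PP := by
  unfold PP
  have := log_gr_pos
  positivity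

theorem gr_lt : Real.goldenRatio < 1.62 := by
  unfold Real.goldenRatio
  have h : √5 < 2.24 := by
    rw [Real.sqrt_lt' (by norm_num)]
    norm_num
  linarith

theorem exp_PP : Real.exp PP = 2 + 3 * Real.goldenRatio := by
  unfold PP
  have h := Real.goldenRatio_sq
  rw [mul_comm, Real.exp_mul, Real.exp_log gr_pos]
  have : Real.goldenRatio ^ (4 : ℝ) = (Real.goldenRatio ^ 2) ^ 2 := by
    rw [← Real.rpow_natCast, ← Real.rpow_natCast, ← Real.rpow_mul gr_pos.le]
    norm_num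
  rw [this, h]
  linear_combination h

theorem sum_sq (p : ℤ × ℤ) : em p ^ 2 + em' p ^ 2 = 2 * p.1 ^ 2 + 2 * p.1 * p.2 + 3 * p.2 ^ 2 := by
  have e1 := Real.goldenRatio_sq
  have e2 := Real.goldenConj_sq
  have e3 := Real.goldenRatio_add_goldenConj
  unfold DM.em DM.em'
  linear_combination ((p.2 : ℝ) ^ 2) * e1 + (p.2 : ℝ) ^ 2 * e2 + (2 * (p.1 : ℝ) * p.2 + (p.2 : ℝ) ^ 2) * e3

theorem size_le (p : ℤ × ℤ) : (p.1 : ℝ) ^ 2 + (p.2 : ℝ) ^ 2 ≤ em p ^ 2 + em' p ^ 2 := by
  rw [sum_sq]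
  nlinarith [sq_nonneg ((p.1 : ℝ) + p.2), sq_nonneg (p.2 : ℝ)]

theorem abs_nm (p : ℤ × ℤ) : |em p| * |em' p| = (nm p).natAbs := by
  rw [← abs_mul, em_mul, ← Int.cast_abs, Int.abs_eq_natAbs, Int.cast_natCast]

/-- the inequalities which define the fundamental domain -/
theorem RR_ineq {n : ℕ} (hn : 0 < n) {p : ℤ × ℤ} (hp : p ∈ RR n) :
    |em' p| ≤ |em p| ∧ em' p ^ 2 ≤ n ∧ em p ^ 2 < (2 + 3 * Real.goldenRatio) * n := by
  obtain ⟨h1, h2, h3⟩ := hp
  have h4 := abs_nm p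
  rw [h1] at h4
  have hn' : (0 : ℝ) < n := by exact_mod_cast hn
  have h5 : 0 < |em p| := by
    rcases (abs_nonneg (em p)).eq_or_lt with h | h
    · rw [← h, zero_mul] at h4
      linarith
    · exact h
  have h6 : 0 < |em' p| := by
    rcases (abs_nonneg (em' p)).eq_or_lt with h | h
    · rw [← h, mul_zero] at h4
      linarith
    · exact h
  unfold lam at h2 h3
  rw [abs_div] at h2 h3
  have h7 : 0 < |em p| / |em' p| := by positivity
  have h8 : 1 ≤ |em p| / |em' p| := by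
    by_contra hcon
    push Not at hcon
    have := Real.log_neg h7 hcon
    linarith
  have h9 : |em p| / |em' p| < 2 + 3 * Real.goldenRatio := by
    rw [← exp_PP]
    exact (Real.log_lt_iff_lt_exp h7).1 h3
  have h10 : |em' p| ≤ |em p| := by
    rwa [le_div_iff₀ h6, one_mul] at h8
  refine ⟨h10, ?_, ?_⟩
  · rw [← sq_abs, ← h4]
    nlinarith
  · rw [div_lt_iff₀ h6] at h9
    rw [← sq_abs, ← h4]
    nlinarith

theorem RR_size {n : ℕ} (hn : 0 < n) {p : ℤ × ℤ} (hp : p ∈ RR n) :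
    (p.1 : ℝ) ^ 2 + (p.2 : ℝ) ^ 2 ≤ 50 * n := by
  obtain ⟨-, h1, h2⟩ := RR_ineq hn hp
  have h3 := size_le p
  have h4 := gr_lt
  have hn' : (0 : ℝ) < n := by exact_mod_cast hn
  nlinarith

theorem sq_le_abs {m : ℤ} {c : ℕ} (h : (m : ℝ) ^ 2 ≤ c) : |m| ≤ c := by
  have h1 : m ^ 2 ≤ c := by exact_mod_cast h
  rcases eq_or_ne m 0 with rfl | hm
  · simp
  · have h2 : 1 ≤ |m| := Int.one_le_abs hm
    have h3 : |m| ^ 2 = m ^ 2 := sq_abs m
    nlinarith

theorem RR_sub {n : ℕ} (hn : 0 < n) :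
    RR n ⊆ ((Finset.Icc (-(50 * n : ℤ)) (50 * n)) ×ˢ (Finset.Icc (-(50 * n : ℤ)) (50 * n)) : Finset (ℤ × ℤ)) := by
  intro p hp
  have h1 := RR_size hn hp
  have h2 : |p.1| ≤ ((50 * n : ℕ) : ℤ) := sq_le_abs (by push_cast; nlinarith [sq_nonneg (p.2 : ℝ)])
  have h3 : |p.2| ≤ ((50 * n : ℕ) : ℤ) := sq_le_abs (by push_cast; nlinarith [sq_nonneg (p.1 : ℝ)])
  rw [abs_le] at h2 h3
  push_cast at h2 h3
  simp only [Finset.coe_product, Finset.coe_Icc, Set.mem_prod, Set.mem_Icc]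
  exact ⟨⟨h2.1, h2.2⟩, ⟨h3.1, h3.2⟩⟩

theorem RR_finite (n : ℕ) (hn : 0 < n) : (RR n).Finite :=
  (Finset.finite_toSet _).subset (RR_sub hn)

theorem norm_gg_le (p : ℤ × ℤ) : ‖gg p‖ ≤ 1 := by
  unfold gg
  have h1 : ‖cexp (-I * t0 * lam p)‖ = 1 := by
    have : (-I * t0 * lam p : ℂ) = ((-(t0 * lam p) : ℝ) : ℂ) * I := by
      push_cast
      ring
    rw [this, norm_exp_ofReal_mul_I]
  rw [norm_mul, h1, mul_one]
  have h2 : ∀ b : ZMod 5, c5 b = 0 ∨ c5 b = 1 ∨ c5 b = -1 := by decide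
  rcases h2 (cls p) with h | h | h <;> rw [h] <;> simp

theorem norm_bb_le {n : ℕ} (hn : 0 < n) : ‖bb n‖ ≤ (RR n).ncard := by
  have hf := RR_finite n hn
  have := hf.fintype
  unfold bb
  rw [if_neg hn.ne', tsum_fintype]
  calc _ ≤ ∑ p : RR n, ‖gg p‖ := norm_sum_le _ _
    _ ≤ ∑ _p : RR n, (1 : ℝ) := Finset.sum_le_sum fun p _ => norm_gg_le p
    _ = _ := by
      rw [Finset.sum_const, nsmul_eq_mul, mul_one, Finset.card_univ, ← Nat.card_eq_fintype_card]
      rfl

theorem bb_zero : bb 0 = 0 := by simp [bb]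

theorem bb_bound : ∃ C : ℝ, ∀ n : ℕ, ‖bb n‖ ≤ C * n ^ 2 := by
  refine ⟨101 ^ 2, fun n => ?_⟩
  rcases Nat.eq_zero_or_pos n with rfl | hn
  · simp [bb_zero]
  · refine (norm_bb_le hn).trans ?_
    have h1 : (RR n).ncard ≤ ((Finset.Icc (-(50 * n : ℤ)) (50 * n)) ×ˢ
        (Finset.Icc (-(50 * n : ℤ)) (50 * n)) : Finset (ℤ × ℤ)).card := by
      rw [← Set.ncard_coe_finset]
      exact Set.ncard_le_ncard (RR_sub hn) (Finset.finite_toSet _)
    have h2 : ((Finset.Icc (-(50 * n : ℤ)) (50 * n)) ×ˢ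
        (Finset.Icc (-(50 * n : ℤ)) (50 * n)) : Finset (ℤ × ℤ)).card = (100 * n + 1) ^ 2 := by
      rw [Finset.card_product, Int.card_Icc]
      have : (50 * (n : ℤ) + 1 - -(50 * n)).toNat = 100 * n + 1 := by omega
      rw [this]
      ring
    rw [h2] at h1
    have h3 : 100 * n + 1 ≤ 101 * n := by omega
    calc ((RR n).ncard : ℝ) ≤ ((100 * n + 1) ^ 2 : ℕ) := by exact_mod_cast h1
      _ ≤ ((101 * n) ^ 2 : ℕ) := by exact_mod_cast Nat.pow_le_pow_left h3 2
      _ = _ := by push_cast; ring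

theorem bb_mod (n : ℕ) (h : bb n ≠ 0) : n % 5 = 1 ∨ n % 5 = 4 := by
  have hn : n ≠ 0 := by
    rintro rfl
    exact h bb_zero
  obtain ⟨p, hp⟩ : ∃ p : RR n, gg p ≠ 0 := by
    by_contra hcon
    push Not at hcon
    apply h
    unfold bb
    rw [if_neg hn, tsum_congr hcon, tsum_zero]
  have h1 : c5 (cls p) ≠ 0 := by
    intro h0
    apply hp
    unfold gg
    rw [h0]
    simp
  have h2 : ((nm p : ℤ) : ZMod 5) = cls p ^ 2 := by
    unfold cls nm
    push_cast
    have h5 : (5 : ZMod 5) = 0 := by decide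
    linear_combination (-((p.1.1 : ZMod 5) * p.1.2 + 2 * (p.1.2 : ZMod 5) ^ 2)) * h5
  have h3 : ∀ b : ZMod 5, c5 b ≠ 0 → b ^ 2 = 1 ∨ b ^ 2 = 4 := by decide
  have h4 := h3 _ h1
  have h5 : (nm p).natAbs = n := p.2.1
  rw [← h2] at h4
  have h6 : (nm p) % 5 = 1 ∨ (nm p) % 5 = 4 := by
    rcases h4 with h | h
    · left
      have : ((nm p : ℤ) : ZMod 5) = ((1 : ℤ) : ZMod 5) := by rw [h]; norm_num
      have := (ZMod.intCast_eq_intCast_iff' _ _ 5).1 this
      simpa using this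
    · right
      have : ((nm p : ℤ) : ZMod 5) = ((4 : ℤ) : ZMod 5) := by rw [h]; norm_num
      have := (ZMod.intCast_eq_intCast_iff' _ _ 5).1 this
      simpa using this
  omega

theorem bb_summable (σ : ℝ) (hσ : 1 < σ) : Summable fun n : ℕ => ‖bb n‖ * (n : ℝ) ^ (-σ) := by
  obtain ⟨F, hF⟩ : ∃ F : ℤ × ℤ → ℝ, F = fun p => 50 ^ σ * ‖![p.1, p.2]‖ ^ (-(2 * σ)) := ⟨_, rfl⟩
  have hF0 : ∀ p, 0 ≤ F p := fun p => by rw [hF]; positivity
  have h1 : Summable F := by
    have h2 := EisensteinSeries.summable_one_div_norm_rpow (k := 2 * σ) (by linarith)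
    have h3 := (finTwoArrowEquiv ℤ).symm.summable_iff.2 h2
    rw [hF]
    exact h3.mul_left _
  have hinj : Function.Injective fun x : (Σ n : ℕ, RR n) => (x.2 : ℤ × ℤ) := by
    rintro ⟨a, p, hp⟩ ⟨b, q, hq⟩ h
    simp only at h
    subst h
    have : a = b := hp.1.symm.trans hq.1
    subst this
    rfl
  have h2 : Summable fun x : (Σ n : ℕ, RR n) => F x.2 := h1.comp_injective hinj
  have h3 : Summable fun n : ℕ => ∑' p : RR n, F p := h2.sigma
  refine Summable.of_nonneg_of_le (fun n => by positivity) (fun n => ?_) h3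
  rcases Nat.eq_zero_or_pos n with rfl | hn
  · rw [bb_zero, norm_zero, zero_mul]
    exact tsum_nonneg fun p => hF0 p
  · have hf := RR_finite n hn
    have := hf.fintype
    have hn' : (0 : ℝ) < n := by exact_mod_cast hn
    have h4 : ∀ p : RR n, (n : ℝ) ^ (-σ) ≤ F p := by
      intro p
      have h5 := RR_size hn p.2
      have h6 : ‖![p.1.1, p.1.2]‖ ^ 2 ≤ 50 * n := by
        have h7 : ‖![p.1.1, p.1.2]‖ = max |(p.1.1 : ℝ)| |(p.1.2 : ℝ)| := by
          rw [EisensteinSeries.norm_eq_max_natAbs]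
          simp [Nat.cast_natAbs]
        rw [h7]
        rcases max_choice |(p.1.1 : ℝ)| |(p.1.2 : ℝ)| with h | h <;> rw [h, sq_abs] <;>
          nlinarith [sq_nonneg (p.1.1 : ℝ), sq_nonneg (p.1.2 : ℝ)]
      have h8 : 0 < ‖![p.1.1, p.1.2]‖ := by
        rw [norm_pos_iff]
        intro h0
        have h9 : p.1.1 = 0 := congrFun h0 0
        have h10 : p.1.2 = 0 := congrFun h0 1
        have h11 := p.2.1
        unfold nm at h11
        rw [h9, h10] at h11
        simp at h11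
        omega
      rw [hF]
      simp only
      have h9 : ‖![p.1.1, p.1.2]‖ ^ (-(2 * σ)) = (‖![p.1.1, p.1.2]‖ ^ 2) ^ (-σ) := by
        rw [← Real.rpow_natCast, ← Real.rpow_mul h8.le]
        congr 1
        push_cast
        ring
      rw [h9]
      have h10 : (50 * (n : ℝ)) ^ (-σ) ≤ (‖![p.1.1, p.1.2]‖ ^ 2) ^ (-σ) :=
        Real.rpow_le_rpow_of_nonpos (by positivity) h6 (by linarith)
      have h11 : (n : ℝ) ^ (-σ) = 50 ^ σ * (50 * (n : ℝ)) ^ (-σ) := by
        rw [Real.mul_rpow (by norm_num) hn'.le, ← mul_assoc, ← Real.rpow_add (by norm_num), add_neg_cancel,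
          Real.rpow_zero, one_mul]
      rw [h11]
      gcongr
    calc ‖bb n‖ * (n : ℝ) ^ (-σ) ≤ (RR n).ncard * (n : ℝ) ^ (-σ) := by
          gcongr
          exact norm_bb_le hn
      _ = ∑ _p : RR n, (n : ℝ) ^ (-σ) := by
          rw [Finset.sum_const, nsmul_eq_mul, Finset.card_univ, ← Nat.card_eq_fintype_card]
          rfl
      _ ≤ ∑ p : RR n, F p := Finset.sum_le_sum fun p _ => h4 p
      _ = _ := (tsum_fintype _).symm

theorem conj_eq : Real.goldenConj = -(Real.goldenRatio)⁻¹ := by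
  rw [Real.inv_goldenRatio, neg_neg]

theorem RR_one : RR 1 = (({(1, 0), (-1, 0), (0, 1), (0, -1)} : Finset (ℤ × ℤ)) : Set (ℤ × ℤ)) := by
  ext p
  constructor
  · intro hp
    obtain ⟨h1, h2, h3⟩ := RR_ineq one_pos hp
    have h4 := hp.1
    have h5 := size_le p
    have h6 := gr_lt
    have hs : (p.1 : ℝ) ^ 2 + (p.2 : ℝ) ^ 2 < 8 := by
      rw [Nat.cast_one, mul_one] at h3
      rw [Nat.cast_one] at h2
      nlinarith
    have hs' : p.1 ^ 2 + p.2 ^ 2 < 8 := by exact_mod_cast hs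
    have hm : -2 ≤ p.1 ∧ p.1 ≤ 2 := by constructor <;> nlinarith [sq_nonneg p.2]
    have hn : -2 ≤ p.2 ∧ p.2 ≤ 2 := by constructor <;> nlinarith [sq_nonneg p.1]
    have h7 : (0 : ℝ) ≤ p.2 * (2 * p.1 + p.2) := by
      have h8 : em' p ^ 2 ≤ em p ^ 2 := by
        rw [← sq_abs (em' p), ← sq_abs (em p)]
        exact pow_le_pow_left₀ (abs_nonneg _) h1 2
      have h9 : em p ^ 2 - em' p ^ 2 = (p.2 * (2 * p.1 + p.2)) * √5 := by
        unfold DM.em DM.em'
        have e3 := Real.goldenRatio_add_goldenConj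
        have e4 := Real.goldenRatio_sub_goldenConj
        have e5 : (p.1 + p.2 * Real.goldenRatio) ^ 2 - (p.1 + p.2 * Real.goldenConj) ^ 2 =
          (p.2 * (Real.goldenRatio - Real.goldenConj)) *
            (2 * p.1 + p.2 * (Real.goldenRatio + Real.goldenConj)) := by ring
        rw [e5, e3, e4]
        ring
      have h10 : 0 ≤ (p.2 * (2 * p.1 + p.2)) * √5 := by rw [← h9]; linarith
      have h11 : 0 < √(5 : ℝ) := by positivity
      exact nonneg_of_mul_nonneg_left h10 h11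
    have h7' : 0 ≤ p.2 * (2 * p.1 + p.2) := by exact_mod_cast h7
    have h8 : (p.1 : ℝ) ^ 2 + p.2 ^ 2 + (2 * p.1 * p.2 + p.2 ^ 2) * Real.goldenRatio <
        2 + 3 * Real.goldenRatio := by
      rw [Nat.cast_one, mul_one] at h3
      have e1 := Real.goldenRatio_sq
      have e2 : em p ^ 2 = (p.1 : ℝ) ^ 2 + p.2 ^ 2 + (2 * p.1 * p.2 + p.2 ^ 2) * Real.goldenRatio := by
        unfold DM.em
        linear_combination ((p.2 : ℝ) ^ 2) * e1
      rw [← e2]
      exact h3
    obtain ⟨m, n⟩ := p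
    have hg := gr_pos
    simp only at hm hn h7' h8 h4
    unfold nm at h4
    simp only at h4
    obtain ⟨hm1, hm2⟩ := hm
    obtain ⟨hn1, hn2⟩ := hn
    interval_cases m <;> interval_cases n <;> simp at h4 h7' ⊢ <;> norm_num at h8 <;> nlinarith
  · intro hp
    have e3 := Real.goldenRatio_add_goldenConj
    have hg := Real.one_lt_goldenRatio
    have hl := log_gr_pos
    have h0 : Real.goldenRatio ≠ 0 := gr_pos.ne'
    have e : Real.log |Real.goldenRatio / Real.goldenConj| = 2 * Real.log Real.goldenRatio := by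
      rw [conj_eq]
      have : Real.goldenRatio / -Real.goldenRatio⁻¹ = -(Real.goldenRatio ^ 2) := by
        field_simp
      rw [this, abs_neg, abs_of_pos (by positivity), Real.log_pow]
      push_cast
      ring
    simp only [Finset.coe_insert, Finset.coe_singleton, Set.mem_insert_iff, Set.mem_singleton_iff] at hp
    rcases hp with rfl | rfl | rfl | rfl
    · refine ⟨by simp [nm], ?_, ?_⟩ <;> simp [lam, DM.em, DM.em', PP_pos]
    · refine ⟨by simp [nm], ?_, ?_⟩ <;> simp [lam, DM.em, DM.em', PP_pos]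
    · refine ⟨by simp [nm], ?_, ?_⟩ <;> simp only [lam, DM.em, DM.em', PP, Int.cast_zero, Int.cast_one, zero_add,
        one_mul, e] <;> linarith
    · refine ⟨by simp [nm], ?_, ?_⟩ <;> simp only [lam, DM.em, DM.em', PP, Int.cast_zero, Int.cast_one, zero_add,
        one_mul, Int.cast_neg, neg_mul, neg_div_neg_eq, e] <;> linarith

theorem bb_one : bb 1 = 4 := by
  have hl := log_gr_pos
  have h0 : Real.goldenRatio ≠ 0 := gr_pos.ne'
  have e : Real.log |Real.goldenRatio / Real.goldenConj| = 2 * Real.log Real.goldenRatio := by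
    rw [conj_eq]
    have : Real.goldenRatio / -Real.goldenRatio⁻¹ = -(Real.goldenRatio ^ 2) := by
      field_simp
    rw [this, abs_neg, abs_of_pos (by positivity), Real.log_pow]
    push_cast
    ring
  have e2 : cexp (-I * t0 * ((2 * Real.log Real.goldenRatio : ℝ) : ℂ)) = -1 := by
    have : (-I * t0 * ((2 * Real.log Real.goldenRatio : ℝ) : ℂ) : ℂ) = -(Real.pi * I) := by
      unfold t0
      have hl' : (Real.log Real.goldenRatio : ℂ) ≠ 0 := by exact_mod_cast hl.ne'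
      push_cast
      field_simp
    rw [this, Complex.exp_neg, Complex.exp_pi_mul_I]
    norm_num
  unfold bb
  rw [if_neg one_ne_zero, RR_one, Finset.tsum_subtype' ({(1, 0), (-1, 0), (0, 1), (0, -1)} : Finset (ℤ × ℤ)) gg]
  have g1 : gg (1, 0) = 1 := by
    have : cls (1, 0) = 1 := by decide
    have h4 : c5 1 = 1 := by decide
    simp [gg, lam, DM.em, DM.em', this, h4]
  have g2 : gg (-1, 0) = 1 := by
    have : cls (-1, 0) = 4 := by decide
    have h4 : c5 4 = 1 := by decide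
    simp [gg, lam, DM.em, DM.em', this, h4]
  have g3 : gg (0, 1) = 1 := by
    have h1 : cls (0, 1) = 3 := by decide
    have h4 : c5 3 = -1 := by decide
    unfold gg
    rw [h1, h4]
    simp only [lam, DM.em, DM.em', Int.cast_zero, Int.cast_one, zero_add, one_mul, e, e2]
    norm_num
  have g4 : gg (0, -1) = 1 := by
    have h1 : cls (0, -1) = 2 := by decide
    have h4 : c5 2 = -1 := by decide
    unfold gg
    rw [h1, h4]
    simp only [lam, DM.em, DM.em', Int.cast_zero, Int.cast_one, zero_add,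
        one_mul, Int.cast_neg, neg_mul, neg_div_neg_eq, e]
    simp only [neg_mul] at e2
    rw [e2]
    norm_num
  rw [Finset.sum_insert (by decide), Finset.sum_insert (by decide), Finset.sum_insert (by decide),
    Finset.sum_singleton, g1, g2, g3, g4]
  norm_num

end Pool.Agent.Y807.DME1
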