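import Pool.Agent.Y807.DMH1

/-!
# The Hecke relations of the coefficients `bb` (job DM-E2)
-/

set_option autoImplicit false

open Complex Pool.Agent.Y672 Pool.Agent.Y672.DM Filter Set

namespace Pool.Agent.Y807.DME2

open Pool.Agent.Y807.DME1 Pool.Agent.Y807.DMH

/-- multiplication of `ℤ[φ]` -/
def mu (a b : ℤ × ℤ) : ℤ × ℤ := (a.1 * b.1 + a.2 * b.2, a.1 * b.2 + a.2 * b.1 + a.2 * b.2)

/-- conjugation of `ℤ[φ]` -/
def cj (a : ℤ × ℤ) : ℤ × ℤ := (a.1 + a.2, -a.2)

theorem nm_mu (a b : ℤ × ℤ) : nm (mu a b) = nm a * nm b := by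
  unfold nm mu
  ring

theorem nm_cj (a : ℤ × ℤ) : nm (cj a) = nm a := by
  unfold nm cj
  ring

theorem mu_cj (a b : ℤ × ℤ) : mu (cj a) (mu a b) = (nm a * b.1, nm a * b.2) := by
  unfold mu cj nm
  ext <;> simp only <;> ring

theorem mu_cj' (a b : ℤ × ℤ) : mu a (mu (cj a) b) = (nm a * b.1, nm a * b.2) := by
  unfold mu cj nm
  ext <;> simp only <;> ring

theorem mu_inj {a : ℤ × ℤ} (ha : nm a ≠ 0) : Function.Injective (mu a) := by
  intro b c h
  have h1 := mu_cj a b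
  rw [h, mu_cj] at h1
  have h2 := congrArg Prod.fst h1
  have h3 := congrArg Prod.snd h1
  simp only at h2 h3
  ext
  · exact (mul_left_cancel₀ ha h2).symm
  · exact (mul_left_cancel₀ ha h3).symm

theorem mu_T (a b : ℤ × ℤ) : mu a (T b) = T (mu a b) := by
  simp only [mu, T, Equiv.coe_fn_mk]
  ext <;> simp only <;> ring

theorem mu_zpow (a : ℤ × ℤ) (k : ℤ) : ∀ b, mu a ((T ^ k) b) = (T ^ k) (mu a b) := by
  induction k using Int.induction_on with
  | zero => simp
  | succ k ih =>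
    intro b
    rw [zpow_add_one, Equiv.Perm.mul_apply, Equiv.Perm.mul_apply, ih, mu_T]
  | pred k ih =>
    intro b
    have e : T (T⁻¹ b) = b := Equiv.apply_symm_apply T b
    have e2 : mu a (T⁻¹ b) = T⁻¹ (mu a b) := by
      have h := mu_T a (T⁻¹ b)
      rw [e] at h
      rw [h]
      exact (Equiv.symm_apply_apply T _).symm
    rw [zpow_sub_one, Equiv.Perm.mul_apply, Equiv.Perm.mul_apply, ih, e2]

theorem em_mu (a b : ℤ × ℤ) : DM.em (mu a b) = DM.em a * DM.em b := by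
  have h := Real.goldenRatio_sq
  simp only [DM.em, mu]
  push_cast
  linear_combination (-(a.2 : ℝ) * b.2) * h

theorem em'_mu (a b : ℤ × ℤ) : DM.em' (mu a b) = DM.em' a * DM.em' b := by
  have h := Real.goldenConj_sq
  simp only [DM.em', mu]
  push_cast
  linear_combination (-(a.2 : ℝ) * b.2) * h

theorem cls_mu (a b : ℤ × ℤ) : cls (mu a b) = cls a * cls b := by
  simp only [cls, mu]
  push_cast
  have h5 : (5 : ZMod 5) = 0 := by decide
  linear_combination (-(a.2 : ZMod 5) * b.2) * h5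

theorem c5_mul : ∀ a b : ZMod 5, c5 (a * b) = c5 a * c5 b := by decide

theorem lam_mu {a b : ℤ × ℤ} (ha : nm a ≠ 0) (hb : nm b ≠ 0) : lam (mu a b) = lam a + lam b := by
  obtain ⟨h1, h2⟩ := em_ne ha
  obtain ⟨h3, h4⟩ := em_ne hb
  unfold lam
  rw [em_mu, em'_mu, mul_div_mul_comm, abs_mul, Real.log_mul (by positivity) (by positivity)]

theorem gg_mu {a b : ℤ × ℤ} (ha : nm a ≠ 0) (hb : nm b ≠ 0) : gg (mu a b) = gg a * gg b := by
  unfold gg
  rw [cls_mu, c5_mul, lam_mu ha hb]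
  push_cast
  rw [mul_add, Complex.exp_add]
  ring

/-- transfer principle for sums over the fundamental domain -/
theorem transfer {F G : ℤ × ℤ → ℂ} {h : ℤ × ℤ → ℤ × ℤ} (hinj : Function.Injective h)
    (hT : ∀ (k : ℤ) p, h ((T ^ k) p) = (T ^ k) (h p)) (hnm : ∀ p, nm (h p) ≠ 0 ↔ nm p ≠ 0)
    (hF : ∀ (k : ℤ) p, nm p ≠ 0 → F ((T ^ k) p) = F p) (hFG : ∀ p, nm p ≠ 0 → F (h p) = G p)
    (hsupp : ∀ p, nm p ≠ 0 → F p ≠ 0 → ∃ q, h q = p) :
    ∑' q : D, F q = ∑' q : D, G q := by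
  have hex : ∀ q : D, ∃ x : D × ℤ, (T ^ x.2) (x.1 : ℤ × ℤ) = h q := by
    intro q
    refine ⟨eDP.symm ⟨h q, (hnm q).2 q.2.1⟩, ?_⟩
    rw [← eDP_apply, Equiv.apply_symm_apply]
  choose g hg using hex
  have uniq : ∀ (q q' : D) (k : ℤ), (q : ℤ × ℤ) = (T ^ k) (q' : ℤ × ℤ) → q = q' := by
    intro q q' k hk
    have h1 : eDP (q, 0) = eDP (q', k) := by
      apply Subtype.ext
      rw [eDP_apply, eDP_apply]
      simpa using hk
    exact congrArg Prod.fst (eDP.injective h1)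
  have ginj : Function.Injective fun q => (g q).1 := by
    intro q q' hqq
    simp only at hqq
    have h1 := hg q
    have h2 := hg q'
    rw [hqq] at h1
    have h3 : h q = h ((T ^ ((g q).2 - (g q').2)) q') := by
      rw [hT, ← h2, ← h1, ← Equiv.Perm.mul_apply, ← zpow_add, sub_add_cancel]
    exact uniq _ _ _ (hinj h3)
  have hs : Function.support (fun q : D => F q) ⊆ Set.range fun q => (g q).1 := by
    intro p hp
    obtain ⟨q, hq⟩ := hsupp p p.2.1 hp
    have hq1 : nm q ≠ 0 := (hnm q).1 (by rw [hq]; exact p.2.1)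
    obtain ⟨x, hx⟩ := eDP.surjective ⟨q, hq1⟩
    have hx' : (T ^ x.2) (x.1 : ℤ × ℤ) = q := by
      rw [← eDP_apply, hx]
    refine ⟨x.1, ?_⟩
    simp only
    have h1 := hg x.1
    symm
    apply uniq _ _ (x.2 + (g x.1).2)
    rw [zpow_add, Equiv.Perm.mul_apply, h1, ← hT, hx', hq]
  rw [← ginj.tsum_eq hs]
  refine tsum_congr fun q => ?_
  rw [← hF (g q).2 _ (g q).1.2.1, hg, hFG _ q.2.1]

open Classical in
/-- `gg` on the elements of norm `± n` in `A` -/
noncomputable def Fn (n : ℕ) (A : Set (ℤ × ℤ)) (p : ℤ × ℤ) : ℂ :=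
  if (nm p).natAbs = n ∧ p ∈ A then gg p else 0

/-- its sum over the fundamental domain -/
noncomputable def Sm (n : ℕ) (A : Set (ℤ × ℤ)) : ℂ := ∑' q : D, Fn n A q

theorem bb_eq {n : ℕ} (hn : 0 < n) : bb n = Sm n univ := by
  unfold bb Sm
  rw [if_neg hn.ne']
  let i : RR n → D := fun r => ⟨r.1, by
    intro h
    have := r.2.1
    rw [h] at this
    simp at this
    omega, r.2.2.1, r.2.2.2⟩
  have hi : Function.Injective i := by
    intro r s h
    have : (i r : ℤ × ℤ) = i s := congrArg Subtype.val h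
    exact Subtype.ext this
  have hs : Function.support (fun q : D => Fn n univ q) ⊆ Set.range i := by
    intro q hq
    have h1 : (nm q).natAbs = n := by
      by_contra hcon
      apply hq
      exact if_neg fun h => hcon h.1
    exact ⟨⟨q.1, h1, q.2.2.1, q.2.2.2⟩, rfl⟩
  rw [← hi.tsum_eq hs]
  refine tsum_congr fun r => ?_
  unfold Fn
  rw [if_pos ⟨r.2.1, mem_univ _⟩]

theorem Fn_summable {n : ℕ} (hn : 0 < n) (A : Set (ℤ × ℤ)) : Summable fun q : D => Fn n A q := by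
  apply summable_of_hasFiniteSupport
  have h1 : {q : D | (nm q).natAbs = n}.Finite := by
    apply Set.Finite.of_finite_image (f := fun q : D => (q : ℤ × ℤ))
    · apply (RR_finite n hn).subset
      rintro _ ⟨q, hq, rfl⟩
      exact ⟨hq, q.2.2.1, q.2.2.2⟩
    · intro a _ b _ h
      exact Subtype.ext h
  apply h1.subset
  intro q hq
  by_contra hcon
  apply hq
  exact if_neg fun h => hcon h.1

theorem Sm_mul {a : ℤ × ℤ} (ha : nm a ≠ 0) {n : ℕ} (hn : 0 < n) :
    Sm ((nm a).natAbs * n) (Set.range (mu a)) = gg a * bb n := by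
  rw [bb_eq hn]
  unfold Sm
  rw [← tsum_mul_left]
  have hk : 0 < (nm a).natAbs := Int.natAbs_pos.2 ha
  refine transfer (F := Fn ((nm a).natAbs * n) (Set.range (mu a))) (G := fun p => gg a * Fn n univ p)
    (mu_inj ha) (fun k p => mu_zpow a k p) (fun p => ?_) (fun k p hp => ?_) (fun p hp => ?_) (fun p hp h => ?_)
  · rw [nm_mu, mul_ne_zero_iff]
    exact ⟨fun h => h.2, fun h => ⟨ha, h⟩⟩
  · obtain ⟨i1, -, i3⟩ := zpow_inv k p hp
    have h1 : (T ^ k) p ∈ Set.range (mu a) ↔ p ∈ Set.range (mu a) := by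
      constructor
      · rintro ⟨c, hc⟩
        refine ⟨(T ^ (-k)) c, ?_⟩
        rw [mu_zpow, hc, ← Equiv.Perm.mul_apply, ← zpow_add, neg_add_cancel, zpow_zero, Equiv.Perm.one_apply]
      · rintro ⟨c, hc⟩
        exact ⟨(T ^ k) c, by rw [mu_zpow, hc]⟩
    unfold Fn
    rw [i1, i3]
    congr 1
    exact propext (and_congr Iff.rfl h1)
  · unfold Fn
    have h1 : (nm (mu a p)).natAbs = (nm a).natAbs * n ↔ (nm p).natAbs = n := by
      rw [nm_mu, Int.natAbs_mul]
      exact Nat.mul_right_inj hk.ne'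
    simp only [h1, Set.mem_range_self, and_true, mem_univ]
    split_ifs
    · exact gg_mu ha hp
    · rw [mul_zero]
  · by_contra hcon
    apply h
    unfold Fn
    rw [if_neg]
    exact fun h' => hcon h'.2

theorem Sm_zero {n : ℕ} {A : Set (ℤ × ℤ)} (h : ∀ p ∈ A, (nm p).natAbs ≠ n) : Sm n A = 0 := by
  unfold Sm
  have : ∀ q : D, Fn n A q = 0 := by
    intro q
    unfold Fn
    rw [if_neg]
    exact fun h' => h q h'.2 h'.1
  rw [tsum_congr this, tsum_zero]

theorem Sm_congr {n : ℕ} {A B : Set (ℤ × ℤ)} (h : ∀ p, (nm p).natAbs = n → (p ∈ A ↔ p ∈ B)) : Sm n A = Sm n B := by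
  unfold Sm
  refine tsum_congr fun q => ?_
  unfold Fn
  congr 1
  apply propext
  constructor
  · rintro ⟨h1, h2⟩
    exact ⟨h1, (h _ h1).1 h2⟩
  · rintro ⟨h1, h2⟩
    exact ⟨h1, (h _ h1).2 h2⟩

theorem Sm_incl {n : ℕ} (hn : 0 < n) {A B : Set (ℤ × ℤ)} (h : ∀ p, (nm p).natAbs = n → (p ∈ A ∨ p ∈ B)) :
    Sm n univ = Sm n A + Sm n B - Sm n (A ∩ B) := by
  unfold Sm
  rw [← (Fn_summable hn A).tsum_add (Fn_summable hn B),
    ← ((Fn_summable hn A).add (Fn_summable hn B)).tsum_sub (Fn_summable hn _)]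
  refine tsum_congr fun q => ?_
  unfold Fn
  by_cases h1 : (nm q).natAbs = n
  · have h2 := h q h1
    by_cases h3 : (q : ℤ × ℤ) ∈ A <;> by_cases h4 : (q : ℤ × ℤ) ∈ B <;> simp_all
  · simp [h1]

theorem nm_nat (p : ℕ) : nm ((p : ℤ), 0) = p ^ 2 := by
  simp [nm]

theorem gg_nat {p : ℕ} (hp : p ≠ 0) : gg ((p : ℤ), 0) = c5 p := by
  have h : (p : ℝ) ≠ 0 := by exact_mod_cast hp
  simp [gg, lam, DM.em, DM.em', cls, h]

theorem mem_range_nat {p : ℕ} (x : ℤ × ℤ) :
    x ∈ Set.range (mu ((p : ℤ), 0)) ↔ (p : ℤ) ∣ x.1 ∧ (p : ℤ) ∣ x.2 := by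
  constructor
  · rintro ⟨y, rfl⟩
    simp [mu]
  · rintro ⟨⟨a, ha⟩, ⟨b, hb⟩⟩
    refine ⟨(a, b), ?_⟩
    ext
    · simp [mu, ha]
    · simp [mu, hb]

theorem Sm_nat {p : ℕ} (hp : p.Prime) {n : ℕ} (hn : 0 < n) :
    Sm (p * n) (Set.range (mu ((p : ℤ), 0))) = if p ∣ n then (c5 p : ℂ) * bb (n / p) else 0 := by
  have hp0 : (p : ℤ) ≠ 0 := by exact_mod_cast hp.ne_zero
  split_ifs with h
  · obtain ⟨m, rfl⟩ := h
    have hm : 0 < m := by
      rcases Nat.eq_zero_or_pos m with h | h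
      · subst h
        simp at hn
      · exact h
    rw [Nat.mul_div_cancel_left m hp.pos, ← gg_nat hp.ne_zero, ← Sm_mul (by rw [nm_nat]; positivity) hm, nm_nat]
    congr 1
    rw [Int.natAbs_pow, Int.natAbs_natCast]
    ring
  · apply Sm_zero
    rintro _ ⟨y, rfl⟩ h1
    apply h
    rw [nm_mu, nm_nat, Int.natAbs_mul, Int.natAbs_pow, Int.natAbs_natCast, pow_two, mul_assoc] at h1
    have h2 := Nat.eq_of_mul_eq_mul_left hp.pos h1
    exact ⟨_, h2.symm⟩

theorem c5_sq : ∀ b s : ZMod 5, b ≠ 0 → b = s * s → c5 b = 1 := by decide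

theorem c5_nonsq : ∀ b : ZMod 5, c5 b = -1 ∨ ∃ s, b = s * s := by decide

theorem root_c5 {p : ℕ} (hp : p.Prime) (h5 : p ≠ 5) (h : ∃ r : ZMod p, r ^ 2 = r + 1) : c5 p = 1 := by
  obtain ⟨r, hr⟩ := h
  have : Fact p.Prime := ⟨hp⟩
  have : Fact (Nat.Prime 5) := ⟨by norm_num⟩
  have hp2 : p ≠ 2 := by
    rintro rfl
    revert hr
    revert r
    decide
  have h1 : IsSquare (p : ZMod 5) := by
    rw [ZMod.exists_sq_eq_prime_iff_of_mod_four_eq_one (p := 5) (q := p) (by norm_num) hp2]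
    refine ⟨2 * r - 1, ?_⟩
    push_cast
    linear_combination (-4) * hr
  obtain ⟨s, hs⟩ := h1
  have h2 : (p : ZMod 5) ≠ 0 := by
    rw [Ne, ZMod.natCast_eq_zero_iff]
    intro h
    exact h5 ((Nat.prime_dvd_prime_iff_eq (by norm_num) hp).1 h).symm
  exact c5_sq _ _ h2 hs

theorem noroot_c5 {p : ℕ} (hp : p.Prime) (h : ¬ ∃ r : ZMod p, r ^ 2 = r + 1) : c5 p = -1 := by
  have : Fact p.Prime := ⟨hp⟩
  have : Fact (Nat.Prime 5) := ⟨by norm_num⟩
  rcases eq_or_ne p 2 with rfl | hp2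
  · decide
  have h1 : ¬ IsSquare (p : ZMod 5) := by
    rw [ZMod.exists_sq_eq_prime_iff_of_mod_four_eq_one (p := 5) (q := p) (by norm_num) hp2]
    rintro ⟨s, hs⟩
    apply h
    have h2 : (2 : ZMod p) ≠ 0 := by
      intro h2
      have h3 : ((2 : ℕ) : ZMod p) = 0 := by exact_mod_cast h2
      rw [ZMod.natCast_eq_zero_iff] at h3
      exact hp2 ((Nat.prime_dvd_prime_iff_eq hp (by norm_num)).1 h3)
    refine ⟨(1 + s) / 2, ?_⟩
    push_cast at hs
    field_simp
    linear_combination -hs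
  rcases c5_nonsq p with h | ⟨s, hs⟩
  · exact h
  · exact absurd ⟨s, hs⟩ h1

theorem nm_ne_zero {a : ℤ × ℤ} (ha : a ≠ 0) : nm a ≠ 0 := by
  intro h
  have h1 := em_mul a
  rw [h, Int.cast_zero, mul_eq_zero] at h1
  apply ha
  have key : ∀ x : ℝ, Irrational x → (a.1 : ℝ) + a.2 * x = 0 → a = 0 := by
    intro x hx h0
    have h2 : a.2 = 0 := by
      by_contra h2
      have h3 : (a.2 : ℝ) ≠ 0 := by exact_mod_cast h2
      apply hx
      refine ⟨-a.1 / a.2, ?_⟩
      push_cast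
      field_simp
      linarith
    rw [h2] at h0
    have h3 : a.1 = 0 := by simpa using h0
    ext <;> simp [h2, h3]
  rcases h1 with h1 | h1
  · exact key _ Real.goldenRatio_irrational h1
  · exact key _ Real.goldenConj_irrational h1

theorem exists_pi {p : ℕ} (hp : p.Prime) {r : ZMod p} (hr : r ^ 2 = r + 1) :
    ∃ a : ℤ × ℤ, (nm a).natAbs = p ∧ (a.1 : ZMod p) + a.2 * r = 0 := by
  have : NeZero p := ⟨hp.ne_zero⟩
  obtain ⟨k, hk⟩ : ∃ k, k = Nat.sqrt p := ⟨_, rfl⟩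
  have hk1 : k * k ≤ p := by
    rw [hk]
    exact Nat.sqrt_le p
  have hk2 : p < (k + 1) * (k + 1) := by
    rw [hk]
    exact Nat.lt_succ_sqrt p
  obtain ⟨x, y, hxy, hf⟩ := Fintype.exists_ne_map_eq_of_card_lt
    (fun x : Fin (k + 1) × Fin (k + 1) => ((x.1 : ℕ) : ZMod p) + (x.2 : ℕ) * r) (by
      rw [ZMod.card, Fintype.card_prod, Fintype.card_fin]
      exact hk2)
  obtain ⟨a, ha⟩ : ∃ a : ℤ × ℤ, a = (((x.1 : ℕ) : ℤ) - (y.1 : ℕ), ((x.2 : ℕ) : ℤ) - (y.2 : ℕ)) := ⟨_, rfl⟩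
  have h1 : a ≠ 0 := by
    intro h0
    apply hxy
    rw [ha] at h0
    have h2 := congrArg Prod.fst h0
    have h3 := congrArg Prod.snd h0
    simp only [Prod.fst_zero, Prod.snd_zero] at h2 h3
    ext
    · omega
    · omega
  have h2 : (a.1 : ZMod p) + a.2 * r = 0 := by
    rw [ha]
    push_cast
    linear_combination hf
  refine ⟨a, ?_, h2⟩
  have h3 : ((nm a : ℤ) : ZMod p) = 0 := by
    unfold nm
    push_cast
    linear_combination ((a.1 : ZMod p) + a.2 * (1 - r)) * h2 + (a.2 : ZMod p) ^ 2 * hr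
  rw [ZMod.intCast_zmod_eq_zero_iff_dvd, Int.natCast_dvd] at h3
  have h4 : (nm a).natAbs ≠ 0 := by
    rw [Ne, Int.natAbs_eq_zero]
    exact nm_ne_zero h1
  have hx1 := x.1.isLt
  have hx2 := x.2.isLt
  have hy1 := y.1.isLt
  have hy2 := y.2.isLt
  have b1 : a.1 ^ 2 ≤ p := by
    have c1 : |a.1| ≤ k := by
      rw [ha]
      simp only
      rw [abs_le]
      constructor <;> omega
    have c2 : a.1 ^ 2 = |a.1| * |a.1| := by rw [← pow_two, sq_abs]
    have c3 : |a.1| * |a.1| ≤ (k : ℤ) * k := mul_le_mul c1 c1 (abs_nonneg _) (by positivity)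
    have c4 : (k : ℤ) * k ≤ p := by exact_mod_cast hk1
    linarith
  have b2 : a.2 ^ 2 ≤ p := by
    have c1 : |a.2| ≤ k := by
      rw [ha]
      simp only
      rw [abs_le]
      constructor <;> omega
    have c2 : a.2 ^ 2 = |a.2| * |a.2| := by rw [← pow_two, sq_abs]
    have c3 : |a.2| * |a.2| ≤ (k : ℤ) * k := mul_le_mul c1 c1 (abs_nonneg _) (by positivity)
    have c4 : (k : ℤ) * k ≤ p := by exact_mod_cast hk1
    linarith
  have hp0 : (0 : ℤ) < p := by exact_mod_cast hp.pos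
  have b3 : |nm a| < 2 * p := by
    unfold nm
    rw [abs_lt]
    constructor <;> nlinarith [sq_nonneg (2 * a.1 + a.2), sq_nonneg (a.1 - 2 * a.2)]
  have b4 : (nm a).natAbs < 2 * p := by
    rw [Int.abs_eq_natAbs] at b3
    exact_mod_cast b3
  obtain ⟨c, hc⟩ := h3
  rw [hc] at b4 h4 ⊢
  have hc2 : c < 2 := by
    by_contra hcon
    push Not at hcon
    have := Nat.mul_le_mul_left p hcon
    omega
  have hc0 : c ≠ 0 := by
    rintro rfl
    exact h4 (mul_zero _)
  have : c = 1 := by omega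
  rw [this, mul_one]

theorem mem_range_pi {p : ℕ} (hp : p.Prime) {r : ZMod p} (hr : r ^ 2 = r + 1) {a : ℤ × ℤ}
    (ha : (nm a).natAbs = p) (har : (a.1 : ZMod p) + a.2 * r = 0) (x : ℤ × ℤ) :
    x ∈ Set.range (mu a) ↔ (x.1 : ZMod p) + x.2 * r = 0 := by
  constructor
  · rintro ⟨y, rfl⟩
    unfold mu
    push_cast
    linear_combination ((y.1 : ZMod p) + y.2 * r) * har - (a.2 : ZMod p) * y.2 * hr
  · intro hx
    have h1 : (p : ℤ) ∣ (mu (cj a) x).1 := by
      rw [← ZMod.intCast_zmod_eq_zero_iff_dvd]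
      unfold mu cj
      push_cast
      linear_combination ((x.1 : ZMod p)) * har + (a.2 * (1 - r) : ZMod p) * hx + ((a.2 : ZMod p) * x.2) * hr
    have h2 : (p : ℤ) ∣ (mu (cj a) x).2 := by
      rw [← ZMod.intCast_zmod_eq_zero_iff_dvd]
      unfold mu cj
      push_cast
      linear_combination ((x.2 : ZMod p)) * har - (a.2 : ZMod p) * hx
    obtain ⟨c1, hc1⟩ := h1
    obtain ⟨c2, hc2⟩ := h2
    have h3 := mu_cj' a x
    have h4 : mu (cj a) x = (p * c1, p * c2) := by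
      ext
      · exact hc1
      · exact hc2
    rw [h4] at h3
    have hp0 : (p : ℤ) ≠ 0 := by exact_mod_cast hp.ne_zero
    have e1 := congrArg Prod.fst h3
    have e2 := congrArg Prod.snd h3
    unfold mu at e1 e2
    simp only at e1 e2
    rcases Int.natAbs_eq (nm a) with h | h
    · rw [h, ha] at e1 e2
      refine ⟨(c1, c2), ?_⟩
      unfold mu
      ext
      · apply mul_left_cancel₀ hp0
        simp only
        linarith
      · apply mul_left_cancel₀ hp0
        simp only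
        linarith
    · rw [h, ha] at e1 e2
      refine ⟨(-c1, -c2), ?_⟩
      unfold mu
      ext
      · apply mul_left_cancel₀ hp0
        simp only
        linarith
      · apply mul_left_cancel₀ hp0
        simp only
        linarith

theorem bb_split {p : ℕ} (hp : p.Prime) (h5 : p ≠ 5) {r : ZMod p} (hr : r ^ 2 = r + 1) :
    ∃ g : ℂ, ∀ n : ℕ, 0 < n → bb (p * n) = g * bb n - if p ∣ n then bb (n / p) else 0 := by
  have : Fact p.Prime := ⟨hp⟩
  obtain ⟨a, ha, har⟩ := exists_pi hp hr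
  have hnm : nm a ≠ 0 := by
    intro h
    rw [h] at ha
    exact hp.ne_zero ha.symm
  have hnm' : nm (cj a) ≠ 0 := by rwa [nm_cj]
  have ha' : (nm (cj a)).natAbs = p := by rwa [nm_cj]
  have hr' : (1 - r) ^ 2 = (1 - r) + 1 := by linear_combination hr
  have har' : ((cj a).1 : ZMod p) + (cj a).2 * (1 - r) = 0 := by
    unfold cj
    push_cast
    linear_combination har
  have m1 := mem_range_pi hp hr ha har
  have m2 := mem_range_pi hp hr' ha' har'
  have hc := root_c5 hp h5 ⟨r, hr⟩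
  refine ⟨gg a + gg (cj a), fun n hn => ?_⟩
  have hpn : 0 < p * n := Nat.mul_pos hp.pos hn
  have h1 : Sm (p * n) univ = Sm (p * n) (Set.range (mu a)) + Sm (p * n) (Set.range (mu (cj a))) -
      Sm (p * n) (Set.range (mu a) ∩ Set.range (mu (cj a))) := by
    refine Sm_incl hpn fun x hx => ?_
    rw [m1, m2, ← mul_eq_zero]
    have h2 : ((nm x : ℤ) : ZMod p) = 0 := by
      rw [ZMod.intCast_zmod_eq_zero_iff_dvd, Int.natCast_dvd, hx]
      exact dvd_mul_right _ _
    unfold nm at h2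
    push_cast at h2
    linear_combination h2 - (x.2 : ZMod p) ^ 2 * hr
  have h2 : Set.range (mu a) ∩ Set.range (mu (cj a)) = Set.range (mu ((p : ℤ), 0)) := by
    ext x
    rw [mem_inter_iff, m1, m2, mem_range_nat, ← ZMod.intCast_zmod_eq_zero_iff_dvd,
      ← ZMod.intCast_zmod_eq_zero_iff_dvd]
    constructor
    · rintro ⟨e1, e2⟩
      have e3 : (x.2 : ZMod p) * (2 * r - 1) = 0 := by linear_combination e1 - e2
      have e4 : (2 * r - 1) ≠ 0 := by
        intro h0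
        have e5 : ((5 : ℕ) : ZMod p) = 0 := by
          push_cast
          linear_combination (2 * r - 1) * h0 - 4 * hr
        rw [ZMod.natCast_eq_zero_iff] at e5
        exact h5 ((Nat.prime_dvd_prime_iff_eq hp (by norm_num)).1 e5)
      have e5 : (x.2 : ZMod p) = 0 := (mul_eq_zero.1 e3).resolve_right e4
      refine ⟨?_, e5⟩
      rw [e5, zero_mul, add_zero] at e1
      exact e1
    · rintro ⟨e1, e2⟩
      rw [e1, e2]
      simp
  have h3 := Sm_mul hnm hn
  have h4 := Sm_mul hnm' hn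
  rw [ha] at h3
  rw [ha'] at h4
  rw [bb_eq hpn, h1, h2, h3, h4, Sm_nat hp hn, hc]
  push_cast
  rw [one_mul]
  ring

theorem bb_inert {p : ℕ} (hp : p.Prime) (h : ¬ ∃ r : ZMod p, r ^ 2 = r + 1) (n : ℕ) (hn : 0 < n) :
    bb (p * n) = - if p ∣ n then bb (n / p) else 0 := by
  have : Fact p.Prime := ⟨hp⟩
  have hpn : 0 < p * n := Nat.mul_pos hp.pos hn
  have h1 : Sm (p * n) univ = Sm (p * n) (Set.range (mu ((p : ℤ), 0))) := by
    refine Sm_congr fun x hx => ?_
    simp only [mem_univ, true_iff]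
    rw [mem_range_nat, ← ZMod.intCast_zmod_eq_zero_iff_dvd, ← ZMod.intCast_zmod_eq_zero_iff_dvd]
    have h2 : ((nm x : ℤ) : ZMod p) = 0 := by
      rw [ZMod.intCast_zmod_eq_zero_iff_dvd, Int.natCast_dvd, hx]
      exact dvd_mul_right _ _
    unfold nm at h2
    push_cast at h2
    have h3 : (x.2 : ZMod p) = 0 := by
      by_contra h3
      apply h
      refine ⟨-x.1 / x.2, ?_⟩
      field_simp
      linear_combination h2
    rw [h3] at h2
    have h4 : (x.1 : ZMod p) ^ 2 = 0 := by linear_combination h2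
    exact ⟨pow_eq_zero_iff (two_ne_zero) |>.1 h4, h3⟩
  rw [bb_eq hpn, h1, Sm_nat hp hn, noroot_c5 hp h]
  split_ifs <;> push_cast <;> ring

theorem bb_hecke (p : ℕ) (hp : p.Prime) (h5 : p ≠ 5) (n : ℕ) (hn : 0 < n) :
    bb p * bb n = 4 * (bb (p * n) + if p ∣ n then bb (n / p) else 0) := by
  have hp1 : ¬ p ∣ 1 := by
    rw [Nat.dvd_one]
    exact hp.one_lt.ne'
  by_cases h : ∃ r : ZMod p, r ^ 2 = r + 1
  · obtain ⟨r, hr⟩ := h
    obtain ⟨g, hg⟩ := bb_split hp h5 hr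
    have h1 := hg 1 one_pos
    rw [mul_one, if_neg hp1, bb_one] at h1
    rw [hg n hn, h1]
    ring
  · have h1 := bb_inert hp h 1 one_pos
    rw [mul_one, if_neg hp1, neg_zero] at h1
    rw [bb_inert hp h n hn, h1]
    ring

end Pool.Agent.Y807.DME2
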