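import Pool.Agent.Y807.DMH1

/-!
# Unfolding of the theta integral (job DM-H)
-/

set_option autoImplicit false

open Complex Pool.Agent.Y672 Pool.Agent.Y672.DM MeasureTheory Filter Set

namespace Pool.Agent.Y807.DMH

open Pool.Agent.Y807.DME1

/-- the oscillating factor -/
noncomputable def EE (x : ℝ) (p : ℤ × ℤ) : ℂ := cexp (2 * Real.pi * I * x * nm p / 5)

/-- the argument of the Bessel function -/
noncomputable def XX (y : ℝ) (p : ℤ × ℤ) : ℝ := 2 * Real.pi * (nm p).natAbs * (y / 5)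

theorem exp_lam {p : ℤ × ℤ} (hp : nm p ≠ 0) : Real.exp (lam p) = |DM.em p| / |DM.em' p| := by
  obtain ⟨h1, h2⟩ := em_ne hp
  unfold lam
  rw [Real.exp_log (by positivity), abs_div]

theorem em_sq {p : ℤ × ℤ} (hp : nm p ≠ 0) : DM.em p ^ 2 = (nm p).natAbs * Real.exp (lam p) := by
  obtain ⟨h1, h2⟩ := em_ne hp
  rw [exp_lam hp, ← abs_nm, ← sq_abs]
  have h3 : 0 < |DM.em' p| := abs_pos.2 h2
  field_simp

theorem em'_sq {p : ℤ × ℤ} (hp : nm p ≠ 0) : DM.em' p ^ 2 = (nm p).natAbs * Real.exp (-lam p) := by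
  obtain ⟨h1, h2⟩ := em_ne hp
  rw [Real.exp_neg, exp_lam hp, ← abs_nm, ← sq_abs]
  have h3 : 0 < |DM.em p| := abs_pos.2 h1
  have h4 : 0 < |DM.em' p| := abs_pos.2 h2
  field_simp

theorem form_eq {p : ℤ × ℤ} (hp : nm p ≠ 0) (v : ℝ) :
    DM.em p ^ 2 * Real.exp v + DM.em' p ^ 2 * Real.exp (-v) =
      2 * (nm p).natAbs * Real.cosh (v + lam p) := by
  rw [em_sq hp, em'_sq hp, Real.cosh_eq, Real.exp_add, neg_add, Real.exp_add]
  ring

theorem ex_eq {z : ℂ} {p : ℤ × ℤ} (hp : nm p ≠ 0) (v : ℝ) :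
    ex z v p * cexp (I * t0 * v) = cexp (-I * t0 * lam p) * EE z.re p * hh (XX z.im p) (v + lam p) := by
  unfold ex EE hh XX
  rw [form_eq hp, ← Complex.exp_add, ← Complex.exp_add, ← Complex.exp_add]
  congr 1
  push_cast
  ring

/-- the unfolded integral -/
noncomputable def J (z : ℂ) (p : ℤ × ℤ) : ℂ :=
  ∫ v in (0 : ℝ)..PP, (c5 (cls p) : ℂ) * ex z v p * cexp (I * t0 * v)

theorem J_eq {z : ℂ} {p : ℤ × ℤ} (hp : nm p ≠ 0) :
    J z p = gg p * EE z.re p * ∫ w in (lam p)..(lam p + PP), hh (XX z.im p) w := by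
  have h1 : ∀ v : ℝ, (c5 (cls p) : ℂ) * ex z v p * cexp (I * t0 * v) =
      gg p * EE z.re p * hh (XX z.im p) (v + lam p) := by
    intro v
    rw [mul_assoc, ex_eq hp]
    unfold gg
    ring
  unfold J
  simp_rw [h1]
  rw [intervalIntegral.integral_const_mul, intervalIntegral.integral_comp_add_right (fun w => hh (XX z.im p) w),
    zero_add, add_comm PP]

theorem nm_cls (p : ℤ × ℤ) : ((nm p : ℤ) : ZMod 5) = cls p ^ 2 := by
  unfold cls nm
  push_cast
  have h5 : (5 : ZMod 5) = 0 := by decide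
  linear_combination (-((p.1 : ZMod 5) * p.2 + 2 * (p.2 : ZMod 5) ^ 2)) * h5

theorem c5_zero_of {p : ℤ × ℤ} (hp : nm p = 0) : c5 (cls p) = 0 := by
  have h := nm_cls p
  rw [hp, Int.cast_zero] at h
  have h2 : ∀ b : ZMod 5, (0 : ZMod 5) = b ^ 2 → c5 b = 0 := by decide
  exact h2 _ h

theorem J_zero (z : ℂ) {p : ℤ × ℤ} (hp : nm p = 0) : J z p = 0 := by
  unfold J
  rw [c5_zero_of hp]
  simp

theorem norm_c5 (b : ZMod 5) : ‖(c5 b : ℂ)‖ ≤ 1 := by
  have h2 : ∀ b : ZMod 5, c5 b = 0 ∨ c5 b = 1 ∨ c5 b = -1 := by decide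
  rcases h2 b with h | h | h <;> rw [h] <;> simp

theorem ex_continuous (z : ℂ) (p : ℤ × ℤ) : Continuous fun v => ex z v p := by
  unfold ex
  fun_prop

theorem J_hasSum {z : ℂ} (hz : 0 < z.im) : HasSum (fun p => J z p)
    (∫ v in (0 : ℝ)..PP, ∑' p : ℤ × ℤ, (c5 (cls p) : ℂ) * ex z v p * cexp (I * t0 * v)) := by
  have hP := PP_pos
  have hδ : 0 < z.im / 5 * Real.exp (-PP) := by positivity
  have hs := summable_gauss hδ
  refine intervalIntegral.hasSum_integral_of_dominated_convergence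
    (fun p _ => Real.exp (-Real.pi * p.1 ^ 2 * (z.im / 5 * Real.exp (-PP))) *
      Real.exp (-Real.pi * p.2 ^ 2 * (z.im / 5 * Real.exp (-PP)))) ?_ ?_ ?_ ?_ ?_
  · intro p
    have := ex_continuous z p
    exact Continuous.aestronglyMeasurable (by fun_prop)
  · intro p
    refine Eventually.of_forall fun v hv => ?_
    rw [uIoc_of_le hP.le] at hv
    have h1 : ‖cexp (I * t0 * v)‖ = 1 := by
      have : (I * t0 * v : ℂ) = ((t0 * v : ℝ) : ℂ) * I := by
        push_cast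
        ring
      rw [this, norm_exp_ofReal_mul_I]
    have h2 := norm_ex_le hz v p
    have h3 : Real.exp (-PP) ≤ Real.exp (-|v|) := by
      apply Real.exp_le_exp.2
      rw [abs_of_pos hv.1]
      linarith [hv.2]
    have h4 : z.im / 5 * Real.exp (-PP) ≤ z.im / 5 * Real.exp (-|v|) := by gcongr
    have h5 : ∀ m : ℝ, Real.exp (-Real.pi * m ^ 2 * (z.im / 5 * Real.exp (-|v|))) ≤
        Real.exp (-Real.pi * m ^ 2 * (z.im / 5 * Real.exp (-PP))) := by
      intro m
      apply Real.exp_le_exp.2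
      have h6 : 0 ≤ Real.pi * m ^ 2 := by positivity
      nlinarith [mul_le_mul_of_nonneg_left h4 h6]
    rw [norm_mul, norm_mul, h1, mul_one]
    calc ‖(c5 (cls p) : ℂ)‖ * ‖ex z v p‖ ≤ 1 * ‖ex z v p‖ := by
          gcongr
          exact norm_c5 _
      _ = ‖ex z v p‖ := one_mul _
      _ ≤ _ := h2
      _ ≤ _ := by
          gcongr ?_ * ?_
          · exact h5 _
          · exact h5 _
  · exact Eventually.of_forall fun v _ => hs
  · exact intervalIntegrable_const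
  · refine Eventually.of_forall fun v _ => ?_
    exact ((summable_f hz v fun b => (c5 b : ℂ)).mul_right (cexp (I * t0 * v))).hasSum

theorem FF_eq {z : ℂ} (hz : 0 < z.im) :
    FF (fun b => (c5 b : ℂ)) z = √z.im * ∑' p, J z p := by
  rw [(J_hasSum hz).tsum_eq, ← intervalIntegral.integral_const_mul]
  unfold FF Th
  congr 1
  ext v
  rw [tsum_mul_right]
  ring

theorem XX_pos {y : ℝ} (hy : 0 < y) {p : ℤ × ℤ} (hp : nm p ≠ 0) : 0 < XX y p := by
  have h : 0 < (nm p).natAbs := Int.natAbs_pos.2 hp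
  have h' : (0 : ℝ) < (nm p).natAbs := by exact_mod_cast h
  unfold XX
  positivity

theorem hasSum_one {z : ℂ} (hz : 0 < z.im) :
    HasSum (fun q : D => gg q * EE z.re q * KB t0 (XX z.im q)) (∑' p, J z p) := by
  refine unfold_sum (F := fun p => J z p) (J_hasSum hz).summable (fun p hp => J_zero z hp)
    (G := fun q => gg q * EE z.re q * KB t0 (XX z.im q)) ?_
  rintro ⟨q, hq⟩
  have h1 := (hh_sum (XX_pos hz hq.1) (lam q)).mul_left (gg q * EE z.re q)
  refine h1.congr_fun fun k => ?_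
  obtain ⟨i1, i2, i3⟩ := zpow_inv k q hq.1
  have h2 : nm ((T ^ k) q) ≠ 0 := by rw [i1]; exact hq.1
  simp only
  rw [J_eq h2, i3, i2]
  unfold EE XX
  rw [i1]

theorem hasSum_two {z : ℂ} (hz : 0 < z.im) :
    HasSum (fun q : D => gg q * EE (-z.re) q * KB t0 (XX z.im q)) (∑' p, J z p) := by
  have e : ∑' p, J z p = ∑' p, J z (S p) := (S.tsum_eq fun p => J z p).symm
  rw [e]
  refine unfold_sum (F := fun p => J z (S p)) (S.summable_iff.2 (J_hasSum hz).summable)
    (fun p hp => J_zero z (by rw [nm_S, hp, neg_zero]))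
    (G := fun q => gg q * EE (-z.re) q * KB t0 (XX z.im q)) ?_
  rintro ⟨q, hq⟩
  have h1 := (hh_sum (XX_pos hz hq.1) (lam q + PP / 2)).mul_left (gg q * EE (-z.re) q)
  refine h1.congr_fun fun k => ?_
  obtain ⟨i1, i2, i3⟩ := zpow_inv k q hq.1
  have h2 : nm ((T ^ k) q) ≠ 0 := by rw [i1]; exact hq.1
  have h3 : nm (S ((T ^ k) q)) ≠ 0 := by rw [nm_S]; simpa using h2
  simp only
  rw [J_eq h3, gg_S h2, i3, lam_S h2, i2]
  unfold EE XX
  rw [nm_S, i1, Int.natAbs_neg]
  have e1 : lam q + (k : ℝ) * PP + PP / 2 = lam q + PP / 2 + k * PP := by ring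
  rw [e1]
  congr 3
  push_cast
  ring

theorem hasSum_three {z : ℂ} (hz : 0 < z.im) :
    HasSum (fun q : D => gg q * (((KB t0 (2 * Real.pi * (nm q).natAbs * (z.im / 5)) *
      Real.cos (2 * Real.pi * (nm q).natAbs * (z.re / 5)) : ℝ)) : ℂ)) (∑' p, J z p) := by
  have h := ((hasSum_one hz).add (hasSum_two hz)).mul_left (1 / 2 : ℂ)
  have e : (1 / 2 : ℂ) * (∑' p, J z p + ∑' p, J z p) = ∑' p, J z p := by ring
  rw [e] at h
  refine h.congr_fun fun q => ?_
  have h1 : Real.cos (2 * Real.pi * (nm q).natAbs * (z.re / 5)) = Real.cos (2 * Real.pi * nm q * (z.re / 5)) := by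
    have h0 := Int.natAbs_eq (nm q)
    obtain ⟨k, hk⟩ : ∃ k, (nm q).natAbs = k := ⟨_, rfl⟩
    rw [hk] at h0 ⊢
    rcases h0 with h | h
    · rw [h]
      push_cast
      rfl
    · rw [h]
      push_cast
      rw [← Real.cos_neg]
      congr 1
      ring
  rw [h1]
  push_cast
  rw [Complex.cos]
  unfold EE XX
  have e1 : (2 * Real.pi * I * (z.re : ℝ) * nm q / 5 : ℂ) = 2 * Real.pi * nm q * (z.re / 5) * I := by ring
  have e2 : (2 * Real.pi * I * ((-z.re : ℝ) : ℂ) * nm q / 5 : ℂ) = -(2 * Real.pi * nm q * (z.re / 5)) * I := by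
    push_cast
    ring
  rw [e1, e2]
  ring

/-- the fibre over `n` -/
def fibE {n : ℕ} (hn : 0 < n) : {q : D // (nm q).natAbs = n} ≃ RR n where
  toFun c := ⟨c.1.1, c.2, c.1.2.2.1, c.1.2.2.2⟩
  invFun r := ⟨⟨r.1, by
    intro h
    have := r.2.1
    rw [h] at this
    simp at this
    omega, r.2.2.1, r.2.2.2⟩, r.2.1⟩
  left_inv c := by ext <;> rfl
  right_inv r := by ext <;> rfl

theorem hasSum_fib (n : ℕ) : HasSum (fun c : {q : D // (nm q).natAbs = n} => gg c.1) (bb n) := by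
  rcases Nat.eq_zero_or_pos n with rfl | hn
  · have : IsEmpty {q : D // (nm q).natAbs = 0} := by
      constructor
      rintro ⟨q, hq⟩
      exact q.2.1 (Int.natAbs_eq_zero.1 hq)
    rw [bb_zero]
    exact hasSum_empty
  · have hf := RR_finite n hn
    have := hf.fintype
    have h1 : HasSum (fun r : RR n => gg r) (bb n) := by
      unfold bb
      rw [if_neg hn.ne']
      exact (hasSum_fintype _).summable.hasSum
    exact (fibE hn).hasSum_iff.2 h1

theorem hasSum_four {z : ℂ} (hz : 0 < z.im) :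
    HasSum (fun n : ℕ => bb n * (((KB t0 (2 * Real.pi * n * (z.im / 5)) *
      Real.cos (2 * Real.pi * n * (z.re / 5)) : ℝ)) : ℂ)) (∑' p, J z p) := by
  have h1 := (Equiv.sigmaFiberEquiv fun q : D => (nm q).natAbs).hasSum_iff.2 (hasSum_three hz)
  refine h1.sigma fun n => ?_
  have h2 := (hasSum_fib n).mul_right (((KB t0 (2 * Real.pi * n * (z.im / 5)) *
      Real.cos (2 * Real.pi * n * (z.re / 5)) : ℝ)) : ℂ)
  refine h2.congr_fun fun c => ?_
  simp only [Function.comp_apply, Equiv.sigmaFiberEquiv, Equiv.coe_fn_mk]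
  rw [c.2]

theorem FF_eq_U {z : ℂ} (hz : 0 < z.im) :
    FF (fun b => (c5 b : ℂ)) z = (√5 : ℝ) * U t0 bb (z / 5) := by
  have e1 : (z / 5).im = z.im / 5 := by simp
  have e2 : (z / 5).re = z.re / 5 := by simp
  rw [FF_eq hz, ← (hasSum_four hz).tsum_eq]
  unfold U
  rw [e1, e2, ← tsum_mul_left, ← tsum_mul_left]
  refine tsum_congr fun n => ?_
  have h3 : √z.im = √5 * √(z.im / 5) := by
    rw [← Real.sqrt_mul (by norm_num)]
    congr 1
    ring
  rw [h3]
  push_cast
  ring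

end Pool.Agent.Y807.DMH
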