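import Pool.Agent.Y8.Stm6
import Pool.Agent.Y458.NS.WS
import Pool.Agent.W372.ME.STEP2
import Pool.Agent.W298.ME.CTM

/-!
The induction step of the weak local regularity theorem without pressure (helper807 for helper8).
-/

open MeasureTheory Set Metric
open scoped ContDiff NNReal

namespace Pool.Agent.Y807.WStep2

open H459R3.NS W221.NS Pool.Agent.Y8 W612.MD Pool.Agent.Y458.NS W372.ME

/-- the energy inequality with absorption -/
lemma wabsorb2 {E F D G T U : ℝ → ℝ} {H : Set ℝ} {s0 s1 ε K CP CL CS CG CE M Λ : ℝ}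
    (h01 : s0 ≤ s1)
    (hlen : s1 - s0 ≤ 1) (hε : 0 < ε) (hε1 : ε ≤ 1) (hCEε : 8 * (CE * √ε) ≤ 1) (hK : 0 ≤ K)
    (hCP : 0 < CP) (hCL : 0 < CL) (hCS : 0 < CS) (hCG : 0 < CG) (hCE : 0 < CE) (hM : 0 ≤ M)
    (hΛ : 0 ≤ Λ) (h0H : s0 ∈ H)
    (hHae : ∀ᵐ t ∂(volume.restrict (Ioo s0 s1)), t ∈ H)
    (hbd : ∃ B, ∀ t ∈ H, s0 ≤ t → t ≤ s1 → E t ≤ B)
    (hen : ∀ t ∈ H, s0 ≤ t → t ≤ s1 → IntegrableOn F (Ioo s0 t) ∧ E t ≤ ∫ x in Ioo s0 t, F x)
    (hDi : IntegrableOn D (Ioo s0 s1)) (hD : ∀ t ∈ H, s0 ≤ t → t ≤ s1 → 0 ≤ D t)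
    (hE : ∀ t ∈ H, s0 ≤ t → t ≤ s1 → 0 ≤ E t)
    (hGi : IntegrableOn G (Ioo s0 s1)) (hG : ∀ t ∈ H, s0 ≤ t → t ≤ s1 → 0 ≤ G t)
    (hGε : ∫ t in Ioo s0 s1, G t ≤ ε)
    (hTi : IntegrableOn T (Ioo s0 s1)) (hT : ∀ t, 0 ≤ T t)
    (hTΛ : ∫ t in Ioo s0 s1, T t ≤ CS * Λ)
    (hUi : IntegrableOn U (Ioo s0 s1)) (hU : ∀ t, 0 ≤ U t)
    (hUΛ : ∫ t in Ioo s0 s1, U t ≤ CG * (Λ * √ε + √Λ * ε))
    (hineq : ∀ t ∈ H, s0 < t → t < s1 → F t ≤ -2 * D t + M * (K * ε)
      + CP * (G t * √(K * ε) + √(G t) * (K * ε) + G t * √(E t) + CL * √Λ * T t + U t)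
      + CE * (√(G t) * E t + (√(G t) + G t) * (√M * √(E t)))) :
    ∀ t ∈ H, s0 ≤ t → t ≤ s1 → E t + 2 * ∫ x in Ioo s0 t, D x
      ≤ 2 * (M + 3 * CP + (CP + 3 * CE * √M) ^ 2 + CP * CL * CS + 2 * CP * CG)
        * ((1 + K) * ε + Λ * √Λ + Λ * √ε) := by
  obtain ⟨X, hX⟩ : ∃ X : Set ℝ, X = E '' (H ∩ Icc s0 s1) := ⟨_, rfl⟩
  have hXb : BddAbove X := by
    obtain ⟨B, hB⟩ := hbd
    refine ⟨B, ?_⟩
    rw [hX]
    rintro _ ⟨t, ht, rfl⟩
    exact hB t ht.1 ht.2.1 ht.2.2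
  have hXn : X.Nonempty := by
    rw [hX]
    exact ⟨_, s0, ⟨h0H, le_rfl, h01⟩, rfl⟩
  obtain ⟨S, hS⟩ : ∃ S, S = sSup X := ⟨_, rfl⟩
  have hmax : ∀ t ∈ H, s0 ≤ t → t ≤ s1 → E t ≤ S := by
    intro t ht h1 h2
    rw [hS]
    apply le_csSup hXb
    rw [hX]
    exact ⟨t, ⟨ht, h1, h2⟩, rfl⟩
  have hS0 : 0 ≤ S := (hE s0 h0H le_rfl h01).trans (hmax s0 h0H le_rfl h01)
  have hsε : 0 < √ε := Real.sqrt_pos.2 hε
  obtain ⟨c0, hc0⟩ : ∃ c0, c0 = M * (K * ε) + CP * (√ε * (K * ε)) + CE * (√ε * S)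
    + CE * (√ε * (√M * √S)) := ⟨_, rfl⟩
  obtain ⟨c1, hc1⟩ : ∃ c1, c1 = CP * (√(K * ε) + K * ε / √ε + √S)
    + CE * (S / √ε + √M * √S / √ε + √M * √S) := ⟨_, rfl⟩
  have hc00 : 0 ≤ c0 := by rw [hc0]; positivity
  have hc10 : 0 ≤ c1 := by rw [hc1]; positivity
  obtain ⟨g, hg⟩ : ∃ g : ℝ → ℝ, g = fun t => c0 + G t * c1 + T t * (CP * (CL * √Λ)) + U t * CP :=
    ⟨_, rfl⟩
  have hc : ∀ c : ℝ, IntegrableOn (fun _ : ℝ => c) (Ioo s0 s1) := fun c =>
      integrableOn_const (by simp)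
  have hgi : IntegrableOn g (Ioo s0 s1) := by
    rw [hg]
    exact (((hc _).add (hGi.mul_const _)).add (hTi.mul_const _)).add (hUi.mul_const _)
  have hg0 : ∀ᵐ t ∂(volume.restrict (Ioo s0 s1)), 0 ≤ g t := by
    filter_upwards [hHae, ae_restrict_mem measurableSet_Ioo] with t ht ht2
    have h1 := hG t ht ht2.1.le ht2.2.le
    have h2 := hT t
    have h3 := hU t
    rw [hg]
    positivity
  have hkey : ∀ t ∈ H, s0 ≤ t → t ≤ s1 →
      E t + 2 * ∫ x in Ioo s0 t, D x ≤ ∫ x in Ioo s0 s1, g x := by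
    intro t ht ht1 ht2
    have hsub : Ioo s0 t ⊆ Ioo s0 s1 := Ioo_subset_Ioo_right ht2
    have hDt : IntegrableOn D (Ioo s0 t) := hDi.mono_set hsub
    have hgt : IntegrableOn g (Ioo s0 t) := hgi.mono_set hsub
    obtain ⟨hFi, hle⟩ := hen t ht ht1 ht2
    have h1 : ∫ x in Ioo s0 t, F x ≤ ∫ x in Ioo s0 t, (-2 * D x + g x) := by
      apply integral_mono_ae hFi ((hDt.const_mul (-2)).add hgt)
      have h3 : ∀ᵐ x ∂(volume.restrict (Ioo s0 t)), x ∈ H :=
        ae_mono (Measure.restrict_mono hsub le_rfl) hHae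
      filter_upwards [h3, ae_restrict_mem measurableSet_Ioo] with x hx hxt
      have hx2 : x < s1 := hxt.2.trans_le ht2
      refine (hineq x hx hxt.1 hx2).trans ?_
      change _ ≤ -2 * D x + g x
      rw [hg]
      have hG0 := hG x hx hxt.1.le hx2.le
      have hT0 := hT x
      have hU0 := hU x
      have h2 : √(G x) ≤ √ε + G x / √ε := sqrt_le_aux hε hG0
      have h3 : √(E x) ≤ √S := Real.sqrt_le_sqrt (hmax x hx hxt.1.le hx2.le)
      have h3' : E x ≤ S := hmax x hx hxt.1.le hx2.le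
      have h3'' : 0 ≤ E x := hE x hx hxt.1.le hx2.le
      have h2' : 0 ≤ √ε + G x / √ε := by positivity
      have h4 : √(G x) * (K * ε) ≤ (√ε + G x / √ε) * (K * ε) :=
        mul_le_mul_of_nonneg_right h2 (by positivity)
      have h5 : G x * √(E x) ≤ G x * √S := mul_le_mul_of_nonneg_left h3 hG0
      have h6 : √(G x) * E x ≤ (√ε + G x / √ε) * S :=
        mul_le_mul h2 h3' h3'' h2'
      have h7 : (√(G x) + G x) * (√M * √(E x)) ≤ (√ε + G x / √ε + G x) * (√M * √S) :=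
        mul_le_mul (by linarith) (mul_le_mul_of_nonneg_left h3 (Real.sqrt_nonneg _))
          (by positivity) (by positivity)
      have h8 : CP * (G x * √(K * ε) + √(G x) * (K * ε) + G x * √(E x) + CL * √Λ * T x + U x)
          ≤ CP * (G x * √(K * ε) + (√ε + G x / √ε) * (K * ε) + G x * √S + CL * √Λ * T x
            + U x) :=
        mul_le_mul_of_nonneg_left (by linarith) hCP.le
      have h9 : CE * (√(G x) * E x + (√(G x) + G x) * (√M * √(E x)))
          ≤ CE * ((√ε + G x / √ε) * S + (√ε + G x / √ε + G x) * (√M * √S)) :=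
        mul_le_mul_of_nonneg_left (by linarith) hCE.le
      have h10 : c0 + G x * c1 + T x * (CP * (CL * √Λ)) + U x * CP
          = M * (K * ε) + CP * (G x * √(K * ε) + (√ε + G x / √ε) * (K * ε) + G x * √S
            + CL * √Λ * T x + U x)
            + CE * ((√ε + G x / √ε) * S + (√ε + G x / √ε + G x) * (√M * √S)) := by
        rw [hc0, hc1]
        ring
      simp only
      linarith
    rw [integral_add (hDt.const_mul (-2)) hgt, integral_const_mul] at h1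
    have h2 : ∫ x in Ioo s0 t, g x ≤ ∫ x in Ioo s0 s1, g x :=
      setIntegral_mono_set hgi hg0 hsub.eventuallyLE
    linarith
  have hval : ∫ x in Ioo s0 s1, g x ≤ c0 + ε * c1 + CS * Λ * (CP * (CL * √Λ))
      + CG * (Λ * √ε + √Λ * ε) * CP := by
    have hcv : ∀ c : ℝ, ∫ _ in Ioo s0 s1, c = (s1 - s0) * c := by
      intro c
      rw [setIntegral_const]
      simp [Measure.real, h01]
    have hA : IntegrableOn (fun t => c0 + G t * c1) (Ioo s0 s1) := (hc _).add (hGi.mul_const _)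
    have hB : IntegrableOn (fun t => c0 + G t * c1 + T t * (CP * (CL * √Λ))) (Ioo s0 s1) :=
      hA.add (hTi.mul_const _)
    have i1 : ∫ x in Ioo s0 s1, g x = (s1 - s0) * c0 + (∫ t in Ioo s0 s1, G t) * c1
        + (∫ t in Ioo s0 s1, T t) * (CP * (CL * √Λ)) + (∫ t in Ioo s0 s1, U t) * CP := by
      rw [hg, integral_add hB (hUi.mul_const _), integral_add hA (hTi.mul_const _),
        integral_add (hc _) (hGi.mul_const _), hcv, integral_mul_const, integral_mul_const,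
        integral_mul_const]
    rw [i1]
    have k1 : (s1 - s0) * c0 ≤ c0 := mul_le_of_le_one_left hc00 hlen
    have k2 : (∫ t in Ioo s0 s1, G t) * c1 ≤ ε * c1 := mul_le_mul_of_nonneg_right hGε hc10
    have k3 : (∫ t in Ioo s0 s1, T t) * (CP * (CL * √Λ)) ≤ CS * Λ * (CP * (CL * √Λ)) :=
      mul_le_mul_of_nonneg_right hTΛ (by positivity)
    have k4 : (∫ t in Ioo s0 s1, U t) * CP ≤ CG * (Λ * √ε + √Λ * ε) * CP :=
      mul_le_mul_of_nonneg_right hUΛ hCP.le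
    linarith
  have hSle : S ≤ ∫ x in Ioo s0 s1, g x := by
    rw [hS]
    apply csSup_le hXn
    rw [hX]
    rintro _ ⟨t, ht, rfl⟩
    have h1 := hkey t ht.1 ht.2.1 ht.2.2
    have h2 : 0 ≤ ∫ x in Ioo s0 t, D x := by
      apply integral_nonneg_of_ae
      have h3 : ∀ᵐ x ∂(volume.restrict (Ioo s0 t)), x ∈ H :=
        ae_mono (Measure.restrict_mono (Ioo_subset_Ioo_right ht.2.2) le_rfl) hHae
      filter_upwards [h3, ae_restrict_mem measurableSet_Ioo] with x hx hxt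
      exact hD x hx hxt.1.le (hxt.2.le.trans ht.2.2)
    linarith
  obtain ⟨I, hI⟩ : ∃ I, I = ∫ x in Ioo s0 s1, g x := ⟨_, rfl⟩
  rw [← hI] at hval hSle hkey
  intro t ht h1 h2
  exact (hkey t ht h1 h2).trans
    (scal hε hε1 hCEε hK hCP hCL hCS hCG hCE hM hΛ hS0 hc0 hc1 hSle hval)

/-- extension of the integral bound to a longer interval -/
lemma ext_int {T : ℝ → ℝ} {s0 c s : ℝ} (h1 : s0 ≤ c) (h2 : c ≤ s) (hz : ∀ t ≤ c, T t = 0)
    (hi : IntegrableOn T (Ioc c s)) {X : ℝ} (hX : ∫ t in Ioc c s, T t ≤ X) :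
    IntegrableOn T (Ioo s0 s) ∧ ∫ t in Ioo s0 s, T t ≤ X := by
  have hTi2 : IntegrableOn T (Ioc s0 s) := by
    rw [← Ioc_union_Ioc_eq_Ioc h1 h2]
    refine IntegrableOn.union ?_ hi
    exact (integrableOn_zero (s := Ioc s0 c) (μ := volume)).congr_fun
      (fun t ht => (hz t ht.2).symm) measurableSet_Ioc
  refine ⟨hTi2.mono_set Ioo_subset_Ioc_self, ?_⟩
  rw [← integral_Ioc_eq_integral_Ioo]
  rw [setIntegral_eq_of_subset_of_forall_sdiff_eq_zero measurableSet_Ioc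
    (Ioc_subset_Ioc_left h1) (fun t ht => hz t (by
      by_contra h
      exact ht.2 ⟨not_le.1 h, ht.1.2⟩))]
  exact hX

lemma smooth_mov' {f : ℝ → V → ℝ} {y : ℝ → V} {b : ℝ} {H : Set ℝ}
    (hf : ContDiffOn ℝ ∞ (fun z : ℝ × V => f z.1 z.2) (Iio b ×ˢ univ))
    (hy : ContDiffOn ℝ ∞ y H) (h1 : ∀ t ∈ H, t < b) :
    ContDiffOn ℝ ∞ (fun z : ℝ × V => f z.1 (z.2 - y z.1)) (H ×ˢ univ) := by
  have hg : ContDiffOn ℝ ∞ (fun z : ℝ × V => ((z.1, z.2 - y z.1) : ℝ × V)) (H ×ˢ univ) := by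
    refine contDiffOn_fst.prodMk (contDiffOn_snd.sub ?_)
    exact hy.comp contDiffOn_fst fun z hz => hz.1
  exact hf.comp hg fun z hz => ⟨h1 _ hz.1, trivial⟩

lemma Bm_cont {H : Set ℝ} (hH : IsOpen H) {v : ℝ → V → V}
    (hv : ContDiffOn ℝ ∞ (fun z : ℝ × V => v z.1 z.2) (H ×ˢ univ)) {y : ℝ → V}
    (hy : ContinuousOn y H) (ρ : ℝ) :
    ContinuousOn (fun t => B2 (y t) ρ (v t)) H :=
  cont_of_local hH fun α β hsub =>
    (Pool.Agent.W298.ME.CTM.t_CTM Pool.Agent.W333.MD.t_PCONT α β ρ v y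
      (hv.mono (prod_mono hsub subset_rfl)) (hy.mono hsub)).2


theorem t_WSTEP2 (hT : S_TF2) (hE : S_EN2H) (hP : S_PK2) (hL : S_L4) (hS : S_TSUM)
    (hG : S_TSUMG) (hWB : S_WB) : S_WSTEP2 := by
  obtain ⟨M, c, hM1, hc, hTF⟩ := hT
  obtain ⟨CE, hCE, hEN⟩ := hE
  obtain ⟨CP, hCP, hPK⟩ := hP M hM1
  obtain ⟨CL, hCL, hL4⟩ := hL
  obtain ⟨CS, hCS, hTS⟩ := hS
  obtain ⟨CG, hCG, hTG⟩ := hG
  obtain ⟨CB, hCB, hWB⟩ := hWB
  have hM0 : 0 ≤ M := by linarith
  obtain ⟨C₁, hC₁⟩ : ∃ C₁, C₁ = 2 * (M + 3 * CP + (CP + 3 * CE * √M) ^ 2 + CP * CL * CS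
    + 2 * CP * CG) := ⟨_, rfl⟩
  have hC₁pos : 0 < C₁ := by rw [hC₁]; positivity
  refine ⟨8 * C₁ / c, min 1 ((1 / (8 * CE)) ^ 2), by positivity, by positivity, ?_⟩
  intro ε hε hε1' H v W F k₀ G hyp K₀ hK₀ hA Λ hΛ a y s hs hs1 hpath n hn hIH
  have hε1 : ε ≤ 1 := hε1'.trans (min_le_left _ _)
  have hCEε : 8 * (CE * √ε) ≤ 1 := by
    have h1 : √ε ≤ 1 / (8 * CE) := by
      rw [← Real.sqrt_sq (by positivity : 0 ≤ 1 / (8 * CE))]
      exact Real.sqrt_le_sqrt (hε1'.trans (min_le_right _ _))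
    rw [le_div_iff₀ (by positivity)] at h1
    linarith
  have hvsm := hyp.smooth_v
  have hWsm := hyp.smooth_W
  have hslice := hyp.slice
  have hGi := hyp.Gint
  have hGε := hyp.Gle
  obtain ⟨-, δ, hδ, hsδ, hysm, hFc, hyd⟩ := hpath
  obtain ⟨φ, hφ⟩ := hTF 0 s n hn
  have hs2 : s < 0 := (hyp.subH hs).2
  have hrr : rr 2 ^ 2 = 1 / 16 := by rw [rr_two]; norm_num
  obtain ⟨s0, hs0H, hs0a, hs0b⟩ := exists_mem hyp.fullH (a := s - 1 / 8) (b := s - 1 / 16)
    (by linarith) (by linarith) (by linarith)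
  have h01 : s0 ≤ s := by linarith
  obtain ⟨α, hα⟩ : ∃ α, α = s - 1 / 8 := ⟨_, rfl⟩
  have hα1 : -1 ≤ α := by rw [hα]; linarith
  have hαs0 : α < s0 := by rw [hα]; exact hs0a
  obtain ⟨β, hβ⟩ : ∃ β, β = min (s + δ) (s + rr n ^ 2) := ⟨_, rfl⟩
  have hsβ : s < β := by
    rw [hβ]
    exact lt_min (by linarith) (by have := pow_pos (rr_pos n) 2; linarith)
  have hβδ : β ≤ s + δ := by rw [hβ]; exact min_le_left _ _
  have hβ0 : β ≤ 0 := by linarith
  have hβn : β ≤ s + rr n ^ 2 := by rw [hβ]; exact min_le_right _ _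
  rw [← hα] at hysm hyd hFc
  have hsubJ : Ioo α β ⊆ Ioo α (s + δ) := Ioo_subset_Ioo_right hβδ
  have hyball : ∀ t ∈ Ioo α β, y t ∈ ball (0 : V) (3 / 8) := fun t ht => (hyd t (hsubJ ht)).2
  have hyder0 : ∀ t ∈ Ioo α β, HasDerivAt y (F t (y t)) t := fun t ht => (hyd t (hsubJ ht)).1
  have hycont : ContinuousOn y (Ioo α β) := fun t ht =>
    (hyder0 t ht).continuousAt.continuousWithinAt
  have hyder : ∀ t ∈ H, t ∈ Ioo α β →
      HasDerivAt y (fun i => v t (y t) i - W t (y t) i) t := by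
    intro t htH ht
    have h1 : F t (y t) = fun i => v t (y t) i - W t (y t) i := by
      funext i
      exact hyp.eqF t htH (y t) (ball_subset_ball (by norm_num) (hyball t ht)) i
    rw [← h1]
    exact hyder0 t ht
  -- the test function
  obtain ⟨Ψ, hΨ⟩ : ∃ Ψ : ℝ → V → ℝ, Ψ = fun t z => ∑ k ∈ Finset.Icc 2 n, φ k t z := ⟨_, rfl⟩
  have hΨsm : ContDiffOn ℝ ∞ (fun z : ℝ × V => Ψ z.1 z.2) (Iio (s + rr n ^ 2) ×ˢ univ) := by
    rw [hΨ]
    exact ContDiffOn.sum fun k _ => hφ.smooth k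
  have hΨsupp : ∀ t, ∀ z ∉ ball (0 : V) (1 / 4), Ψ t z = 0 := by
    intro t z hz
    rw [hΨ]
    apply Finset.sum_eq_zero
    intro k hk
    apply hφ.supp k hk t z
    intro h
    exact hz (ball_subset_ball ((rr_le (Finset.mem_Icc.1 hk).1).trans rr_two.le) h)
  obtain ⟨Φ, hΦ⟩ : ∃ Φ : ℝ → V → ℝ, Φ = fun t z => Ψ t (z - y t) := ⟨_, rfl⟩
  obtain ⟨H', hH'⟩ : ∃ H' : Set ℝ, H' = H ∩ Ioo α β := ⟨_, rfl⟩
  have hH'o : IsOpen H' := by rw [hH']; exact hyp.openH.inter isOpen_Ioo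
  have hH'H : H' ⊆ H := by rw [hH']; exact inter_subset_left
  have hH'J : H' ⊆ Ioo α β := by rw [hH']; exact inter_subset_right
  have hysm' : ContDiffOn ℝ ∞ y H' := by
    apply hysm.mono
    rw [hH']
    exact inter_subset_inter_right _ hsubJ
  have hΦsm : ContDiffOn ℝ ∞ (fun z : ℝ × V => Φ z.1 z.2) (H' ×ˢ univ) := by
    rw [hΦ]
    exact smooth_mov' hΨsm hysm' fun t ht => (hH'J ht).2.trans_le hβn
  have hmv : ∀ (b z : V) (ρ : ℝ), z ∉ ball b ρ → z - b ∉ ball (0 : V) ρ := by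
    intro b z ρ h h'
    apply h
    rw [mem_ball, dist_zero_right] at h'
    rw [mem_ball, dist_eq_norm]
    exact h'
  have hΦsupp : ∀ t, ∀ z ∉ ball (y t) (1 / 4), Φ t z = 0 := by
    intro t z hz
    rw [hΦ]
    exact hΨsupp t _ (hmv _ _ _ hz)
  have hΦ1 : ∀ t ∈ Ioo α β, ∀ z ∉ ball (0 : V) 1, Φ t z = 0 := by
    intro t ht z hz
    apply hΦsupp t z
    intro h
    apply hz
    have h1 := hyball t ht
    rw [mem_ball] at *
    have := dist_triangle z (y t) 0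
    linarith
  have hΦpos : ∀ t ≤ s, ∀ z, 0 ≤ Φ t z := by
    intro t ht z
    rw [hΦ, hΨ]
    exact hφ.pos t ht _
  have hΨslice : ∀ t < s + rr n ^ 2, ContDiff ℝ ∞ (Ψ t) := fun t ht =>
    slice_smooth hΨsm ht
  have hΦslice : ∀ t ∈ Ioo α β, ContDiff ℝ ∞ (Φ t) := by
    intro t ht
    rw [hΦ]
    exact (hΨslice t (ht.2.trans_le hβn)).comp (contDiff_id.sub contDiff_const)
  obtain ⟨κ, hκ⟩ : ∃ κ, κ = ∑ k ∈ Finset.Icc 2 n, M * 8 ^ k := ⟨_, rfl⟩
  have hκ0 : 0 ≤ κ := by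
    rw [hκ]
    exact Finset.sum_nonneg fun k _ => by positivity
  have hΦup : ∀ t ≤ s, ∀ z, Φ t z ≤ κ := by
    intro t ht z
    rw [hΦ, hΨ, hκ]
    exact Finset.sum_le_sum fun k hk => (le_abs_self _).trans (hφ.size k hk t ht _)
  have hvs : ∀ t ∈ H, ContDiff ℝ ∞ (v t) := fun t ht => slice_smooth hvsm ht
  have hWs : ∀ t ∈ H, ContDiff ℝ ∞ (W t) := fun t ht => slice_smooth hWsm ht
  have hWsm' : ContDiffOn ℝ ∞ (fun z : ℝ × V => W z.1 z.2) (H' ×ˢ univ) :=
    hWsm.mono (prod_mono hH'H subset_rfl)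
  have hvsm' : ContDiffOn ℝ ∞ (fun z : ℝ × V => v z.1 z.2) (H' ×ˢ univ) :=
    hvsm.mono (prod_mono hH'H subset_rfl)
  have hmemJ : ∀ t, s0 ≤ t → t ≤ s → t ∈ Ioo α β := fun t h1 h2 =>
    ⟨hαs0.trans_le h1, h2.trans_lt hsβ⟩
  have hG0 : ∀ t ∈ H, 0 ≤ G t := by
    intro t ht
    obtain ⟨P, hsl⟩ := hslice t ht
    exact (B2_nonneg _ _ _).trans hsl.grad
  have hGB : ∀ t ∈ H, B2 0 1 (W t) ≤ CB * G t := by
    intro t ht
    obtain ⟨P, hsl⟩ := hslice t ht
    exact (hWB _ _ _ _ _ hsl).2.1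
  have hsub : Ioo s0 s ⊆ Ioo (-1 : ℝ) 0 := Ioo_subset_Ioo (by linarith) hs2.le
  have hHae := ae_mem hyp.fullH hsub measurableSet_Ioo
  -- the energy and the dissipation
  obtain ⟨E, hEdef⟩ : ∃ E : ℝ → ℝ, E = fun t => ∫ z, nsq (W t) z * Φ t z := ⟨_, rfl⟩
  obtain ⟨D, hDdef⟩ : ∃ D : ℝ → ℝ, D = fun t => ∫ z, gsq (W t) z * Φ t z := ⟨_, rfl⟩
  have hEW : EW W Ψ y = E := by
    rw [hEdef, hΦ]
    rfl
  have hE0 : ∀ t ∈ H, s0 ≤ t → t ≤ s → 0 ≤ E t := by
    intro t _ _ ht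
    rw [hEdef]
    exact integral_nonneg fun z => mul_nonneg (nsq_nonneg _ _) (hΦpos t ht z)
  have hD0 : ∀ t ∈ H, s0 ≤ t → t ≤ s → 0 ≤ D t := by
    intro t _ _ ht
    rw [hDdef]
    exact integral_nonneg fun z => mul_nonneg (gsq_nonneg _ _) (hΦpos t ht z)
  have hEs0 : E s0 = 0 := by
    rw [hEdef]
    have : ∀ z, Φ s0 z = 0 := by
      intro z
      rw [hΦ, hΨ]
      apply Finset.sum_eq_zero
      intro k hk
      apply hφ.suppt k hk
      have := rr_sq_le (Finset.mem_Icc.1 hk).1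
      linarith
    simp [this]
  have hEb : ∃ B, ∀ t ∈ H, s0 ≤ t → t ≤ s → E t ≤ B := by
    obtain ⟨B, hB⟩ := hyp.bdd
    refine ⟨κ * B, fun t ht h1 h2 => ?_⟩
    rw [hEdef]
    have hJ := hmemJ t h1 h2
    refine (up_term (nsq_cont (hWs t ht)) (nsq_nonneg _) (hΦslice t hJ).continuous
      (hΦ1 t hJ) (hΦup t h2)).trans ?_
    exact mul_le_mul_of_nonneg_left (hB t ht) hκ0
  have hMT : MT H α β Ψ y (fun t => F t (y t)) (1 / 4) := by
    refine ⟨hα1, hβ0, ?_, by norm_num, fun t _ z hz => hΨsupp t z hz, hyder0, hFc.mono hsubJ,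
      hysm.mono (inter_subset_inter_right _ hsubJ), ?_⟩
    · exact hΨsm.mono (prod_mono (fun x hx => hx.2.trans_le hβn) subset_rfl)
    · intro t ht
      have h1 := hyball t ht
      rw [mem_ball, dist_zero_right] at h1
      linarith
  have hen : ∀ t ∈ H, s0 ≤ t → t ≤ s → IntegrableOn (deriv E) (Ioo s0 t) ∧
      E t ≤ ∫ x in Ioo s0 t, deriv E x := by
    intro t ht h1 h2
    obtain ⟨h3, h4⟩ := hyp.en α β (1 / 4) Ψ y (fun t => F t (y t)) hMT s0 hs0H t ht hαs0 h1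
      (h2.trans_lt hsβ) (fun τ hτ z => by
        rw [hΨ]
        exact hφ.pos τ (hτ.2.trans h2) z)
    rw [hEW] at h3 h4
    rw [hEs0, sub_zero] at h4
    exact ⟨h3, h4⟩
  have hDle : ∀ t ∈ H, s0 ≤ t → t ≤ s → D t ≤ κ * (CB * G t) := by
    intro t ht h1 h2
    rw [hDdef]
    have hJ := hmemJ t h1 h2
    refine (up_term (gsq_cont (hWs t ht)) (gsq_nonneg _) (hΦslice t hJ).continuous
      (hΦ1 t hJ) (hΦup t h2)).trans ?_
    exact mul_le_mul_of_nonneg_left (hGB t ht) hκ0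
  have hH'ae : ∀ᵐ t ∂(volume.restrict (Ioo s0 s)), t ∈ H' := by
    filter_upwards [hHae, ae_restrict_mem measurableSet_Ioo] with t ht ht2
    rw [hH']
    exact ⟨ht, hmemJ t ht2.1.le ht2.2.le⟩
  have hDi : IntegrableOn D (Ioo s0 s) := by
    have h1 : ContinuousOn D H' := by
      rw [hDdef]
      exact D_cont hH'o hWsm' hΦsm (fun t ht z hz => hΦ1 t (hH'J ht) z hz)
    refine Integrable.mono' (((hGi.mono_set hsub).const_mul CB).const_mul κ)
      (meas_of_cont' hH'o hH'ae measurableSet_Ioo h1) ?_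
    filter_upwards [hHae, ae_restrict_mem measurableSet_Ioo] with t ht ht2
    rw [Real.norm_eq_abs, abs_of_nonneg (hD0 t ht ht2.1.le ht2.2.le)]
    exact hDle t ht ht2.1.le ht2.2.le
  have hGiI : IntegrableOn G (Ioo s0 s) := hGi.mono_set hsub
  have hGεI : ∫ t in Ioo s0 s, G t ≤ ε := by
    refine le_trans ?_ hGε
    apply setIntegral_mono_set hGi
    · filter_upwards [ae_mem hyp.fullH subset_rfl measurableSet_Ioo] with x hx using hG0 x hx
    · exact hsub.eventuallyLE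
  -- the sums over the scales
  have hs0c : s0 ≤ s - rr 2 ^ 2 := by rw [hrr]; linarith
  have hcs : s - rr 2 ^ 2 ≤ s := by rw [hrr]; linarith
  have hJc : Ioc (s - rr 2 ^ 2) s ⊆ Ioo (-1 : ℝ) 0 := by
    intro t ht
    rw [hrr] at ht
    exact ⟨by linarith [ht.1], ht.2.trans_lt hs2⟩
  have hHaec := ae_mem hyp.fullH hJc measurableSet_Ioc
  have hH'aec : ∀ᵐ t ∂(volume.restrict (Ioc (s - rr 2 ^ 2) s)), t ∈ H' := by
    filter_upwards [hHaec, ae_restrict_mem measurableSet_Ioc] with t ht ht2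
    rw [hH']
    exact ⟨ht, hmemJ t (hs0c.trans ht2.1.le) ht2.2⟩
  have hBi : ∀ (i : ℕ), IntegrableOn (fun t => B2 (y t) (rr (i + 2)) (W t))
      (Ioc (s - rr 2 ^ 2) s) := by
    intro i
    refine Integrable.mono' ((hGi.mono_set hJc).const_mul CB)
      (meas_of_cont' hH'o hH'aec measurableSet_Ioc
        (Bm_cont hH'o hWsm' (hycont.mono hH'J) _)) ?_
    filter_upwards [hHaec, ae_restrict_mem measurableSet_Ioc] with t ht ht2
    rw [Real.norm_eq_abs, abs_of_nonneg (B2_nonneg _ _ _)]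
    refine (B2_mono (hWs t ht) ?_).trans (hGB t ht)
    intro z hz
    have h1 := hyball t (hmemJ t (hs0c.trans ht2.1.le) ht2.2)
    have h2 := (rr_le (by omega : 2 ≤ i + 2)).trans rr_two.le
    rw [mem_ball] at *
    have := dist_triangle z (y t) 0
    linarith
  obtain ⟨hTi, hTΛ⟩ := hTS Λ s n (fun i t => B2 (y t) (rr i) (W t)) hΛ
    (fun i _ t => B2_nonneg _ _ _) (by
      intro i hi
      rw [Finset.mem_Icc] at hi
      refine ⟨?_, (hIH i hi.1 hi.2).2⟩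
      obtain ⟨j, rfl⟩ : ∃ j, i = j + 2 := ⟨i - 2, by omega⟩
      apply (hBi j).mono_set
      apply Ioc_subset_Ioc_left
      have := rr_sq_le hi.1
      linarith)
  obtain ⟨T, hTdef⟩ : ∃ T : ℝ → ℝ, T = fun t => ∑ k ∈ Finset.Icc 5 n, if s - rr k ^ 2 < t then
      √(1 / 8 ^ k) * √(rr k) * (16 ^ k * (4 ^ k * (Λ / 8 ^ (k - 3)) + B2 (y t) (rr (k - 3)) (W t))
        + ∑ j ∈ Finset.Ico 3 (k - 2), √(32 ^ j) * √(8 ^ k) *
          (4 ^ k * (Λ / 8 ^ (j - 1)) + B2 (y t) (rr (j - 1)) (W t))) else 0 := ⟨_, rfl⟩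
  rw [← hTdef] at hTi
  have hTΛ' : ∫ t in Ioc (s - rr 2 ^ 2) s, T t ≤ CS * Λ := by rw [hTdef]; exact hTΛ
  have hT0 : ∀ t, 0 ≤ T t := by
    intro t
    rw [hTdef]
    apply Finset.sum_nonneg
    intro k _
    split_ifs
    · have h1 := B2_nonneg (y t) (rr (k - 3)) (W t)
      have h2 : 0 ≤ ∑ j ∈ Finset.Ico 3 (k - 2), √(32 ^ j) * √(8 ^ k) *
          (4 ^ k * (Λ / 8 ^ (j - 1)) + B2 (y t) (rr (j - 1)) (W t)) := by
        apply Finset.sum_nonneg
        intro j _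
        have h1 := B2_nonneg (y t) (rr (j - 1)) (W t)
        positivity
      positivity
    · exact le_rfl
  have hTz : ∀ t ≤ s - rr 2 ^ 2, T t = 0 := by
    intro t ht
    rw [hTdef]
    apply Finset.sum_eq_zero
    intro k hk
    rw [Finset.mem_Icc] at hk
    rw [if_neg]
    rw [not_lt]
    have := rr_sq_le (show 2 ≤ k by omega)
    linarith
  obtain ⟨hTi3, hTΛ3⟩ := ext_int hs0c hcs hTz hTi hTΛ'
  have habs : ∫ t in Ioc (s - rr 2 ^ 2) s, |G t| = ∫ t in Ioc (s - rr 2 ^ 2) s, G t := by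
    apply integral_congr_ae
    filter_upwards [hHaec] with t ht
    exact abs_of_nonneg (hG0 t ht)
  have hGεc : ∫ t in Ioc (s - rr 2 ^ 2) s, G t ≤ ε := by
    refine le_trans ?_ hGε
    apply setIntegral_mono_set hGi
    · filter_upwards [ae_mem hyp.fullH subset_rfl measurableSet_Ioo] with x hx using hG0 x hx
    · exact hJc.eventuallyLE
  obtain ⟨hUi, hUΛ⟩ := hTG Λ s ε n (fun t => |G t|) hΛ hε (fun t => abs_nonneg _)
    ((hGi.mono_set hJc).abs) (by rw [habs]; exact hGεc)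
  obtain ⟨U, hUdef⟩ : ∃ U : ℝ → ℝ, U = fun t => ∑ k ∈ Finset.Icc 5 n, if s - rr k ^ 2 < t then
      √|G t| * Λ + |G t| * (√Λ * (√(2 ^ k) * √(1 / 8 ^ k) + 2 ^ k * √(rr n ^ 2 + (s - t))))
        else 0 := ⟨_, rfl⟩
  rw [← hUdef] at hUi
  have hUΛ' : ∫ t in Ioc (s - rr 2 ^ 2) s, U t ≤ CG * (Λ * √ε + √Λ * ε) := by
    rw [hUdef]; exact hUΛ
  have hU0 : ∀ t, 0 ≤ U t := by
    intro t
    rw [hUdef]
    apply Finset.sum_nonneg
    intro k _
    split_ifs
    · have := abs_nonneg (G t)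
      positivity
    · exact le_rfl
  have hUz : ∀ t ≤ s - rr 2 ^ 2, U t = 0 := by
    intro t ht
    rw [hUdef]
    apply Finset.sum_eq_zero
    intro k hk
    rw [Finset.mem_Icc] at hk
    rw [if_neg]
    rw [not_lt]
    have := rr_sq_le (show 2 ≤ k by omega)
    linarith
  obtain ⟨hUi3, hUΛ3⟩ := ext_int hs0c hcs hUz hUi hUΛ'
  -- the inequality at one time
  have hpt : ∀ t ∈ H, s0 < t → t < s → deriv E t ≤ -2 * D t + M * (K₀ * ε)
      + CP * (G t * √(K₀ * ε) + √(G t) * (K₀ * ε) + G t * √(E t) + CL * √Λ * T t + U t)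
      + CE * (√(G t) * E t + (√(G t) + G t) * (√M * √(E t))) := by
    intro t htH h1t h2t
    have htβ : t ∈ Ioo α β := hmemJ t h1t.le h2t.le
    have htH' : t ∈ H' := by rw [hH']; exact ⟨htH, htβ⟩
    have hvt := hvs t htH
    have hWt := hWs t htH
    have hyt := hyball t htβ
    have htA : -9 / 16 < t := by linarith
    have htn : t < s + rr n ^ 2 := htβ.2.trans_le hβn
    obtain ⟨P, hsl⟩ := hslice t htH
    obtain ⟨E', hE', hle⟩ := hEN H' v W Φ hH'o hvsm' hWsm' hΦsm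
      (fun τ hτ z hz => hΦ1 τ (hH'J hτ) z hz) t htH' (hΦpos t h2t.le) P (G t) hsl
    have hdE : deriv E t = E' := by
      rw [hEdef]
      exact hE'.deriv
    rw [hdE]
    refine hle.trans ?_
    have hcomb := combine hWt hvt (hΦslice t htβ) (hΦ1 t htβ)
      (h := fun z => deriv (fun s' => Ψ s' (z - y t)) t) (dt := fun z => deriv (fun s' => Φ s' z) t)
      (fun i => v t (y t) i - W t (y t) i) (by
        intro z
        simp only [hΦ]
        rw [deriv_mov hΨsm htn (hyder t htH htβ)]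
        congr 1
        exact Finset.sum_congr rfl fun j _ => by rw [pd_mov])
      ((dt_cont hΨsm htn).comp (continuous_id.sub continuous_const)) (by
        intro z hz
        have h1 : z - y t ∉ ball (0 : V) (1 / 4) := by
          apply hmv
          intro h
          apply hz
          rw [mem_ball] at *
          rw [mem_closedBall]
          have := dist_triangle z (y t) 0
          linarith
        have h2 : (fun s' => Ψ s' (z - y t)) = fun _ => 0 := funext fun s' => hΨsupp s' _ h1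
        simp only [h2, deriv_const])
    have hH := heat2 hWt hM0 hyt
      (F := fun z => deriv (fun s' => Ψ s' (z - y t)) t + lap (Φ t) z) (by
        intro z hz
        have h1 : z - y t ∉ ball (0 : V) (1 / 4) :=
          hmv _ _ _ fun h => hz (ball_subset_closedBall h)
        have h2 : (fun s' => Ψ s' (z - y t)) = fun _ => 0 := funext fun s' => hΨsupp s' _ h1
        simp only [h2, deriv_const, lap_zero_cl (hΦsupp t) z hz, add_zero]) (by
        intro z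
        have h1 := hφ.heat t h2t.le (z - y t)
        have h2 : lap (Φ t) z = lap (fun x => ∑ k ∈ Finset.Icc 2 n, φ k t x) (z - y t) := by
          rw [hΦ, hΨ]
          exact lap_mov (fun x => ∑ k ∈ Finset.Icc 2 n, φ k t x) (y t) z
        simp only [h2, hΨ]
        exact h1)
    have hH2 : M * A2 0 (3 / 4) (W t) ≤ M * (K₀ * ε) :=
      mul_le_mul_of_nonneg_left (hA t htH htA) hM0
    have hsum : ∀ z, ∑ k ∈ (Finset.Icc 2 n).filter (fun k => s - rr k ^ 2 < t), φ k t (z - y t)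
        = Φ t z := by
      intro z
      rw [hΦ, hΨ]
      apply Finset.sum_filter_of_ne
      intro k hk hne
      by_contra hcon
      exact hne (hφ.suppt k hk t (not_lt.1 hcon) _)
    have hfil : ((Finset.Icc 2 n).filter (fun k => s - rr k ^ 2 < t)).filter (fun k => 5 ≤ k)
        = (Finset.Icc 5 n).filter (fun k => s - rr k ^ 2 < t) := by
      ext k
      simp only [Finset.mem_filter, Finset.mem_Icc]
      constructor
      · rintro ⟨⟨⟨h1, h2⟩, h3⟩, h4⟩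
        exact ⟨⟨h4, h2⟩, h3⟩
      · rintro ⟨⟨h1, h2⟩, h3⟩
        exact ⟨⟨⟨by omega, h2⟩, h3⟩, h1⟩
    have hsum5 : ∀ z, ∑ k ∈ (Finset.Icc 5 n).filter (fun k => s - rr k ^ 2 < t), φ k t (z - y t)
        = ∑ k ∈ Finset.Icc 5 n, φ k t (z - y t) := by
      intro z
      apply Finset.sum_filter_of_ne
      intro k hk hne
      rw [Finset.mem_Icc] at hk
      by_contra hcon
      exact hne (hφ.suppt k (Finset.mem_Icc.2 ⟨by omega, hk.2⟩) t (not_lt.1 hcon) _)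
    have hintΦ : ∫ z, Φ t z ≤ M := by
      have h1 : ∫ z, Φ t z = ∫ z, Ψ t z := by
        rw [hΦ]
        exact integral_sub_right_eq_self (Ψ t) (y t)
      rw [h1, hΨ]
      exact hφ.int t h2t.le
    have hPKt := hPK (v t) (W t) (fun x i => deriv (fun s => W s x i) t) P (G t) hsl (y t) hyt
      ((Finset.Icc 2 n).filter (fun k => s - rr k ^ 2 < t)) (√(rr n ^ 2 + (s - t)))
      (fun k z => φ k t (z - y t)) (Real.sqrt_nonneg _) (by
        intro k hk
        rw [Finset.mem_filter] at hk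
        have hk1 := hk.1
        have hk2 := Finset.mem_Icc.1 hk1
        refine ⟨hk2.1, act hk2.2 h2t.le hk.2, ?_, ?_, ?_, ?_, ?_⟩
        · have h1 : ContDiff ℝ ∞ (φ k t) := slice_smooth (hφ.smooth k) htn
          exact h1.comp (contDiff_id.sub contDiff_const)
        · intro z hz
          exact hφ.supp k hk1 t _ (hmv _ _ _ hz)
        · intro z
          exact hφ.size k hk1 t h2t.le _
        · intro z
          exact hφ.size2 k hk1 t h2t.le _
        · intro z i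
          rw [pd_mov]
          exact hφ.grad k hk1 t h2t.le _ i)
      (by intro z; rw [hsum]; exact hΦpos t h2t.le z)
      (by
        intro z
        rw [hfil, hsum, hsum5, hΦ, hΨ]
        exact hφ.out t h2t.le _)
      (by
        simp only [hsum]
        exact hintΦ)
    simp only [hsum] at hPKt
    rw [hfil] at hPKt
    have hGt := hG0 t htH
    have hPS : ∑ k ∈ (Finset.Icc 5 n).filter (fun k => s - rr k ^ 2 < t),
        (√(A2 (y t) (rr k) (W t)) * PS (y t) (W t) k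
          + √(G t) * (8 ^ k * A2 (y t) (rr k) (W t))
          + G t * (√(A2 (y t) (rr k) (W t)) * (√(2 ^ k) + √(8 ^ k)
            * (2 ^ k * √(rr n ^ 2 + (s - t)))))) ≤ CL * √Λ * T t + U t := by
      rw [hTdef, hUdef]
      simp only
      rw [← Finset.sum_filter, ← Finset.sum_filter, Finset.mul_sum, ← Finset.sum_add_distrib]
      apply Finset.sum_le_sum
      intro k hk
      rw [Finset.mem_filter, Finset.mem_Icc] at hk
      have hAk : ∀ i, 2 ≤ i → i ≤ k → A2 (y t) (rr i) (W t) ≤ Λ / 8 ^ i := by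
        intro i hi hik
        refine (hIH i hi (hik.trans hk.1.2)).1 t htH ?_ h2t.le
        have := rr_sq_le hik
        linarith [hk.2]
      have h1 := pk_term hCL hL4 hΛ hWt hk.1.1 hAk
      have h2 := pk2_term hΛ hGt (Real.sqrt_nonneg (rr n ^ 2 + (s - t))) k
        (hAk k (by omega) le_rfl)
      rw [abs_of_nonneg hGt]
      linarith
    have hsq : √(A2 0 (3 / 4) (W t)) ≤ √(K₀ * ε) := Real.sqrt_le_sqrt (hA t htH htA)
    have hEt : ∫ z, nsq (W t) z * Φ t z = E t := by rw [hEdef]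
    have hF2 : CP * (G t * √(A2 0 (3 / 4) (W t)) + √(G t) * A2 0 (3 / 4) (W t)
          + G t * √(∫ z, nsq (W t) z * Φ t z)
          + ∑ k ∈ (Finset.Icc 5 n).filter (fun k => s - rr k ^ 2 < t),
        (√(A2 (y t) (rr k) (W t)) * PS (y t) (W t) k
          + √(G t) * (8 ^ k * A2 (y t) (rr k) (W t))
          + G t * (√(A2 (y t) (rr k) (W t)) * (√(2 ^ k) + √(8 ^ k)
            * (2 ^ k * √(rr n ^ 2 + (s - t)))))))
        ≤ CP * (G t * √(K₀ * ε) + √(G t) * (K₀ * ε) + G t * √(E t) + CL * √Λ * T t + U t) := by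
      apply mul_le_mul_of_nonneg_left _ hCP.le
      have h1 := mul_le_mul_of_nonneg_left hsq hGt
      have h2 := mul_le_mul_of_nonneg_left (hA t htH htA) (Real.sqrt_nonneg (G t))
      rw [hEt]
      linarith
    have hF3 := (le_abs_self _).trans (hPKt.trans hF2)
    have hF4 : (fun y' => Φ t y') = Φ t := rfl
    rw [hF4] at hF3
    have hcs := cs_w hWt (hΦslice t htβ).continuous (hΦpos t h2t.le) (hΦ1 t htβ)
    have hcs2 : ∫ z, √(nsq (W t) z) * Φ t z ≤ √M * √(E t) := by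
      refine hcs.trans ?_
      rw [hEt]
      exact mul_le_mul_of_nonneg_right (Real.sqrt_le_sqrt hintΦ) (Real.sqrt_nonneg _)
    have hCEt : CE * (√(G t) * (∫ z, nsq (W t) z * Φ t z)
          + (√(G t) + G t) * ∫ z, √(nsq (W t) z) * Φ t z)
        ≤ CE * (√(G t) * E t + (√(G t) + G t) * (√M * √(E t))) := by
      apply mul_le_mul_of_nonneg_left _ hCE.le
      rw [hEt]
      have h1 : 0 ≤ √(G t) + G t := add_nonneg (Real.sqrt_nonneg _) hGt
      have h2 := mul_le_mul_of_nonneg_left hcs2 h1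
      linarith
    have hDt : ∫ z, gsq (W t) z * Φ t z = D t := by rw [hDdef]
    rw [hDt]
    linarith
  have hmain := wabsorb2 (E := E) (F := deriv E) (D := D) (G := G) (T := T) (U := U) (H := H)
    (s0 := s0) (s1 := s) (ε := ε) (K := K₀) (CP := CP) (CL := CL) (CS := CS) (CG := CG)
    (CE := CE) (M := M) (Λ := Λ)
    h01 (by linarith) hε hε1 hCEε hK₀ hCP hCL hCS hCG hCE hM0 hΛ hs0H hHae hEb hen hDi hD0 hE0
    hGiI (fun t ht _ _ => hG0 t ht) hGεI hTi3 hT0 hTΛ3 hUi3 hU0 hUΛ3 hpt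
  rw [← hC₁] at hmain
  obtain ⟨X, hX⟩ : ∃ X, X = (1 + K₀) * ε + Λ * √Λ + Λ * √ε := ⟨_, rfl⟩
  rw [← hX] at hmain
  rw [← hX]
  have hc8 : 0 < c * 8 ^ n := by positivity
  have hsn : s0 ≤ s - rr (n + 1) ^ 2 := by
    have := rr_sq_le (show 2 ≤ n + 1 by omega)
    linarith
  have hval : 8 * C₁ / c * X / 8 ^ (n + 1) = C₁ * X / (c * 8 ^ n) := by
    rw [pow_succ]
    field_simp
  have hlow : ∀ t, s - rr (n + 1) ^ 2 < t → t ≤ s → ∀ z ∈ ball (y t) (rr (n + 1)),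
      c * 8 ^ n ≤ Φ t z := by
    intro t h1 h2 z hz
    rw [hΦ, hΨ]
    apply hφ.low t h1 h2
    rw [mem_ball, dist_zero_right]
    rw [mem_ball, dist_eq_norm] at hz
    exact hz
  refine ⟨?_, ?_⟩
  · intro t ht ht1 ht2
    rw [hval, le_div_iff₀ hc8]
    have hst : s0 ≤ t := hsn.trans ht1.le
    have hJ := hmemJ t hst ht2
    have h1 := hmain t ht hst ht2
    have h2 : 0 ≤ ∫ x in Ioo s0 t, D x := by
      apply integral_nonneg_of_ae
      have h3 : ∀ᵐ x ∂(volume.restrict (Ioo s0 t)), x ∈ H :=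
        ae_mono (Measure.restrict_mono (Ioo_subset_Ioo_right ht2) le_rfl) hHae
      filter_upwards [h3, ae_restrict_mem measurableSet_Ioo] with x hx hxt
      exact hD0 x hx hxt.1.le (hxt.2.le.trans ht2)
    have h3 := low_term (nsq_cont (hWs t ht)) (nsq_nonneg (W t))
      (hΦslice t hJ).continuous (hΦpos t ht2) (hΦ1 t hJ) (a := y t)
      (ρ := rr (n + 1)) (κ := c * 8 ^ n) (hlow t ht1 ht2)
    have h4 : A2 (y t) (rr (n + 1)) (W t) * (c * 8 ^ n) ≤ E t := by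
      rw [hEdef, mul_comm]
      exact h3
    linarith
  · rw [hval, le_div_iff₀ hc8]
    have h1 := hmain s hs h01 le_rfl
    have h2 := hE0 s hs h01 le_rfl
    have hJ : Ioo (s - rr (n + 1) ^ 2) s ⊆ Ioo s0 s := Ioo_subset_Ioo_left hsn
    have hae : ∀ᵐ x ∂(volume.restrict (Ioo (s - rr (n + 1) ^ 2) s)), x ∈ H :=
      ae_mono (Measure.restrict_mono hJ le_rfl) hHae
    have hBint : IntegrableOn (fun t => B2 (y t) (rr (n - 1 + 2)) (W t))
        (Ioo (s - rr (n + 1) ^ 2) s) := by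
      apply (hBi (n - 1)).mono_set
      intro t ht
      have := rr_sq_le (show 2 ≤ n + 1 by omega)
      exact ⟨by linarith [ht.1], ht.2.le⟩
    rw [show n - 1 + 2 = n + 1 by omega] at hBint
    have h3 : ∫ t in Ioo (s - rr (n + 1) ^ 2) s, B2 (y t) (rr (n + 1)) (W t) * (c * 8 ^ n)
        ≤ ∫ t in Ioo (s - rr (n + 1) ^ 2) s, D t := by
      apply integral_mono_ae (hBint.mul_const _) (hDi.mono_set hJ)
      filter_upwards [hae, ae_restrict_mem measurableSet_Ioo] with t ht ht2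
      have hJt := hmemJ t (hsn.trans ht2.1.le) ht2.2.le
      have h3 := low_term (gsq_cont (hWs t ht)) (gsq_nonneg (W t))
        (hΦslice t hJt).continuous (hΦpos t ht2.2.le) (hΦ1 t hJt) (a := y t)
        (ρ := rr (n + 1)) (κ := c * 8 ^ n) (hlow t ht2.1 ht2.2.le)
      rw [hDdef, mul_comm]
      exact h3
    have h4 : ∫ t in Ioo (s - rr (n + 1) ^ 2) s, D t ≤ ∫ t in Ioo s0 s, D t := by
      apply setIntegral_mono_set hDi
      · filter_upwards [hHae, ae_restrict_mem measurableSet_Ioo] with t ht ht2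
        exact hD0 t ht ht2.1.le ht2.2.le
      · exact hJ.eventuallyLE
    have h5 : 0 ≤ ∫ t in Ioo s0 s, D t := by
      apply integral_nonneg_of_ae
      filter_upwards [hHae, ae_restrict_mem measurableSet_Ioo] with t ht ht2
      exact hD0 t ht ht2.1.le ht2.2.le
    rw [integral_mul_const] at h3
    rw [integral_Ioc_eq_integral_Ioo]
    linarith

end Pool.Agent.Y807.WStep2
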