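import Pool.Agent.Y672.DM.Defs

/-!
# The K-Bessel function `K_it`: derivatives, differential equation (job DM-A)
-/

set_option autoImplicit false

open Real MeasureTheory UpperHalfPlane Filter Topology Set
open scoped ContDiff Laplacian

namespace Pool.Agent.Y807.DMA

open Pool.Agent.Y672.DM

theorem one_add_sq_le_cosh (v : ℝ) : 1 + v ^ 2 / 2 ≤ cosh v := by
  have h1 : cosh v = 1 + 2 * sinh (v / 2) ^ 2 := by
    have h2 : v = 2 * (v / 2) := by ring
    conv_lhs => rw [h2, cosh_two_mul, cosh_sq]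
    ring
  have h3 : (v / 2) ^ 2 ≤ sinh (v / 2) ^ 2 := by
    rw [sq_le_sq]
    rcases le_total 0 (v / 2) with h | h
    · rw [abs_of_nonneg h, abs_of_nonneg (sinh_nonneg_iff.2 h)]
      exact self_le_sinh_iff.2 h
    · rw [abs_of_nonpos h, abs_of_nonpos (sinh_nonpos_iff.2 h)]
      exact neg_le_neg (sinh_le_self_iff.2 h)
  rw [h1]
  nlinarith

/-- `cosh^k v exp(-x cosh v)` is dominated. -/
theorem dom (k : ℕ) {δ x : ℝ} (hδ : 0 < δ) (hx : δ ≤ x) (v : ℝ) :
    cosh v ^ k * exp (-(x * cosh v)) ≤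
      (k.factorial : ℝ) * (4 / δ) ^ k * exp (-(x / 2)) * exp (-(δ / 8) * v ^ 2) := by
  have hc := one_add_sq_le_cosh v
  have hc1 : 1 ≤ cosh v := one_le_cosh v
  have h1 : cosh v ^ k ≤ (k.factorial : ℝ) * (4 / δ) ^ k * exp (δ / 4 * cosh v) := by
    have h2 := Real.pow_div_factorial_le_exp (δ / 4 * cosh v) (by positivity) k
    have h3 : (0 : ℝ) < k.factorial := by exact_mod_cast k.factorial_pos
    rw [div_le_iff₀ h3, mul_pow] at h2
    have h4 : (4 / δ) ^ k * (δ / 4) ^ k = 1 := by
      rw [← mul_pow]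
      have : 4 / δ * (δ / 4) = 1 := by field_simp
      rw [this, one_pow]
    calc cosh v ^ k = (4 / δ) ^ k * ((δ / 4) ^ k * cosh v ^ k) := by
          rw [← mul_assoc, h4, one_mul]
      _ ≤ (4 / δ) ^ k * (exp (δ / 4 * cosh v) * k.factorial) := by gcongr
      _ = _ := by ring
  calc cosh v ^ k * exp (-(x * cosh v))
      ≤ ((k.factorial : ℝ) * (4 / δ) ^ k * exp (δ / 4 * cosh v)) * exp (-(x * cosh v)) := by gcongr
    _ = (k.factorial : ℝ) * (4 / δ) ^ k * exp (δ / 4 * cosh v - x * cosh v) := by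
        rw [mul_assoc, ← Real.exp_add]; rfl
    _ ≤ (k.factorial : ℝ) * (4 / δ) ^ k * exp (-(x / 2) + -(δ / 8) * v ^ 2) := by
        gcongr
        nlinarith [mul_nonneg (sub_nonneg.2 hx) (sub_nonneg.2 hc1),
          mul_le_mul_of_nonneg_left hc hδ.le]
    _ = _ := by rw [Real.exp_add]; ring

theorem dom_integrable {δ : ℝ} (hδ : 0 < δ) : Integrable fun v : ℝ => exp (-(δ / 8) * v ^ 2) :=
  integrable_exp_neg_mul_sq (by positivity)

/-- the derivatives of `KB t` -/
noncomputable def G (k : ℕ) (t x : ℝ) : ℝ := ∫ v : ℝ, (-cosh v) ^ k * (exp (-(x * cosh v)) * cos (t * v))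

theorem G_zero (t x : ℝ) : G 0 t x = KB t x := by simp [G, KB]

theorem norm_term_le (k : ℕ) (t x v : ℝ) :
    ‖(-cosh v) ^ k * (exp (-(x * cosh v)) * cos (t * v))‖ ≤ cosh v ^ k * exp (-(x * cosh v)) := by
  have hc1 : 0 < cosh v := cosh_pos v
  rw [norm_mul, norm_pow, norm_neg, Real.norm_of_nonneg hc1.le, norm_mul,
    Real.norm_of_nonneg (Real.exp_pos _).le]
  have h : ‖cos (t * v)‖ ≤ 1 := abs_cos_le_one _
  calc cosh v ^ k * (exp (-(x * cosh v)) * ‖cos (t * v)‖)
      ≤ cosh v ^ k * (exp (-(x * cosh v)) * 1) := by gcongr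
    _ = _ := by ring

theorem term_continuous (k : ℕ) (t x : ℝ) :
    Continuous fun v : ℝ => (-cosh v) ^ k * (exp (-(x * cosh v)) * cos (t * v)) := by
  have := Real.continuous_cosh
  fun_prop

theorem G_integrable (k : ℕ) (t : ℝ) {x : ℝ} (hx : 0 < x) :
    Integrable fun v : ℝ => (-cosh v) ^ k * (exp (-(x * cosh v)) * cos (t * v)) := by
  refine Integrable.mono' ((dom_integrable hx).const_mul
    ((k.factorial : ℝ) * (4 / x) ^ k * exp (-(x / 2)))) (term_continuous k t x).aestronglyMeasurable ?_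
  exact Eventually.of_forall fun v => (norm_term_le k t x v).trans (dom k hx le_rfl v)

theorem KB_integrable (t : ℝ) {x : ℝ} (hx : 0 < x) :
    Integrable (fun v : ℝ => exp (-(x * cosh v)) * cos (t * v)) := by
  have := G_integrable 0 t hx
  simpa using this

theorem G_bound (k : ℕ) (t : ℝ) {δ : ℝ} (hδ : 0 < δ) :
    ∃ C : ℝ, 0 ≤ C ∧ ∀ x, δ ≤ x → |G k t x| ≤ C * exp (-(x / 2)) := by
  refine ⟨(k.factorial : ℝ) * (4 / δ) ^ k * ∫ v : ℝ, exp (-(δ / 8) * v ^ 2), by positivity, ?_⟩
  intro x hx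
  have h1 : |G k t x| ≤ ∫ v : ℝ, (k.factorial : ℝ) * (4 / δ) ^ k * exp (-(x / 2)) *
      exp (-(δ / 8) * v ^ 2) := by
    rw [G, ← Real.norm_eq_abs]
    refine norm_integral_le_of_norm_le ((dom_integrable hδ).const_mul _) (Eventually.of_forall fun v => ?_)
    exact (norm_term_le k t x v).trans (dom k hδ hx v)
  rw [integral_const_mul] at h1
  linarith

theorem G_hasDerivAt (k : ℕ) (t : ℝ) {x : ℝ} (hx : 0 < x) :
    HasDerivAt (G k t) (G (k + 1) t x) x := by
  have hδ : 0 < x / 2 := by positivity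
  have key := hasDerivAt_integral_of_dominated_loc_of_deriv_le (μ := volume)
    (F := fun (y v : ℝ) => (-cosh v) ^ k * (exp (-(y * cosh v)) * cos (t * v)))
    (F' := fun (y v : ℝ) => (-cosh v) ^ (k + 1) * (exp (-(y * cosh v)) * cos (t * v)))
    (x₀ := x) (s := Ioi (x / 2))
    (bound := fun v => ((k + 1).factorial : ℝ) * (4 / (x / 2)) ^ (k + 1) *
      exp (-(x / 2 / 8) * v ^ 2)) (Ioi_mem_nhds (by linarith))
    (Eventually.of_forall fun y => (term_continuous k t y).aestronglyMeasurable)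
    (G_integrable k t hx) (term_continuous (k + 1) t x).aestronglyMeasurable
    (Eventually.of_forall fun v y hy => ?_)
    ((dom_integrable hδ).const_mul _)
    (Eventually.of_forall fun v y hy => ?_)
  · exact key.2
  · refine (norm_term_le (k + 1) t y v).trans ((dom (k + 1) hδ (le_of_lt hy) v).trans ?_)
    have h1 : exp (-(y / 2)) ≤ 1 := Real.exp_le_one_iff.2 (by
      have : x / 2 < y := hy
      linarith)
    have h2 : 0 ≤ ((k + 1).factorial : ℝ) * (4 / (x / 2)) ^ (k + 1) := by positivity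
    have h3 : 0 ≤ exp (-(x / 2 / 8) * v ^ 2) := (Real.exp_pos _).le
    nlinarith [mul_nonneg h2 h3]
  · have h1 : HasDerivAt (fun y : ℝ => exp (-(y * cosh v))) (exp (-(y * cosh v)) * (-(1 * cosh v))) y :=
      (((hasDerivAt_id y).mul_const (cosh v)).neg).exp
    have h2 := (h1.mul_const (cos (t * v))).const_mul ((-cosh v) ^ k)
    refine h2.congr_deriv ?_
    ring

theorem G_deriv (k : ℕ) (t : ℝ) {x : ℝ} (hx : 0 < x) : deriv (G k t) x = G (k + 1) t x :=
  (G_hasDerivAt k t hx).deriv

theorem G_contDiffOn_nat (t : ℝ) (n : ℕ) : ∀ k, ContDiffOn ℝ n (G k t) (Ioi 0) := by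
  induction n with
  | zero =>
    intro k
    rw [Nat.cast_zero, contDiffOn_zero]
    exact fun x hx => (G_hasDerivAt k t hx).continuousAt.continuousWithinAt
  | succ n ih =>
    intro k
    rw [Nat.cast_succ, contDiffOn_succ_iff_deriv_of_isOpen isOpen_Ioi]
    refine ⟨fun x hx => (G_hasDerivAt k t hx).differentiableAt.differentiableWithinAt,
      fun h => absurd h (by simp), ?_⟩
    exact (ih (k + 1)).congr fun x hx => G_deriv k t hx

theorem G_contDiffOn (k : ℕ) (t : ℝ) : ContDiffOn ℝ ∞ (G k t) (Ioi 0) :=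
  contDiffOn_infty.2 fun n => G_contDiffOn_nat t n k

theorem KB_eq (t : ℝ) : KB t = G 0 t := funext fun x => (G_zero t x).symm

theorem KB_contDiffOn (t : ℝ) : ContDiffOn ℝ ∞ (KB t) (Set.Ioi 0) := by
  rw [KB_eq]
  exact G_contDiffOn 0 t

theorem iteratedDeriv_KB (t : ℝ) (k : ℕ) : ∀ x : ℝ, 0 < x → iteratedDeriv k (KB t) x = G k t x := by
  induction k with
  | zero =>
    intro x _
    rw [iteratedDeriv_zero, G_zero]
  | succ k ih =>
    intro x hx
    rw [iteratedDeriv_succ]
    have h1 : iteratedDeriv k (KB t) =ᶠ[𝓝 x] G k t := by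
      filter_upwards [Ioi_mem_nhds hx] with y hy
      exact ih y hy
    rw [h1.deriv_eq, G_deriv k t hx]

theorem KB_deriv_bound (t : ℝ) (k : ℕ) {δ : ℝ} (hδ : 0 < δ) :
    ∃ C : ℝ, ∀ x, δ ≤ x → |iteratedDeriv k (KB t) x| ≤ C * exp (-(x / 2)) := by
  obtain ⟨C, -, hC⟩ := G_bound k t hδ
  refine ⟨C, fun x hx => ?_⟩
  rw [iteratedDeriv_KB t k x (hδ.trans_le hx)]
  exact hC x hx

/-- `∫ h'' cos(t v) = - t² ∫ h cos(t v)`, `h = exp(-x cosh v)` -/
theorem G_ode (t : ℝ) {x : ℝ} (hx : 0 < x) :
    x ^ 2 * G 2 t x + x * G 1 t x - x ^ 2 * G 0 t x = -(t ^ 2 * G 0 t x) := by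
  -- integrability of the functions that occur
  have hsinh : ∀ v, |sinh v| ≤ cosh v := fun v => by
    rw [abs_le]
    constructor
    · have := Real.exp_pos v
      rw [Real.sinh_eq, Real.cosh_eq]
      have := Real.exp_pos (-v)
      linarith
    · exact (Real.sinh_lt_cosh v).le
  have hI : ∀ (k : ℕ) (f : ℝ → ℝ), Continuous f → (∀ v, |f v| ≤ cosh v ^ k * exp (-(x * cosh v))) →
      Integrable f := by
    intro k f hf hb
    refine Integrable.mono' ((dom_integrable hx).const_mul
      ((k.factorial : ℝ) * (4 / x) ^ k * exp (-(x / 2)))) hf.aestronglyMeasurable ?_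
    exact Eventually.of_forall fun v => (hb v).trans (dom k hx le_rfl v)
  have hcc := Real.continuous_cosh
  have hcs := Real.continuous_sinh
  have hE : ∀ v : ℝ, HasDerivAt (fun v => exp (-(x * cosh v))) (-(x * sinh v) * exp (-(x * cosh v))) v := by
    intro v
    have := (((Real.hasDerivAt_cosh v).const_mul x).neg).exp
    refine this.congr_deriv ?_
    simp only [Pi.neg_apply]
    ring
  have hE2 : ∀ v : ℝ, HasDerivAt (fun v => -(x * sinh v) * exp (-(x * cosh v)))
      ((x ^ 2 * sinh v ^ 2 - x * cosh v) * exp (-(x * cosh v))) v := by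
    intro v
    have := (((Real.hasDerivAt_sinh v).const_mul x).neg).mul (hE v)
    refine this.congr_deriv ?_
    simp only [Pi.neg_apply]
    ring
  have hC : ∀ v : ℝ, HasDerivAt (fun v => cos (t * v)) (-(t * sin (t * v))) v := by
    intro v
    have := ((hasDerivAt_id v).const_mul t).cos
    refine this.congr_deriv ?_
    simp
    ring
  have hS : ∀ v : ℝ, HasDerivAt (fun v => t * sin (t * v)) (t ^ 2 * cos (t * v)) v := by
    intro v
    have := (((hasDerivAt_id v).const_mul t).sin).const_mul t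
    refine this.congr_deriv ?_
    simp
    ring
  have b1 : ∀ v, |cos (t * v)| ≤ 1 := fun v => abs_cos_le_one _
  have b2 : ∀ v, |sin (t * v)| ≤ 1 := fun v => abs_sin_le_one _
  have hcosh1 : ∀ v, 1 ≤ cosh v := one_le_cosh
  have bb : ∀ (k : ℕ) (c : ℝ) (p q : ℝ) (v : ℝ), 0 ≤ c → |p| ≤ c * cosh v ^ k → |q| ≤ 1 →
      |p * exp (-(x * cosh v)) * q| ≤ c * (cosh v ^ k * exp (-(x * cosh v))) := by
    intro k c p q v hc hp hq
    rw [abs_mul, abs_mul, abs_of_pos (Real.exp_pos _)]
    have h1 := cosh_pos v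
    calc |p| * exp (-(x * cosh v)) * |q| ≤ (c * cosh v ^ k) * exp (-(x * cosh v)) * 1 := by gcongr
      _ = _ := by ring
  have hI' : ∀ (k : ℕ) (c : ℝ) (f : ℝ → ℝ), 0 < c → Continuous f →
      (∀ v, |f v| ≤ c * (cosh v ^ k * exp (-(x * cosh v)))) → Integrable f := by
    intro k c f hc hf hb
    have h1 : Integrable fun v => c⁻¹ * f v := by
      refine hI k _ (continuous_const.mul hf) fun v => ?_
      rw [abs_mul, abs_of_pos (inv_pos.2 hc), inv_mul_le_iff₀ hc]
      exact hb v
    have h2 := h1.const_mul c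
    refine h2.congr (Eventually.of_forall fun v => ?_)
    field_simp
  -- first integration by parts
  have i1 : Integrable fun v => (x ^ 2 * sinh v ^ 2 - x * cosh v) * exp (-(x * cosh v)) * cos (t * v) := by
    refine hI' 2 (x ^ 2 + x) _ (by positivity) (by fun_prop) fun v => bb 2 _ _ _ v (by positivity) ?_ (b1 v)
    have h1 := hsinh v
    have h2 : sinh v ^ 2 ≤ cosh v ^ 2 := by
      rw [← sq_abs]
      exact pow_le_pow_left₀ (abs_nonneg _) h1 2
    have h3 : cosh v ≤ cosh v ^ 2 := by nlinarith [hcosh1 v]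
    rw [abs_le]
    constructor
    · nlinarith [sq_nonneg (sinh v), sq_nonneg (x * sinh v), mul_le_mul_of_nonneg_left h3 hx.le,
        sq_nonneg (x * cosh v)]
    · nlinarith [sq_nonneg (sinh v), mul_le_mul_of_nonneg_left h2 (sq_nonneg x), hcosh1 v,
        mul_pos hx (cosh_pos v), mul_nonneg hx.le (sq_nonneg (cosh v))]
  have i2 : Integrable fun v => -(x * sinh v) * exp (-(x * cosh v)) * -(t * sin (t * v)) := by
    have : Integrable fun v => t * (x * sinh v * exp (-(x * cosh v)) * sin (t * v)) := by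
      refine Integrable.const_mul ?_ t
      refine hI' 1 x _ hx (by fun_prop) fun v => bb 1 _ _ _ v hx.le ?_ (b2 v)
      rw [abs_mul, abs_of_pos hx, pow_one]
      exact mul_le_mul_of_nonneg_left (hsinh v) hx.le
    refine this.congr (Eventually.of_forall fun v => ?_)
    ring
  have i3 : Integrable fun v => -(x * sinh v) * exp (-(x * cosh v)) * cos (t * v) := by
    refine hI' 1 x _ hx (by fun_prop) fun v => bb 1 _ _ _ v hx.le ?_ (b1 v)
    rw [abs_neg, abs_mul, abs_of_pos hx, pow_one]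
    exact mul_le_mul_of_nonneg_left (hsinh v) hx.le
  have i4 : Integrable fun v => exp (-(x * cosh v)) * (t ^ 2 * cos (t * v)) := by
    have := (KB_integrable t hx).const_mul (t ^ 2)
    refine this.congr (Eventually.of_forall fun v => ?_)
    ring
  have i5 : Integrable fun v => -(x * sinh v) * exp (-(x * cosh v)) * (t * sin (t * v)) := by
    refine i2.neg.congr (Eventually.of_forall fun v => ?_)
    simp
  have i6 : Integrable fun v => exp (-(x * cosh v)) * (t * sin (t * v)) := by
    have : Integrable fun v => t * (1 * exp (-(x * cosh v)) * sin (t * v)) := by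
      refine Integrable.const_mul ?_ t
      refine hI' 0 1 _ one_pos (by fun_prop) fun v => bb 0 _ _ _ v zero_le_one (by simp) (b2 v)
    refine this.congr (Eventually.of_forall fun v => ?_)
    ring
  have p1 := integral_mul_deriv_eq_deriv_mul_of_integrable
    (u := fun v => -(x * sinh v) * exp (-(x * cosh v)))
    (u' := fun v => (x ^ 2 * sinh v ^ 2 - x * cosh v) * exp (-(x * cosh v)))
    (v := fun v => cos (t * v)) (v' := fun v => -(t * sin (t * v)))
    (fun v _ => hE2 v) (fun v _ => hC v) i2 i1 i3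
  have p2 := integral_mul_deriv_eq_deriv_mul_of_integrable
    (u := fun v => exp (-(x * cosh v)))
    (u' := fun v => -(x * sinh v) * exp (-(x * cosh v)))
    (v := fun v => t * sin (t * v)) (v' := fun v => t ^ 2 * cos (t * v))
    (fun v _ => hE v) (fun v _ => hS v) i4 i5 i6
  have q1 : ∫ v, (x ^ 2 * sinh v ^ 2 - x * cosh v) * exp (-(x * cosh v)) * cos (t * v) =
      -(t ^ 2 * G 0 t x) := by
    have r1 : ∫ v, -(x * sinh v) * exp (-(x * cosh v)) * -(t * sin (t * v)) =
        -∫ v, -(x * sinh v) * exp (-(x * cosh v)) * (t * sin (t * v)) := by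
      rw [← integral_neg]
      congr 1
      ext v
      ring
    have r2 : ∫ v, exp (-(x * cosh v)) * (t ^ 2 * cos (t * v)) = t ^ 2 * G 0 t x := by
      unfold G
      rw [← integral_const_mul]
      congr 1
      ext v
      ring
    rw [r1] at p1
    rw [r2] at p2
    linarith
  rw [← q1]
  unfold G
  rw [← integral_const_mul, ← integral_const_mul, ← integral_const_mul, ← integral_add, ← integral_sub]
  · congr 1
    ext v
    have := Real.cosh_sq v
    have e : sinh v ^ 2 = cosh v ^ 2 - 1 := by rw [this]; ring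
    rw [e]
    ring
  · exact ((G_integrable 2 t hx).const_mul _).add ((G_integrable 1 t hx).const_mul _)
  · exact (G_integrable 0 t hx).const_mul _
  · exact (G_integrable 2 t hx).const_mul _
  · exact (G_integrable 1 t hx).const_mul _

theorem KB_ode (t : ℝ) {x : ℝ} (hx : 0 < x) :
    x ^ 2 * deriv (deriv (KB t)) x + x * deriv (KB t) x = (x ^ 2 - t ^ 2) * KB t x := by
  have h1 : deriv (KB t) x = G 1 t x := by
    rw [KB_eq]
    exact G_deriv 0 t hx
  have h2 : deriv (deriv (KB t)) x = G 2 t x := by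
    have h3 : deriv (KB t) =ᶠ[𝓝 x] G 1 t := by
      filter_upwards [Ioi_mem_nhds hx] with y hy
      rw [KB_eq]
      exact G_deriv 0 t hy
    rw [h3.deriv_eq, G_deriv 1 t hx]
  rw [h1, h2, ← G_zero]
  have := G_ode t hx
  linarith

end Pool.Agent.Y807.DMA
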