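import Pool.Agent.Y807.DME1
import Pool.Agent.Y807.DMB
import Pool.Agent.Y672.DM.FDef

/-!
# Unfolding of the theta integral (job DM-H, first part)
-/

set_option autoImplicit false

open Complex Pool.Agent.Y672 Pool.Agent.Y672.DM MeasureTheory Filter Set

namespace Pool.Agent.Y807.DMH

open Pool.Agent.Y807.DME1

/-- multiplication by `φ²` -/
def T : Equiv.Perm (ℤ × ℤ) where
  toFun p := (p.1 + p.2, p.1 + 2 * p.2)
  invFun p := (2 * p.1 - p.2, p.2 - p.1)
  left_inv p := by ext <;> simp <;> ring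
  right_inv p := by ext <;> simp <;> ring

/-- multiplication by `φ` -/
def S : Equiv.Perm (ℤ × ℤ) where
  toFun p := (p.2, p.1 + p.2)
  invFun p := (p.2 - p.1, p.1)
  left_inv p := by ext <;> simp
  right_inv p := by ext <;> simp

theorem nm_T (p : ℤ × ℤ) : nm (T p) = nm p := by
  simp only [nm, T, Equiv.coe_fn_mk]
  ring

theorem nm_S (p : ℤ × ℤ) : nm (S p) = -nm p := by
  simp only [nm, S, Equiv.coe_fn_mk]
  ring

theorem cls_T (p : ℤ × ℤ) : cls (T p) = -cls p := by
  simp only [cls, T, Equiv.coe_fn_mk]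
  push_cast
  have h5 : (5 : ZMod 5) = 0 := by decide
  linear_combination ((p.1 : ZMod 5) + 2 * p.2) * h5

theorem cls_S (p : ℤ × ℤ) : cls (S p) = 3 * cls p := by
  simp only [cls, S, Equiv.coe_fn_mk]
  push_cast
  have h5 : (5 : ZMod 5) = 0 := by decide
  linear_combination (-(p.2 : ZMod 5)) * h5

theorem em_T (p : ℤ × ℤ) : DM.em (T p) = Real.goldenRatio ^ 2 * DM.em p := by
  have h := Real.goldenRatio_sq
  simp only [DM.em, T, Equiv.coe_fn_mk]
  push_cast
  linear_combination (-(p.1 : ℝ) - p.2 * Real.goldenRatio - p.2) * h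

theorem em'_T (p : ℤ × ℤ) : DM.em' (T p) = Real.goldenConj ^ 2 * DM.em' p := by
  have h := Real.goldenConj_sq
  simp only [DM.em', T, Equiv.coe_fn_mk]
  push_cast
  linear_combination (-(p.1 : ℝ) - p.2 * Real.goldenConj - p.2) * h

theorem em_S (p : ℤ × ℤ) : DM.em (S p) = Real.goldenRatio * DM.em p := by
  have h := Real.goldenRatio_sq
  simp only [DM.em, S, Equiv.coe_fn_mk]
  push_cast
  linear_combination (-(p.2 : ℝ)) * h

theorem em'_S (p : ℤ × ℤ) : DM.em' (S p) = Real.goldenConj * DM.em' p := by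
  have h := Real.goldenConj_sq
  simp only [DM.em', S, Equiv.coe_fn_mk]
  push_cast
  linear_combination (-(p.2 : ℝ)) * h

theorem em_ne {p : ℤ × ℤ} (hp : nm p ≠ 0) : DM.em p ≠ 0 ∧ DM.em' p ≠ 0 := by
  have h := em_mul p
  constructor
  · intro h0
    rw [h0, zero_mul] at h
    exact hp (by exact_mod_cast h.symm)
  · intro h0
    rw [h0, mul_zero] at h
    exact hp (by exact_mod_cast h.symm)

theorem log_quot : Real.log |Real.goldenRatio / Real.goldenConj| = 2 * Real.log Real.goldenRatio := by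
  have h0 : Real.goldenRatio ≠ 0 := gr_pos.ne'
  rw [conj_eq]
  have : Real.goldenRatio / -Real.goldenRatio⁻¹ = -(Real.goldenRatio ^ 2) := by
    field_simp
  rw [this, abs_neg, abs_of_pos (by positivity), Real.log_pow]
  push_cast
  ring

theorem conj_ne : Real.goldenConj ≠ 0 := Real.goldenConj_ne_zero

theorem lam_S {p : ℤ × ℤ} (hp : nm p ≠ 0) : lam (S p) = lam p + PP / 2 := by
  obtain ⟨h1, h2⟩ := em_ne hp
  have h3 := conj_ne
  have h4 := gr_pos.ne'
  unfold lam
  rw [em_S, em'_S, mul_div_mul_comm, abs_mul, Real.log_mul (by positivity) (by positivity), log_quot]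
  unfold PP
  ring

theorem S_S (p : ℤ × ℤ) : S (S p) = T p := by
  simp only [S, T, Equiv.coe_fn_mk]
  ext <;> simp <;> ring

theorem lam_T {p : ℤ × ℤ} (hp : nm p ≠ 0) : lam (T p) = lam p + PP := by
  have h1 : nm (S p) ≠ 0 := by rw [nm_S]; simpa using hp
  rw [← S_S, lam_S h1, lam_S hp]
  ring

theorem c5_three : ∀ b : ZMod 5, c5 (3 * b) = -c5 b := by decide

theorem c5_neg : ∀ b : ZMod 5, c5 (-b) = c5 b := by decide

theorem t0_PP : t0 * PP = 2 * Real.pi := by
  unfold t0 PP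
  have := log_gr_pos
  field_simp
  ring

theorem gg_S {p : ℤ × ℤ} (hp : nm p ≠ 0) : gg (S p) = gg p := by
  unfold gg
  rw [cls_S, c5_three, lam_S hp]
  have h1 : (-I * t0 * ((lam p + PP / 2 : ℝ) : ℂ) : ℂ) = -I * t0 * lam p + -(Real.pi * I) := by
    have h2 : (t0 : ℂ) * PP = 2 * Real.pi := by exact_mod_cast t0_PP
    push_cast
    linear_combination (-I / 2) * h2
  rw [h1, Complex.exp_add, Complex.exp_neg, Complex.exp_pi_mul_I]
  push_cast
  ring

theorem gg_T {p : ℤ × ℤ} (hp : nm p ≠ 0) : gg (T p) = gg p := by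
  have h1 : nm (S p) ≠ 0 := by rw [nm_S]; simpa using hp
  rw [← S_S, gg_S h1, gg_S hp]

theorem zpow_inv (k : ℤ) : ∀ q : ℤ × ℤ, nm q ≠ 0 →
    nm ((T ^ k) q) = nm q ∧ lam ((T ^ k) q) = lam q + k * PP ∧ gg ((T ^ k) q) = gg q := by
  induction k using Int.induction_on with
  | zero => simp
  | succ k ih =>
    intro q hq
    have h1 : nm (T q) ≠ 0 := by rwa [nm_T]
    obtain ⟨i1, i2, i3⟩ := ih (T q) h1
    rw [zpow_add_one, Equiv.Perm.mul_apply, i1, i2, i3, nm_T, lam_T hq, gg_T hq]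
    refine ⟨rfl, ?_, rfl⟩
    push_cast
    ring
  | pred k ih =>
    intro q hq
    have e : T (T⁻¹ q) = q := Equiv.apply_symm_apply T q
    have h1 : nm (T⁻¹ q) = nm q := by
      rw [← nm_T (T⁻¹ q), e]
    have h1' : nm (T⁻¹ q) ≠ 0 := by rwa [h1]
    obtain ⟨i1, i2, i3⟩ := ih (T⁻¹ q) h1'
    have h2 := lam_T h1'
    have h3 := gg_T h1'
    rw [e] at h2 h3
    rw [zpow_sub_one, Equiv.Perm.mul_apply, i1, i2, i3, h1]
    refine ⟨rfl, ?_, h3.symm⟩
    rw [h2]
    push_cast
    ring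

/-- the fundamental domain -/
def D : Set (ℤ × ℤ) := {q | nm q ≠ 0 ∧ 0 ≤ lam q ∧ lam q < PP}

/-- all elements of nonzero norm -/
def P : Set (ℤ × ℤ) := {q | nm q ≠ 0}

/-- `ℤ[φ] \ 0` is the disjoint union of the translates of `D`. -/
noncomputable def eDP : D × ℤ ≃ P := Equiv.ofBijective
  (fun x => ⟨(T ^ x.2) x.1, by
    change nm _ ≠ 0
    rw [(zpow_inv x.2 x.1 x.1.2.1).1]
    exact x.1.2.1⟩) (by
  constructor
  · rintro ⟨⟨q, hq⟩, k⟩ ⟨⟨r, hr⟩, l⟩ h
    have h' : (T ^ k) q = (T ^ l) r := congrArg Subtype.val h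
    have h1 := (zpow_inv k q hq.1).2.1
    have h2 := (zpow_inv l r hr.1).2.1
    rw [h', h2] at h1
    have hP := PP_pos
    obtain ⟨-, q1, q2⟩ := hq
    obtain ⟨-, r1, r2⟩ := hr
    have hkl : k = l := by
      have h3 : ((k : ℝ) - l) * PP < 1 * PP := by linarith
      have h4 : ((l : ℝ) - k) * PP < 1 * PP := by linarith
      have h5 := lt_of_mul_lt_mul_right h3 hP.le
      have h6 := lt_of_mul_lt_mul_right h4 hP.le
      have h7 : k < l + 1 := by exact_mod_cast (by linarith : (k : ℝ) < l + 1)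
      have h8 : l < k + 1 := by exact_mod_cast (by linarith : (l : ℝ) < k + 1)
      omega
    subst hkl
    have h3 : q = r := (T ^ k).injective h'
    subst h3
    rfl
  · rintro ⟨p, hp⟩
    have hP := PP_pos
    set k : ℤ := ⌊lam p / PP⌋ with hk
    have h1 := zpow_inv (-k) p hp
    have h2 : (k : ℝ) ≤ lam p / PP := Int.floor_le _
    have h3 : lam p / PP < k + 1 := Int.lt_floor_add_one _
    rw [le_div_iff₀ hP] at h2
    rw [div_lt_iff₀ hP] at h3
    refine ⟨(⟨(T ^ (-k)) p, ?_, ?_, ?_⟩, k), ?_⟩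
    · rw [h1.1]
      exact hp
    · rw [h1.2.1]
      push_cast
      linarith
    · rw [h1.2.1]
      push_cast
      linarith
    · apply Subtype.ext
      simp only
      rw [← Equiv.Perm.mul_apply, ← zpow_add, add_neg_cancel, zpow_zero, Equiv.Perm.one_apply])

theorem eDP_apply (x : D × ℤ) : (eDP x : ℤ × ℤ) = (T ^ x.2) x.1 := rfl

/-- unfolding -/
theorem unfold_sum {F : ℤ × ℤ → ℂ} (hF : Summable F) (h0 : ∀ p, nm p = 0 → F p = 0) {G : ℤ × ℤ → ℂ}
    (hG : ∀ q : D, HasSum (fun k : ℤ => F ((T ^ k) q)) (G q)) : HasSum (fun q : D => G q) (∑' p, F p) := by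
  have h1 : ∑' p, F p = ∑' p : P, F p := by
    refine (tsum_subtype_eq_of_support_subset ?_).symm
    intro p hp h
    exact hp (h0 p h)
  have h2 : Summable fun x : D × ℤ => F ((T ^ x.2) x.1) := by
    have h3 : Summable fun p : P => F p := hF.subtype P
    exact eDP.summable_iff.2 h3
  have h3 : ∑' p : P, F p = ∑' x : D × ℤ, F ((T ^ x.2) x.1) := (eDP.tsum_eq fun p : P => F p).symm
  rw [h1, h3]
  exact h2.hasSum.prod_fiberwise hG

/-- `exp(-X cosh w) exp(i t0 w)` -/
noncomputable def hh (X w : ℝ) : ℂ := cexp (-(X * Real.cosh w : ℝ) + I * t0 * w)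

theorem hh_eq (X w : ℝ) : hh X w = ((Real.exp (-(X * Real.cosh w)) * Real.cos (t0 * w) : ℝ) : ℂ) +
    ((Real.exp (-(X * Real.cosh w)) * Real.sin (t0 * w) : ℝ) : ℂ) * I := by
  unfold hh
  rw [Complex.exp_add]
  have h1 : (I * t0 * w : ℂ) = ((t0 * w : ℝ) : ℂ) * I := by
    push_cast
    ring
  rw [h1, Complex.exp_mul_I]
  push_cast
  ring

theorem norm_hh (X w : ℝ) : ‖hh X w‖ = Real.exp (-(X * Real.cosh w)) := by
  unfold hh
  rw [Complex.norm_exp]
  congr 1
  simp

theorem hh_continuous (X : ℝ) : Continuous (hh X) := by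
  unfold hh
  have := Real.continuous_cosh
  fun_prop

theorem exp_cosh_integrable {X : ℝ} (hX : 0 < X) : Integrable fun w : ℝ => Real.exp (-(X * Real.cosh w)) := by
  have h := Pool.Agent.Y807.DMA.KB_integrable 0 hX
  simpa using h

theorem hh_integrable {X : ℝ} (hX : 0 < X) : Integrable (hh X) :=
  Integrable.mono' (exp_cosh_integrable hX) (hh_continuous X).aestronglyMeasurable
    (Eventually.of_forall fun w => (norm_hh X w).le)

theorem hh_integral {X : ℝ} (hX : 0 < X) : ∫ w, hh X w = KB t0 X := by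
  have i1 : Integrable fun w : ℝ => Real.exp (-(X * Real.cosh w)) * Real.cos (t0 * w) :=
    Pool.Agent.Y807.DMA.KB_integrable t0 hX
  have i2 : Integrable fun w : ℝ => Real.exp (-(X * Real.cosh w)) * Real.sin (t0 * w) := by
    refine Integrable.mono' (exp_cosh_integrable hX) ?_ (Eventually.of_forall fun w => ?_)
    · have := Real.continuous_cosh
      exact Continuous.aestronglyMeasurable (by fun_prop)
    · rw [norm_mul, Real.norm_of_nonneg (Real.exp_pos _).le]
      have : ‖Real.sin (t0 * w)‖ ≤ 1 := Real.abs_sin_le_one _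
      calc _ ≤ Real.exp (-(X * Real.cosh w)) * 1 := by gcongr
        _ = _ := mul_one _
  have h0 : ∫ w : ℝ, Real.exp (-(X * Real.cosh w)) * Real.sin (t0 * w) = 0 := by
    have h1 := integral_neg_eq_self (fun w : ℝ => Real.exp (-(X * Real.cosh w)) * Real.sin (t0 * w)) volume
    have h2 : ∀ w : ℝ, Real.exp (-(X * Real.cosh (-w))) * Real.sin (t0 * -w) =
        -(Real.exp (-(X * Real.cosh w)) * Real.sin (t0 * w)) := by
      intro w
      rw [Real.cosh_neg, mul_neg, Real.sin_neg]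
      ring
    simp_rw [h2] at h1
    rw [integral_neg] at h1
    exact self_eq_neg.1 h1.symm
  simp_rw [hh_eq]
  rw [integral_add i1.ofReal (i2.ofReal.mul_const _), integral_mul_const, integral_complex_ofReal,
    integral_complex_ofReal, h0]
  simp [KB]

/-- sum over the translates -/
theorem hh_sum {X : ℝ} (hX : 0 < X) (a : ℝ) :
    HasSum (fun k : ℤ => ∫ w in (a + k * PP)..(a + k * PP + PP), hh X w) (KB t0 X) := by
  rw [← hh_integral hX]
  have hP := PP_pos
  have h1 := hasSum_integral_iUnion (μ := volume) (f := hh X) (s := fun n : ℤ => Ioc (a + n • PP) (a + (n + 1) • PP))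
    (fun i => measurableSet_Ioc) (pairwise_disjoint_Ioc_add_zsmul a PP)
    (hh_integrable hX).integrableOn
  rw [iUnion_Ioc_add_zsmul hP, Measure.restrict_univ] at h1
  refine h1.congr_fun fun k => ?_
  rw [intervalIntegral.integral_of_le (by linarith)]
  congr 2
  simp only [zsmul_eq_mul]
  push_cast
  congr 1
  ring

end Pool.Agent.Y807.DMH
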